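import Pool.Agent.P.MP_2b4a47_lc.HT.Tri3

/-! A maximal map has a contractible edge. -/

namespace Pool.Agent.P.MP_2b4a47_lc.HT

open Finset

variable {V N : Type} [DecidableEq V] [DecidableEq N] {S : Finset (Dt N)} {p p' : Dt N → V}
  {t t' : Dt N → Dt N → F2} {Z Z' Y : Dt N → F2} {x y n : Dt N} {κ : F2}

/-- The darts strictly between `x` and `y`. -/
private def Bt (S : Finset (Dt N)) (p : Dt N → V) (t : Dt N → Dt N → F2) (x y : Dt N) :
    Finset (Dt N) := {g ∈ S | p g = p x ∧ g ≠ x ∧ g ≠ y ∧ cc t x g y = 0}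

private theorem mem_Bt {g : Dt N} :
    g ∈ Bt S p t x y ↔ g ∈ S ∧ p g = p x ∧ g ≠ x ∧ g ≠ y ∧ cc t x g y = 0 := mem_filter

private theorem chord_sub (h : Gd S p t) {g d : Dt N} (hg : Succ S p t x g) (hy : y ∈ S)
    (ey : p y = p x) (nxy : x ≠ y) (hd : d ∈ S) (ed : p d = p x) (n1 : d ≠ x) (n2 : d ≠ g)
    (hdy : d = y ∨ d ∈ Bt S p t x y) : Bt S p t g d ⊆ Bt S p t x y := by
  intro w hw
  obtain ⟨hw, ew, m1, m2, c1⟩ := mem_Bt.1 hw
  obtain ⟨hx, hgS, eg, nxg, hs⟩ := hg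
  have c2 : cc t x g d = 0 := hs d hd ed n1 n2
  have ew' : p w = p x := ew.trans eg
  have m3 : w ≠ x := by
    rintro rfl
    have e := h.tour.cc_swap hx hgS hd eg ed nxg n1.symm n2.symm
    rw [c2, cc_rot t g w d, c1] at e
    exact absurd e (by decide)
  have c3 : cc t x w d = 0 := by
    have e := h.tour.cocycle hx hgS hw hd ew' (ed.trans eg.symm) m3.symm n2.symm
    rwa [hs w hw ew' m3 m1, c2, c1, zero_add, add_zero] at e
  rcases hdy with rfl | hdy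
  · exact mem_Bt.2 ⟨hw, ew', m3, m2, c3⟩
  obtain ⟨-, -, -, n3, c4⟩ := mem_Bt.1 hdy
  have m4 : w ≠ y := by
    rintro rfl
    have e := h.tour.cc_swap hx hw hd ew' ed nxy n1.symm m2
    rw [c3, c4] at e
    exact absurd e (by decide)
  exact mem_Bt.2 ⟨hw, ew', m3, m4,
    h.cyc x hx w hw d hd y hy ew' ed ey m3.symm n1.symm nxy m2 m4 n3 c3 c4⟩

private theorem chord_ind (h : Gd S p t) (m : ℕ) : ∀ x ∈ S, ∀ y ∈ S, p y = p x → x ≠ y →
    Ad S p (p x.swap) (p y.swap) → (Bt S p t x y).Nonempty → #(Bt S p t x y) = m →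
    ∃ x' g k, Succ S p t x' g ∧ Succ S p t g k ∧ g ∈ Bt S p t x y ∧ k ≠ x' ∧
      ∀ d ∈ S, p d = p x → Ad S p (p g.swap) (p d.swap) → d = x' ∨ d = k := by
  induction m using Nat.strong_induction_on with
  | _ m ih =>
  intro x hx y hy ey nxy hA hne hm
  obtain ⟨g, hg⟩ := exists_succ h.tour h.cyc hx hy ey nxy.symm
  obtain ⟨-, hgS, eg, nxg, hs⟩ := id hg
  have ngy : g ≠ y := by
    rintro rfl
    obtain ⟨w, hw⟩ := hne
    obtain ⟨hw, ew, m1, m2, c1⟩ := mem_Bt.1 hw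
    have e := h.tour.cc_swap hx hy hw ey ew nxy m1.symm m2.symm
    rw [c1, hs w hw ew m1 m2] at e
    exact absurd e (by decide)
  have c1 : cc t x g y = 0 := hs y hy ey nxy.symm ngy.symm
  have hgB : g ∈ Bt S p t x y := mem_Bt.2 ⟨hgS, eg, nxg.symm, ngy, c1⟩
  obtain ⟨k, hk⟩ := exists_succ h.tour h.cyc hgS hx eg.symm nxg
  have nkx : k ≠ x := by
    rintro rfl
    exact (hg.both h.tour hk hy ey).elim nxy.symm ngy.symm
  by_cases hc : ∀ d ∈ S, p d = p x → Ad S p (p g.swap) (p d.swap) → d = x ∨ d = k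
  · exact ⟨x, g, k, hg, hk, hgB, nkx, hc⟩
  simp only [not_forall, not_or] at hc
  obtain ⟨d, hd, ed, hgd, n1, n3⟩ := hc
  replace n1 : d ≠ x := n1
  replace n3 : d ≠ k := n3
  have n2 : d ≠ g := by
    rintro rfl
    exact h.ad_ne hgd rfl
  have c2 : cc t x g d = 0 := hs d hd ed n1 n2
  by_cases hdy : d = y ∨ d ∈ Bt S p t x y
  · have h1 := chord_sub h hg hy ey nxy hd ed n1 n2 hdy
    obtain ⟨x', g', k', h2, h3, h4, h5, h6⟩ := ih _
      (hm ▸ card_lt_card ⟨h1, fun h2 => (mem_Bt.1 (h2 hgB)).2.2.1 rfl⟩) g hgS d hd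
      (ed.trans eg.symm) n2.symm hgd ⟨k, mem_Bt.2 ⟨hk.2.1, hk.2.2.1, hk.2.2.2.1.symm, n3.symm,
        hk.2.2.2.2 d hd (ed.trans eg.symm) n2 n3⟩⟩ rfl
    exact ⟨x', g', k', h2, h3, h1 h4, h5, fun d' hd' e => h6 d' hd' (e.trans eg.symm)⟩
  exfalso
  rw [not_or] at hdy
  have c3 : cc t x d y = 1 := f2_eq_one fun e => hdy.2 (mem_Bt.2 ⟨hd, ed, n1, hdy.1, e⟩)
  obtain ⟨d2, hd2, f1, f2⟩ := hgd
  have e0 := h.tri_cross (d1 := g) (d2 := d2) (d3 := d.swap) hgS hd2 (h.sym d hd) f1.symm f2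
    (ed.trans eg.symm) hx hy eg.symm (ey.trans eg.symm) hA nxg n1.symm ngy.symm (Ne.symm hdy.1)
  have e1 := h.tour.cc_swap hx hgS hd eg ed nxg n1.symm n2.symm
  have e2 := h.tour.cc_swap hx hy hd ey ed nxy n1.symm (Ne.symm hdy.1)
  have e3 := h.tour.cocycle hx hgS hy hd ey (ed.trans eg.symm) nxy n2.symm
  rw [Prod.swap_swap, cc_rot t x d g, ← cc_rot t d g y, e1, c2] at e0
  rw [c1, c2, ← e0] at e3
  rw [c3] at e2
  revert e2 e3
  generalize cc t x y d = c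
  revert c
  decide

/-- `Bt x y` = darts `g ≠ x, y` at `A` with `cc t x g y = 0`. Among pairs `x ≠ y` at `A` with
adjacent heads and `Bt x y` nonempty and without the darts `A B`, `A C` (example: these two darts)
minimise `#(Bt x y)`. Let `g` be the successor of `x` (`g ∈ Bt x y`), `k` that of `g`, and `z` a
dart to a common neighbour, `z ≠ x, k`. If `z = y` or `z ∈ Bt x y` then `k ∈ Bt g z ⊂ Bt x y`
(`Tour.cocycle`, `cyc`). Otherwise `cc t z g x = 1`, `cc t z g y = 0` contradict `tri_cross`. -/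
theorem Gd.chord (h : Gd S p t) {A B C z : V} (hc : Cn S p t A C B) (hBC : Ad S p B C)
    (hz : Ad S p A z) (h1 : z ≠ B) (h2 : z ≠ C) :
    ∃ a q b, Cn S p t A a q ∧ Cn S p t A q b ∧ q ≠ B ∧ q ≠ C ∧ a ≠ b ∧
      ∀ z, Ad S p A z → Ad S p q z → z = a ∨ z = b := by
  obtain ⟨c, b, hs, rfl, rfl, rfl⟩ := hc
  obtain ⟨w, hw, ew, rfl⟩ := hz
  obtain ⟨hc, hb, eb, ncb, hs⟩ := hs
  have m1 : w ≠ b := fun e => h1 (e ▸ rfl)
  have m2 : w ≠ c := fun e => h2 (e ▸ rfl)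
  obtain ⟨x, g, k, hg, hk, hB, nk, hd⟩ := chord_ind h _ b hb c hc eb.symm ncb.symm hBC
    ⟨w, mem_Bt.2 ⟨hw, ew.trans eb.symm, m1, m2, (cc_rot t c b w).trans (hs w hw ew m2 m1)⟩⟩ rfl
  obtain ⟨hgS, eg, n1, n2, -⟩ := mem_Bt.1 hB
  have eg' := eg.trans eb
  refine ⟨_, _, _, ⟨x, g, hg, hg.2.2.1.symm.trans eg', rfl, rfl⟩, ⟨g, k, hk, eg', rfl, rfl⟩,
    fun e => n1 (h.simple.2 g hgS b hb eg e), fun e => n2 (h.simple.2 g hgS c hc eg' e),
    fun e => nk (h.simple.2 k hk.2.1 x hg.1 (hk.2.2.1.trans hg.2.2.1) e.symm), ?_⟩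
  rintro _ ⟨d, hdS, ed, rfl⟩ h3
  rcases hd d hdS (ed.trans eb.symm) h3 with rfl | rfl
  exacts [.inl rfl, .inr rfl]

end Pool.Agent.P.MP_2b4a47_lc.HT
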