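import Pool.Agent.P.MP_2b4a47_lc.HT.Map

/-! The two sides of a circuit. -/

namespace Pool.Agent.P.MP_2b4a47_lc.HT

open Finset

variable {V N : Type} [DecidableEq V] [DecidableEq N] {S : Finset (Dt N)} {p p' : Dt N → V}
  {t t' : Dt N → Dt N → F2} {Z Z' Y : Dt N → F2} {x y n : Dt N} {κ : F2}

variable {W : Finset V} {o i : V → Dt N}

theorem Circ.onC_swap (h : Circ S p W o i) {d : Dt N} (hd : OnC p W o i d) :
    OnC p W o i d.swap := by
  obtain ⟨h1, h2 | h2⟩ := hd
  · have := h.nx _ h1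
    rw [← h2] at this
    exact ⟨this.1, .inr this.2.symm⟩
  · have := h.pv _ h1
    rw [← h2] at this
    exact ⟨this.1, .inl this.2.symm⟩

private theorem Circ.onC_iff (h : Circ S p W o i) {d : Dt N} :
    OnC p W o i d.swap ↔ OnC p W o i d := ⟨fun h1 => h.onC_swap h1, h.onC_swap⟩

private theorem Circ.sum_at (h : Circ S p W o i) (k : Dt N → F2) (v : V) :
    (∑ d ∈ S, if p d = v then (if OnC p W o i d then 1 else 0) * k d else 0) =
      if v ∈ W then k (o v) + k (i v) else 0 := by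
  split_ifs with hv
  · rw [sum_eq_add_of_mem (o v) (i v) (h.oS v hv) (h.iS v hv) (h.ne v hv)]
    · simp [OnC, h.po v hv, h.pi v hv, hv]
    · rintro d - ⟨h1, h2⟩
      split_ifs with h3 h4
      · subst h3
        exact (h4.2.elim h1 h2).elim
      · exact zero_mul _
      · rfl
  · refine sum_eq_zero fun d _ => ?_
    split_ifs with h3 h4
    · exact absurd (h3 ▸ h4.1) hv
    · exact zero_mul _
    · rfl

private theorem edge_sym (g d : Dt N) : (if d.swap = g ∨ d.swap = g.swap then (1 : F2) else 0) =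
    if d = g ∨ d = g.swap then 1 else 0 := by
  refine if_congr ⟨?_, ?_⟩ rfl rfl
  · rintro (rfl | h)
    exacts [.inr rfl, .inl (Prod.swap_injective h)]
  · rintro (rfl | rfl)
    exacts [.inr rfl, .inl rfl]

private theorem edge_sum (hp : Pre S p t) {g : Dt N} (hg : g ∈ S) {k : Dt N → F2}
    (hk : ∀ d, d ≠ g → d ≠ g.swap → k d = 0) : ∑ d ∈ S, k d = k g + k g.swap :=
  sum_eq_add_of_mem g g.swap hg (hp.sym g hg) (hp.ne g hg).symm fun d _ h => hk d h.1 h.2

private theorem edge_deg (hp : Pre S p t) {g : Dt N} (hg : g ∈ S) (u : V) :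
    deg S p (fun d => if d = g ∨ d = g.swap then 1 else 0) u =
      (if u = p g then 1 else 0) + if u = p g.swap then 1 else 0 := by
  rw [deg, edge_sum hp hg fun d h1 h2 => by simp [h1, h2]]
  simp [eq_comm]

theorem Circ.cy (h : Circ S p W o i) : Cy S p fun d => if OnC p W o i d then 1 else 0 := by
  refine ⟨fun d _ => if_congr h.onC_iff rfl rfl, fun v => ?_⟩
  have := h.sum_at (fun _ => 1) v
  simp only [mul_one, f2_self, ite_self] at this
  exact this

/-- For `e` at `x ∈ W` the inner sum is `t (i x) e + t (o x) e`. Add `t (i x) (o x) + 1`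
(`Cy.dual`): this gives `cc t (i x) (o x) e` off the circuit, `t (o x) (o x) + 1` for `e = o x` and
`t (i x) (i x)` for `e = i x`; the darts of the circuit cancel by `sum_sym` and `diag`. -/
theorem Circ.bf (h : Circ S p W o i) (hp : Pre S p t) (hZ : Cy S p Z) :
    Bf S p t (fun d => if OnC p W o i d then 1 else 0) Z =
      ∑ g ∈ S, if p g ∈ W ∧ ¬ OnC p W o i g then Z g * cc t (i (p g)) (o (p g)) g else 0 := by
  have e1 : Bf S p t (fun d => if OnC p W o i d then 1 else 0) Z =
      ∑ e ∈ S, Z e * if p e ∈ W then t (o (p e)) e + t (i (p e)) e else 0 := by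
    rw [Bf, sum_comm]
    refine sum_congr rfl fun e _ => ?_
    rw [← h.sum_at (fun d => t d e), mul_sum]
    exact sum_congr rfl fun d _ => by split_ifs <;> ring
  have e2 := hZ.dual fun v => if v ∈ W then t (i v) (o v) + 1 else 0
  have e3 : (∑ e ∈ S, if OnC p W o i e then
      Z e * (t e e + if e = o (p e) then 1 else 0) else 0) = 0 := by
    refine sum_sym hp.sym hp.ne fun e he => ?_
    by_cases h1 : OnC p W o i e
    · rw [if_pos h1, if_pos (h.onC_swap h1), hZ.1 e he]
      have h2 := hp.diag e he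
      by_cases h3 : e = o (p e)
      · have h4 := h.nx _ h1.1
        rw [← h3] at h4
        rw [if_pos h3, if_neg fun h5 => h.ne _ h4.1 (h5.symm.trans h4.2.symm)]
        linear_combination Z e * h2 + Z e * f2_two
      · have h4 := h.pv _ h1.1
        rw [← h1.2.resolve_left h3] at h4
        rw [if_neg h3, if_pos h4.2.symm]
        linear_combination Z e * h2 + Z e * f2_two
    · rw [if_neg h1, if_neg fun h2 => h1 (h.onC_iff.1 h2), add_zero]
  rw [e1]
  have aux : ∀ a b c d : F2, b = 0 → d = 0 → a + b = c + d → a = c := fun a b c d h1 h2 h3 => by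
    rwa [h1, h2, add_zero, add_zero] at h3
  refine aux _ _ _ _ e2 e3 ?_
  rw [← sum_add_distrib, ← sum_add_distrib]
  refine sum_congr rfl fun e he => ?_
  by_cases h1 : p e ∈ W
  · have h2 := hp.tour _ (h.oS _ h1) _ (h.iS _ h1) ((h.po _ h1).trans (h.pi _ h1).symm) (h.ne _ h1)
    by_cases h3 : OnC p W o i e
    · rw [if_pos h1, if_pos h1, if_neg fun h4 => h4.2 h3, if_pos h3]
      by_cases h4 : e = o (p e)
      · rw [if_pos h4, ← h4]
        linear_combination Z e * t (i (p e)) e * f2_two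
      · rw [if_neg h4]
        rw [← h3.2.resolve_left h4] at h2 ⊢
        linear_combination Z e * h2 + Z e * f2_two
    · rw [if_pos h1, if_pos h1, if_pos ⟨h1, h3⟩, if_neg h3, cc]
      have h4 := hp.tour _ (h.iS _ h1) e he (h.pi _ h1) fun h5 => h3 ⟨h1, .inr h5.symm⟩
      linear_combination Z e * h4 + Z e * (1 - t e (i (p e))) * f2_two
  · rw [if_neg h1, if_neg h1, if_neg fun h4 => h1 h4.1, if_neg fun h4 => h1 h4.1, mul_zero]

/-- Fix `v ∈ W`; by `conn` every `x ∈ W` has a symmetric chain `P x` on the circuit with odd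
degree exactly at `x` and `v`; add `∑ x ∈ W, deg Y x * P x`; `∑ x ∈ W, deg Y x = 0` by `sum_deg`
and `sum_sym`. -/
theorem Circ.fill (h : Circ S p W o i) (hp : Pre S p t) (h1 : ∀ d ∈ S, Y d.swap = Y d)
    (h2 : ∀ v, v ∉ W → deg S p Y v = 0) :
    ∃ Z, Cy S p Z ∧ ∀ d, ¬ OnC p W o i d → Z d = Y d := by
  rcases W.eq_empty_or_nonempty with rfl | ⟨v, hv⟩
  · exact ⟨Y, ⟨h1, fun u => h2 u (notMem_empty u)⟩, fun _ _ => rfl⟩
  have key : ∀ x ∈ W, ∃ P : Dt N → F2, (∀ d ∈ S, P d.swap = P d) ∧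
      (∀ d, ¬ OnC p W o i d → P d = 0) ∧
      ∀ u, deg S p P u = (if u = x then 1 else 0) + if u = v then 1 else 0 := by
    refine fun x hx => h.conn (fun x => ∃ P : Dt N → F2, (∀ d ∈ S, P d.swap = P d) ∧
      (∀ d, ¬ OnC p W o i d → P d = 0) ∧
      ∀ u, deg S p P u = (if u = x then 1 else 0) + if u = v then 1 else 0) (fun x hx => ?_) v hv
      x hx ⟨fun _ => 0, fun _ _ => rfl, fun _ _ => rfl, fun u => by simp [deg, f2_self]⟩
    have hc : OnC p W o i (o x) := by simp [OnC, h.po x hx, hx]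
    have hE : ∀ d, ¬ OnC p W o i d → (if d = o x ∨ d = (o x).swap then (1 : F2) else 0) = 0 :=
      fun d hd => if_neg (by
        rintro (rfl | rfl)
        exacts [hd hc, hd (h.onC_swap hc)])
    constructor <;> rintro ⟨P, a1, a2, a3⟩ <;>
      refine ⟨fun d => P d + if d = o x ∨ d = (o x).swap then 1 else 0,
        fun d hd => by simp only [a1 d hd, edge_sym], fun d hd => by
          simp only [a2 d hd, hE d hd, add_zero], fun u => ?_⟩ <;>
      rw [deg_add, a3, edge_deg hp (h.oS x hx), h.po x hx]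
    · linear_combination (if u = x then 1 else 0) * f2_two
    · linear_combination (if u = p (o x).swap then 1 else 0) * f2_two
  choose! P a1 a2 a3 using key
  have e1 : ∑ x ∈ W, deg S p Y x = 0 := by
    have e2 := sum_deg (S := S) (p := p) (Z := Y) fun _ => 1
    simp only [mul_one] at e2
    rw [sum_sym hp.sym hp.ne fun d hd => by rw [h1 d hd, f2_self]] at e2
    rw [sum_subset (subset_union_left (s₂ := S.image p)) fun u _ hu => h2 u hu, e2]
    refine (sum_subset subset_union_right fun u _ hu => sum_eq_zero fun d hd => if_neg ?_).symm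
    rintro rfl
    exact hu (mem_image_of_mem _ hd)
  refine ⟨fun d => Y d + ∑ x ∈ W, deg S p Y x * P x d, ⟨fun d hd => ?_, fun u => ?_⟩,
    fun d hd => ?_⟩
  · simp only [h1 d hd]
    congr 1
    exact sum_congr rfl fun x hx => by rw [a1 x hx d hd]
  · have e2 : deg S p (fun d => ∑ x ∈ W, deg S p Y x * P x d) u =
        ∑ x ∈ W, deg S p (fun d => deg S p Y x * P x d) u := by
      rw [deg]
      simp only [deg]
      rw [sum_comm]
      exact sum_congr rfl fun d _ => by split_ifs <;> simp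
    rw [deg_add, e2, sum_congr rfl fun x hx => by rw [deg_mul, a3 x hx, mul_add], sum_add_distrib,
      ← sum_mul, e1, zero_mul, add_zero]
    simp only [mul_ite, mul_one, mul_zero, sum_ite_eq]
    split_ifs with hu
    · exact f2_self _
    · rw [h2 u hu, add_zero]
  · show Y d + _ = Y d
    rw [sum_eq_zero fun x hx => by rw [a2 x hx d hd, mul_zero], add_zero]

/-- Let `w Y` be the sum in `Circ.bf`. By `fill` and `zero`, `w Y = 0` if `Y` is symmetric and
has even degrees off `W`. For `y ∉ W` put `lam y = 1` iff some symmetric `Y` has, off `W`, odd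
degree exactly at `y`, and `w Y = 1`; `χ g = lam (p g)` off `W`. Compare along an edge `g` by
adding the indicator of `{g, g.swap}`. -/
theorem Circ.colour (h : Circ S p W o i) (hv : Valid S p t) :
    ∃ χ : Dt N → F2, (∀ g ∈ S, ¬ OnC p W o i g → χ g.swap = χ g) ∧
      (∀ g ∈ S, p g ∈ W → ¬ OnC p W o i g → χ g = cc t (i (p g)) (o (p g)) g) ∧
      ∀ g ∈ S, ∀ g' ∈ S, p g = p g' → p g ∉ W → χ g = χ g' := by
  classical
  have hp := hv.toPre
  obtain ⟨s, hs⟩ : ∃ s : Dt N → F2, ∀ g, s g =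
      if p g ∈ W ∧ ¬ OnC p W o i g then cc t (i (p g)) (o (p g)) g else 0 := ⟨_, fun _ => rfl⟩
  obtain ⟨A, hA⟩ : ∃ A : V → F2 → Prop, ∀ y c, A y c ↔ ∃ Y : Dt N → F2,
      (∀ d ∈ S, Y d.swap = Y d) ∧ (∀ u, u ∉ W → deg S p Y u = if u = y then 1 else 0) ∧
        ∑ g ∈ S, Y g * s g = c := ⟨_, fun _ _ => Iff.rfl⟩
  have uniq : ∀ y c c', A y c → A y c' → c = c' := by
    intro y c c' h1 h2
    obtain ⟨Y, a1, a2, rfl⟩ := (hA _ _).1 h1
    obtain ⟨Y', b1, b2, rfl⟩ := (hA _ _).1 h2
    obtain ⟨Z, hZ, e⟩ := h.fill (Y := fun d => Y d + Y' d) hp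
      (fun d hd => by simp only [a1 d hd, b1 d hd])
      fun u hu => by rw [deg_add, a2 u hu, b2 u hu, f2_self]
    have e1 := (h.bf hp hZ).symm.trans (hv.zero _ _ h.cy hZ)
    have e2 : ∑ g ∈ S, Y g * s g + ∑ g ∈ S, Y' g * s g = 0 := by
      rw [← e1, ← sum_add_distrib]
      refine sum_congr rfl fun g _ => ?_
      rw [hs]
      split_ifs with h3
      · rw [e g h3.2, add_mul]
      · simp
    linear_combination e2 - (∑ g ∈ S, Y' g * s g) * f2_two
  have step : ∀ g ∈ S, ∀ c, A (p g) c → A (p g.swap) (c + (s g + s g.swap)) := by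
    intro g hg c h1
    obtain ⟨Y, a1, a2, rfl⟩ := (hA _ _).1 h1
    refine (hA _ _).2 ⟨fun d => Y d + if d = g ∨ d = g.swap then 1 else 0,
      fun d hd => by simp only [a1 d hd, edge_sym], fun u hu => ?_, ?_⟩
    · rw [deg_add, a2 u hu, edge_deg hp hg, ← add_assoc, f2_self, zero_add]
    · simp only [add_mul, sum_add_distrib]
      rw [edge_sum hp hg (k := fun d => (if d = g ∨ d = g.swap then 1 else 0) * s d)
        fun d h1 h2 => by simp [h1, h2]]
      simp
  have hW : ∀ y ∈ W, A y 0 := fun y hy => (hA _ _).2 ⟨fun _ => 0, fun _ _ => rfl, fun u hu => by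
    rw [if_neg fun e : u = y => hu (e ▸ hy)]
    simp [deg], by simp⟩
  have lam : ∀ y c, A y c → (if A y 1 then (1 : F2) else 0) = c := fun y c h1 => by
    split_ifs with h2
    · exact uniq y _ _ h2 h1
    · rcases f2_cases c with rfl | rfl
      exacts [rfl, absurd h1 h2]
  have hs0 : ∀ g, p g ∉ W → s g = 0 := fun g hg => by rw [hs, if_neg fun h1 => hg h1.1]
  refine ⟨fun g => (if A (p g) 1 then 1 else 0) + s g, fun g hg _ => ?_, fun g _ h1 h2 => ?_,
    fun g _ g' _ h1 h2 => ?_⟩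
  · by_cases h1 : ∃ c, A (p g) c
    · obtain ⟨c, h1⟩ := h1
      simp only [lam _ _ h1, lam _ _ (step g hg c h1)]
      linear_combination s g.swap * f2_two
    · have h2 : ¬ ∃ c, A (p g.swap) c := fun ⟨c, h2⟩ => h1 ⟨_, step _ (hp.sym g hg) c h2⟩
      simp only [if_neg fun h3 => h1 ⟨1, h3⟩, if_neg fun h3 => h2 ⟨1, h3⟩,
        hs0 g fun h3 => h1 ⟨0, hW _ h3⟩, hs0 g.swap fun h3 => h2 ⟨0, hW _ h3⟩]
  · simp only [lam _ _ (hW _ h1), zero_add]
    rw [hs, if_pos ⟨h1, h2⟩]
  · simp only [hs0 g h2, hs0 g' (h1 ▸ h2), h1]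

end Pool.Agent.P.MP_2b4a47_lc.HT
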