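import Pool.Agent.P.MP_2b4a47_lc.HT.Map

/-! Corners and faces of simple maps, in terms of vertices. -/

namespace Pool.Agent.P.MP_2b4a47_lc.HT

open Finset

variable {V N : Type} [DecidableEq V] [DecidableEq N] {S : Finset (Dt N)} {p : Dt N → V}
  {t : Dt N → Dt N → F2} {u v w w' z : V}

theorem Gd.ad_symm (h : Gd S p t) (h1 : Ad S p u v) : Ad S p v u :=
  let ⟨d, hd, e1, e2⟩ := h1
  ⟨d.swap, h.sym d hd, e2, e1⟩

theorem Gd.ad_ne (h : Gd S p t) (h1 : Ad S p u v) : u ≠ v := by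
  obtain ⟨d, hd, rfl, rfl⟩ := h1
  exact h.simple.1 d hd

omit [DecidableEq V] [DecidableEq N] in
theorem Cn.ad (h : Cn S p t u v w) : Ad S p u v :=
  let ⟨a, _, h1, e1, e2, _⟩ := h
  ⟨a, h1.1, e1, e2⟩

omit [DecidableEq V] [DecidableEq N] in
theorem Cn.ad' (h : Cn S p t u v w) : Ad S p u w :=
  let ⟨_, b, h1, e1, _, e3⟩ := h
  ⟨b, h1.2.1, h1.2.2.1.trans e1, e3⟩

theorem Gd.cn_ne (h : Gd S p t) (h1 : Cn S p t u v w) : v ≠ w := by
  obtain ⟨a, b, h1, -, rfl, rfl⟩ := h1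
  exact fun e => h1.2.2.2.1 (h.simple.2 a h1.1 b h1.2.1 h1.2.2.1.symm e)

/-- The darts of a corner are determined. -/
theorem Gd.cn_succ (h : Gd S p t) (h1 : Cn S p t u v w) {a b : Dt N} (ha : a ∈ S) (hb : b ∈ S)
    (e1 : p a = u) (e2 : p a.swap = v) (e3 : p b = u) (e4 : p b.swap = w) : Succ S p t a b := by
  obtain ⟨a', b', h1, f1, f2, f3⟩ := h1
  obtain rfl := h.simple.2 a ha a' h1.1 (e1.trans f1.symm) (e2.trans f2.symm)
  obtain rfl := h.simple.2 b hb b' h1.2.1 (e3.trans (h1.2.2.1.trans f1).symm) (e4.trans f3.symm)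
  exact h1

theorem Gd.cn_uniq (h : Gd S p t) (h1 : Cn S p t u v w) (h2 : Cn S p t u v w') : w = w' := by
  obtain ⟨a, b, h1, e1, e2, rfl⟩ := h1
  obtain ⟨a', b', h2, f1, f2, rfl⟩ := h2
  obtain rfl := h.simple.2 a h1.1 a' h2.1 (e1.trans f1.symm) (e2.trans f2.symm)
  rw [h1.uniq h.tour h2]

theorem Gd.cn_uniq' (h : Gd S p t) (h1 : Cn S p t u w v) (h2 : Cn S p t u w' v) : w = w' := by
  obtain ⟨a, b, h1, e1, rfl, e2⟩ := h1
  obtain ⟨a', b', h2, f1, rfl, f2⟩ := h2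
  obtain rfl := h.simple.2 b h1.2.1 b' h2.2.1
    ((h1.2.2.1.trans e1).trans (h2.2.2.1.trans f1).symm) (e2.trans f2.symm)
  rw [h1.uniq' h.tour h2]

theorem Gd.cn_both (h : Gd S p t) (h1 : Cn S p t u v w) (h2 : Cn S p t u w v) (h3 : Ad S p u z) :
    z = v ∨ z = w := by
  obtain ⟨a, b, h1, e1, e2, e3⟩ := h1
  obtain ⟨g, hg, e4, rfl⟩ := h3
  have h4 := h.cn_succ h2 h1.2.1 h1.1 (h1.2.2.1.trans e1) e3 e1 e2
  rcases h1.both h.tour h4 hg (e4.trans e1.symm) with rfl | rfl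
  exacts [.inl e2, .inr e3]

theorem Gd.exists_cn (h : Gd S p t) (h1 : Ad S p u v) (h2 : Ad S p u z) (hn : z ≠ v) :
    ∃ w, Cn S p t u v w := by
  obtain ⟨a, ha, e1, e2⟩ := h1
  obtain ⟨g, hg, e3, e4⟩ := h2
  obtain ⟨b, hb⟩ := exists_succ h.tour h.cyc ha hg (e3.trans e1.symm) (by
    rintro rfl
    exact hn (e4.symm.trans e2))
  exact ⟨_, a, b, hb, e1, e2, rfl⟩

theorem Gd.cn_two (h : Gd S p t) (h1 : Ad S p u v) (h2 : Ad S p u w) (hn : v ≠ w)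
    (h3 : ∀ z, Ad S p u z → z = v ∨ z = w) : Cn S p t u v w := by
  obtain ⟨z, hz⟩ := h.exists_cn h1 h2 hn.symm
  rcases h3 z hz.ad' with rfl | rfl
  exacts [absurd rfl (h.cn_ne hz), hz]

omit [DecidableEq V] [DecidableEq N] in
theorem Fc.rot (h : Fc S p t u v w) : Fc S p t v w u := ⟨h.2.1, h.2.2, h.1⟩

end Pool.Agent.P.MP_2b4a47_lc.HT
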