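import Pool.Agent.P.MP_2b4a47_lc.HT.SplC
import Pool.Agent.P.MP_2b4a47_lc.HT.Vx

/-! Contracting an edge with two common neighbours. -/

namespace Pool.Agent.P.MP_2b4a47_lc.HT

open Finset

variable {V N : Type} [DecidableEq V] [DecidableEq N] {S : Finset (Dt N)} {p p' : Dt N → V}
  {t t' : Dt N → Dt N → F2} {Z Z' Y : Dt N → F2} {x y n : Dt N} {κ : F2}

theorem mem_er {e d : Dt N} : d ∈ (S.erase e).erase e.swap ↔ d ∈ S ∧ d ≠ e ∧ d ≠ e.swap := by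
  simp only [mem_erase]
  tauto

theorem er_sub {e : Dt N} : (S.erase e).erase e.swap ⊆ S := fun _ h => (mem_er.1 h).1

omit [DecidableEq V] in
/-- Deleting one side of a digon. -/
theorem digon (ht : Tour S p t) {e a b : Dt N} (h1 : Succ S p t x e)
    (h2 : Succ S p t e.swap x.swap) (hl : p e ≠ p e.swap) (hs : Succ S p t a b)
    (hn : p a.swap ≠ p b.swap) :
    ∃ a' b', Succ ((S.erase e).erase e.swap) p t a' b' ∧ p a' = p a ∧ p a'.swap = p a.swap ∧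
      p b'.swap = p b.swap := by
  have p1 := h1.2.2.1
  have p2 := h2.2.2.1
  have p3 := hs.2.2.1
  have n1 : b ≠ e := by
    rintro rfl
    obtain rfl := hs.uniq' ht h1
    exact hn p2
  have n2 : a ≠ e.swap := by
    rintro rfl
    obtain rfl := hs.uniq ht h2
    exact hn p1
  by_cases ha : a = e
  · subst ha
    have n3 : b ≠ x := by
      rintro rfl
      exact hn p2.symm
    refine ⟨x, b, ⟨mem_er.2 ⟨h1.1, h1.2.2.2.1, fun e => hl (p1.trans (congrArg p e))⟩,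
      mem_er.2 ⟨hs.2.1, n1, fun e => hl (p3.symm.trans (congrArg p e))⟩, p3.trans p1, n3.symm,
      fun g hg e1 m1 m2 => ?_⟩, p1.symm, p2, rfl⟩
    obtain ⟨hg, m3, -⟩ := mem_er.1 hg
    have := ht.cocycle h1.1 h1.2.1 hs.2.1 hg (p3.trans p1) (e1.trans p1.symm) n3.symm m3.symm
    rwa [h1.2.2.2.2 b hs.2.1 (p3.trans p1) n3 n1, h1.2.2.2.2 g hg e1 m1 m3,
      hs.2.2.2.2 g hg (e1.trans p1.symm) m3 m2, zero_add, zero_add] at this
  by_cases hb : b = e.swap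
  · subst hb
    have n3 : a ≠ x.swap := by
      rintro rfl
      exact hn p1.symm
    refine ⟨a, x.swap, ⟨mem_er.2 ⟨hs.1, ha, n2⟩, mem_er.2 ⟨h2.2.1,
      fun e => hl ((congrArg p e).symm.trans p2), h2.2.2.2.1.symm⟩, p2.trans p3, n3,
      fun g hg e1 m1 m2 => ?_⟩, rfl, rfl, p1.symm⟩
    obtain ⟨hg, -, m3⟩ := mem_er.1 hg
    have := ht.cocycle hs.1 hs.2.1 h2.2.1 hg (p2.trans p3) (e1.trans p3.symm) n3 m3.symm
    rwa [hs.2.2.2.2 _ h2.2.1 (p2.trans p3) n3.symm h2.2.2.2.1.symm, hs.2.2.2.2 g hg e1 m1 m3,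
      h2.2.2.2.2 g hg (e1.trans p3.symm) m3 m2, zero_add, zero_add] at this
  exact ⟨a, b, hs.sub er_sub (mem_er.2 ⟨hs.1, ha, n2⟩) (mem_er.2 ⟨hs.2.1, n1, hb⟩), rfl, rfl, rfl⟩

omit [DecidableEq V] in
theorem digon_cn (ht : Tour S p t) {e : Dt N} (h1 : Succ S p t x e)
    (h2 : Succ S p t e.swap x.swap) (hl : p e ≠ p e.swap) {u v w : V} (hs : Cn S p t u v w)
    (hn : v ≠ w) : Cn ((S.erase e).erase e.swap) p t u v w := by
  obtain ⟨a, b, hs, rfl, rfl, rfl⟩ := hs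
  exact digon ht h1 h2 hl hs hn

omit [DecidableEq V] in
theorem digon_ad {e : Dt N} (h1 : Succ S p t x e) (h2 : Succ S p t e.swap x.swap)
    (hl : p e ≠ p e.swap) {u v : V} (hs : Ad S p u v) : Ad ((S.erase e).erase e.swap) p u v := by
  obtain ⟨d, hd, rfl, rfl⟩ := hs
  have p1 := h1.2.2.1
  have p2 := h2.2.2.1
  by_cases ha : d = e
  · subst ha
    exact ⟨x, mem_er.2 ⟨h1.1, h1.2.2.2.1, fun e => hl (p1.trans (congrArg p e))⟩, p1.symm, p2⟩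
  by_cases hb : d = e.swap
  · subst hb
    exact ⟨x.swap, mem_er.2 ⟨h2.2.1, fun e => hl ((congrArg p e).symm.trans p2),
      h2.2.2.2.1.symm⟩, p2, p1.symm⟩
  exact ⟨d, mem_er.2 ⟨hd, ha, hb⟩, rfl, rfl⟩

theorem er_sym {e : Dt N} (h : ∀ d ∈ S, d.swap ∈ S) :
    ∀ d ∈ (S.erase e).erase e.swap, d.swap ∈ (S.erase e).erase e.swap := fun d hd => by
  obtain ⟨h1, h2, h3⟩ := mem_er.1 hd
  exact mem_er.2 ⟨h d h1, fun k => h3 (congrArg Prod.swap k), fun k => h2 (congrArg Prod.swap k)⟩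

/-- Let `g` be the dart `A q`, `S = ad S1 g`, `p1 = ren q A ∘ p`; `exists_merge`, `valid_down`,
`cyc_down`. With the darts `x : A a`, `e1 : q a`, `e2 : q b`, `y : A b`, `succ_mix` gives the
digons `(x, e1)` and `(y.swap, e2.swap)`; delete `e1`, `e2` (`digon` twice, `Valid.sub`,
`Cyc.sub`, `Succ.sub`). -/
theorem Gd.contract (h : Gd S p t) {A q a b : V} (h1 : Fc S p t A a q) (h2 : Fc S p t A q b)
    (hab : a ≠ b) (hz : ∀ z, Ad S p A z → Ad S p q z → z = a ∨ z = b) :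
    ∃ (S' : Finset (Dt N)) (p' : Dt N → V) (t' : Dt N → Dt N → F2), Gd S' p' t' ∧
      (∀ u v, Ad S' p' u v → u ≠ q ∧ ∃ z, Ad S p u z) ∧
      (∀ u v, Ad S p u v → Pl.ren q A u = Pl.ren q A v ∨
        Ad S' p' (Pl.ren q A u) (Pl.ren q A v)) ∧
      ∀ u v w, Cn S p t u v w → ¬ ((u = q ∨ v = q ∨ w = q) ∧ (u = A ∨ v = A ∨ w = A)) →
        Cn S' p' t' (Pl.ren q A u) (Pl.ren q A v) (Pl.ren q A w) := by
  obtain ⟨g, hg, g1, g2⟩ := h2.1.ad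
  obtain ⟨x, hx, x1, x2⟩ := h1.1.ad
  obtain ⟨y, hy, y1, y2⟩ := h2.1.ad'
  obtain ⟨e1, he1, a1, a2⟩ := h1.2.2.ad'
  obtain ⟨e2, he2, b1, b2⟩ := h2.2.1.ad
  have nAq := h.ad_ne h2.1.ad
  have nAa := h.ad_ne h1.1.ad
  have nAb := h.ad_ne h2.1.ad'
  have nqa := h.ad_ne h1.2.2.ad'
  have nqb := h.ad_ne h2.2.1.ad
  have s1 := h.cn_succ h1.1 hx hg x1 x2 g1 g2
  have s2 := h.cn_succ h1.2.1 (h.sym _ he1) (h.sym _ hx) a2 a1 x2 x1
  have s3 := h.cn_succ h1.2.2 (h.sym _ hg) he1 g2 g1 a1 a2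
  have s4 := h.cn_succ h2.1 hg hy g1 g2 y1 y2
  have s5 := h.cn_succ h2.2.1 he2 (h.sym _ hg) b1 b2 g2 g1
  have s6 := h.cn_succ h2.2.2 (h.sym _ hy) (h.sym _ he2) y2 y1 b2 b1
  obtain ⟨S1, hS1⟩ : ∃ S1, S1 = (S.erase g).erase g.swap := ⟨_, rfl⟩
  have m1 : ∀ d, d ∈ S1 ↔ d ∈ S ∧ d ≠ g ∧ d ≠ g.swap := fun d => hS1 ▸ mem_er
  have m2 : ∀ d ∈ S, ¬ (p d = A ∧ p d.swap = q) → ¬ (p d = q ∧ p d.swap = A) → d ∈ S1 :=
    fun d hd k1 k2 => (m1 d).2 ⟨hd, fun e => k1 (e ▸ ⟨g1, g2⟩), fun e => k2 (e ▸ ⟨g2, g1⟩)⟩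
  have hS : S = ad S1 g := by
    ext d
    rw [mem_ad, m1]
    refine ⟨fun hd => by tauto, ?_⟩
    rintro (rfl | rfl | hd)
    exacts [hg, h.sym _ hg, hd.1]
  obtain ⟨p1, hp1⟩ : ∃ p1 : Dt N → V, ∀ d, p1 d = Pl.ren q A (p d) := ⟨_, fun _ => rfl⟩
  obtain ⟨t1, sp⟩ := exists_merge (S := S1) (p := p1) (p' := p) (n := g) t
    (fun k => ((m1 _).1 k).2.1 rfl) (fun k => ((m1 _).1 k).2.2 rfl) (by rwa [g1, g2])
    fun d _ e _ => by
      rw [hp1, hp1, g1, g2]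
      unfold Pl.ren
      grind
  have hT : Tour (ad S1 g) p t := hS ▸ h.tour
  have v1 : Valid S1 p1 t1 := sp.valid_down (hS ▸ h.toValid)
  have c1 : Cyc S1 p1 t1 := sp.cyc_down hT (hS ▸ h.cyc)
  have same : ∀ {c d}, Succ S p t c d → c ∈ S1 → d ∈ S1 → Succ S1 p1 t1 c d :=
    fun k => sp.succ_same hT (hS ▸ k)
  have r1 : Succ S1 p1 t1 x e1 := sp.succ_mix hT (hS ▸ s1) (hS ▸ s3)
  have r2 : Succ S1 p1 t1 e1.swap x.swap :=
    same s2 (m2 _ s2.1 (by grind) (by grind)) (m2 _ s2.2.1 (by grind) (by grind))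
  have r3 : Succ S1 p1 t1 e2 y := sp.symm.succ_mix (ad_swap (S := S1) (n := g) ▸ hT)
    (ad_swap (S := S1) (n := g) ▸ hS ▸ s5) (ad_swap (S := S1) (n := g) ▸ hS ▸ s4)
  have r4 : Succ S1 p1 t1 y.swap e2.swap :=
    same s6 (m2 _ s6.1 (by grind) (by grind)) (m2 _ s6.2.1 (by grind) (by grind))
  have l1 : p1 e1 ≠ p1 e1.swap := by
    rw [hp1, hp1, a1, a2]
    unfold Pl.ren
    grind
  have l2 : p1 e2.swap ≠ p1 e2.swap.swap := by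
    rw [hp1, hp1, Prod.swap_swap, b1, b2]
    unfold Pl.ren
    grind
  obtain ⟨S2, hS2⟩ : ∃ S2, S2 = (S1.erase e1).erase e1.swap := ⟨_, rfl⟩
  have u2 : S2 ⊆ S1 := hS2 ▸ er_sub
  have m3 : ∀ d ∈ S1, ¬ (p d = q ∧ p d.swap = a) → ¬ (p d = a ∧ p d.swap = q) → d ∈ S2 :=
    fun d hd k1 k2 => hS2 ▸ mem_er.2 ⟨hd, fun e => k1 (e ▸ ⟨a1, a2⟩), fun e => k2 (e ▸ ⟨a2, a1⟩)⟩
  have v2 : Valid S2 p1 t1 := v1.sub u2 (hS2 ▸ er_sym v1.sym)
  have r5 : Succ S2 p1 t1 e2.swap.swap y.swap.swap :=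
    r3.sub u2 (m3 _ r3.1 (by grind) (by grind)) (m3 _ r3.2.1 (by grind) (by grind))
  have r6 : Succ S2 p1 t1 y.swap e2.swap :=
    r4.sub u2 (m3 _ r4.1 (by grind) (by grind)) (m3 _ r4.2.1 (by grind) (by grind))
  have m4 : ∀ d ∈ (S2.erase e2.swap).erase e2.swap.swap, d ∈ S ∧ ¬ (p d = A ∧ p d.swap = q) ∧
      ¬ (p d = q ∧ (p d.swap = A ∨ p d.swap = a ∨ p d.swap = b)) := by
    intro d hd
    obtain ⟨k1, -, k3⟩ := mem_er.1 hd
    obtain ⟨k4, k5, -⟩ := mem_er.1 (hS2 ▸ k1)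
    obtain ⟨k7, k8, k9⟩ := (m1 d).1 k4
    refine ⟨k7, fun k => k8 (h.simple.2 d k7 g hg (k.1.trans g1.symm) (k.2.trans g2.symm)), ?_⟩
    rintro ⟨k, k' | k' | k'⟩
    · exact k9 (h.simple.2 d k7 _ (h.sym _ hg) (k.trans g2.symm) (k'.trans g1.symm))
    · exact k5 (h.simple.2 d k7 _ he1 (k.trans a1.symm) (k'.trans a2.symm))
    · exact k3 (h.simple.2 d k7 _ he2 (k.trans b1.symm) (k'.trans b2.symm))
  have v3 := v2.sub er_sub (er_sym (e := e2.swap) v2.sym)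
  refine ⟨_, p1, t1, ⟨v3, (c1.sub u2).sub er_sub, fun d hd => ?_, fun d hd e he k1 k2 => ?_⟩,
    ?_, ?_, ?_⟩
  · have := m4 d hd
    have := h.simple.1 d this.1
    rw [hp1, hp1]
    unfold Pl.ren
    grind
  · obtain ⟨d0, d1, d2⟩ := m4 d hd
    obtain ⟨f0, f1, f2⟩ := m4 e he
    obtain ⟨-, d3, d4⟩ := m4 _ (v3.sym d hd)
    obtain ⟨-, f3, f4⟩ := m4 _ (v3.sym e he)
    rw [Prod.swap_swap] at d3 d4 f3 f4
    have z1 := h.simple.1 d d0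
    have z2 := h.simple.1 e f0
    have z3 := h.simple.2 d d0 e f0
    have z4 : ∀ c ∈ S, ∀ c' ∈ S, p c = A → p c' = q → p c.swap = p c'.swap →
        p c'.swap = a ∨ p c'.swap = b := fun c hc c' hc' j1 j2 j3 =>
      hz _ ⟨c, hc, j1, j3⟩ ⟨c', hc', j2, rfl⟩
    have z5 := z4 d d0 e f0
    have z6 := z4 e f0 d d0
    have z7 := z4 _ (h.sym d d0) _ (h.sym e f0)
    have z8 := z4 _ (h.sym e f0) _ (h.sym d d0)
    rw [Prod.swap_swap, Prod.swap_swap] at z7 z8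
    rw [hp1, hp1] at k1 k2
    unfold Pl.ren at k1 k2
    generalize p d = P1, p d.swap = P2, p e = P3, p e.swap = P4 at *
    clear * - k1 k2 d1 d2 d3 d4 f1 f2 f3 f4 z1 z2 z3 z5 z6 z7 z8 nAq
    grind
  · rintro u v ⟨d, hd, rfl, -⟩
    rw [hp1]
    unfold Pl.ren
    split_ifs with k
    · exact ⟨nAq, _, h2.1.ad⟩
    · exact ⟨k, _, d, (m4 d hd).1, rfl, rfl⟩
  · rintro u v ⟨d, hd, rfl, rfl⟩
    by_cases k : d ∈ S1
    · exact .inr (digon_ad r6 r5 l2 (hS2 ▸ digon_ad r1 r2 l1 ⟨d, k, hp1 _, hp1 _⟩))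
    · have := mt (fun k' : _ ∧ _ => m2 d hd k'.1 k'.2) k
      unfold Pl.ren
      grind
  · intro u v w hc hn
    have nvw := h.cn_ne hc
    obtain ⟨c, d, hs, rfl, rfl, rfl⟩ := hc
    have k0 := hs.2.2.1
    have k1 : Pl.ren q A (p c.swap) ≠ Pl.ren q A (p d.swap) := by
      unfold Pl.ren
      grind
    exact digon_cn v2.tour r6 r5 l2 (hS2 ▸ digon_cn v1.tour r1 r2 l1 ⟨c, d, same hs
      (m2 _ hs.1 (by grind) (by grind)) (m2 _ hs.2.1 (by grind) (by grind)), hp1 _, hp1 _,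
      hp1 _⟩ k1) k1

end Pool.Agent.P.MP_2b4a47_lc.HT
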