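import Pool.Agent.P.MP_2b4a47_lc.HT.Sys

/-! A straight-line embedding solves the linear system. -/

namespace Pool.Agent.P.MP_2b4a47_lc.HT

open Pl

variable {V : Type} [DecidableEq V]

/-- the indicator -/
def ezb (b : Bool) : F2 := cond b 1 0

/-- the combinatorial data of an embedding whose vertices have distinct first coordinates -/
structure EzOT (L : List (List V)) (lt : V → V → Bool) (ps : V → V → V → Bool) : Prop where
  irr : ∀ a, lt a a = false
  asym : ∀ a ∈ L.flatten, ∀ b ∈ L.flatten, a ≠ b → lt b a = !lt a b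
  tr : ∀ a b c, (lt a b && lt b c && !lt a c) = false
  rot : ∀ a b c, ps b c a = ps a b c
  sw : ∀ a ∈ L.flatten, ∀ b ∈ L.flatten, ∀ c ∈ L.flatten, a ≠ b → a ≠ c → b ≠ c →
    ps a c b = !ps a b c
  dep : ∀ a ∈ L.flatten, ∀ b ∈ L.flatten, ∀ c ∈ L.flatten, ∀ d ∈ L.flatten, a ≠ b → a ≠ c →
    a ≠ d → b ≠ c → b ≠ d → c ≠ d → ((ps a c d == lt a b) == (ps a d b == lt a c) &&
      (ps a d b == lt a c) == (ps a b c == lt a d)) = false
  nc : ∀ u v w z, Adj L u v → Adj L w z → u ≠ w → u ≠ z → v ≠ w → v ≠ z →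
    (ps u v w == ps u v z || ps w z u == ps w z v) = true
  ni : ∀ a b c, Tri L a b c → ∀ p ∈ L.flatten, (ps a b p && ps b c p && ps c a p) = false

section
variable (lt : V → V → Bool) (ps : V → V → V → Bool)

def ezAl (u v w : V) : F2 := ezb (lt u w && lt w v && ps u v w)

def ezBe (w z u : V) : F2 := ezb (lt w u && lt u z && ps z w u) + if u = z then ezb (lt w z) else 0

def ezTau (v a b : V) : F2 :=
  if a = b then ezb (lt v a) else ezb (cond (lt v a == lt v b) (ps v a b) (lt v a))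

def ezO (a b c : V) : F2 := ezb (ps a c b)

end

variable {L : List (List V)} {lt : V → V → Bool} {ps : V → V → V → Bool}

omit [DecidableEq V] in
theorem EzOT.three (h : EzOT L lt ps) {a b c : V} (ha : a ∈ L.flatten) (hb : b ∈ L.flatten)
    (hc : c ∈ L.flatten) (h1 : a ≠ b) (h2 : a ≠ c) (h3 : b ≠ c) :
    (ps b c a = ps a b c ∧ ps c a b = ps a b c ∧ ps a c b = !ps a b c ∧ ps b a c = !ps a b c ∧
      ps c b a = !ps a b c) ∧ (lt a b && lt b c && !lt a c) = false ∧
      (!lt b c && !lt a b && lt a c) = false := by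
  have e := h.sw a ha b hb c hc h1 h2 h3
  have t := h.tr c b a
  rw [h.asym b hb c hc h3, h.asym a ha b hb h1, h.asym a ha c hc h2, Bool.not_not] at t
  exact ⟨⟨h.rot _ _ _, (h.rot _ _ _).symm, e, (h.rot _ _ _).symm.trans e,
    (h.rot _ _ _).trans e⟩, h.tr a b c, t⟩

theorem EzOT.c2 (h : EzOT L lt ps) {u v : V} (h1 : Adj L u v) :
    Nx (ezAl lt ps) (ezBe lt ps) (ezTau lt ps) u v u v +
      Nx (ezAl lt ps) (ezBe lt ps) (ezTau lt ps) v u u v +
      Nx (ezAl lt ps) (ezBe lt ps) (ezTau lt ps) u v v u +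
      Nx (ezAl lt ps) (ezBe lt ps) (ezTau lt ps) v u v u = 0 := by
  simp only [Nx, ezAl, ezBe, ezTau, h.irr, h.asym u h1.mem v h1.symm.mem h1.1, if_true,
    if_neg h1.1, if_neg h1.1.symm, Bool.false_and, Bool.and_false]
  generalize lt u v = p
  revert p
  decide

theorem EzOT.c3 (h : EzOT L lt ps) {u v z : V} (h1 : Adj L u v) (h2 : Adj L u z) (h3 : v ≠ z) :
    Nx (ezAl lt ps) (ezBe lt ps) (ezTau lt ps) u v u z +
      Nx (ezAl lt ps) (ezBe lt ps) (ezTau lt ps) v u u z +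
      Nx (ezAl lt ps) (ezBe lt ps) (ezTau lt ps) u v z u +
      Nx (ezAl lt ps) (ezBe lt ps) (ezTau lt ps) v u z u = 0 := by
  obtain ⟨⟨e1, e2, e3, e4, e5⟩, t1, t2⟩ := h.three h1.mem h1.symm.mem h2.symm.mem h1.1 h2.1 h3
  simp only [Nx, ezAl, ezBe, ezTau, h.irr, h.asym u h1.mem v h1.symm.mem h1.1,
    h.asym u h1.mem z h2.symm.mem h2.1, h.asym v h1.symm.mem z h2.symm.mem h3, if_true,
    if_neg h1.1.symm, if_neg h2.1, if_neg h3, e2, e3, e4, Bool.false_and, Bool.and_false]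
  revert t1 t2
  generalize lt u v = p, lt u z = q, lt v z = r, ps u v z = s
  revert p q r s
  decide

theorem ez_or {a b : Bool} (h : a = false) (h' : b = false) : (a || b) = false := by
  rw [h, h']
  rfl

/-- all facts about four distinct vertices, in terms of ten bits -/
theorem EzOT.four (h : EzOT L lt ps) {a b c d : V} (ha : a ∈ L.flatten) (hb : b ∈ L.flatten)
    (hc : c ∈ L.flatten) (hd : d ∈ L.flatten) (h1 : a ≠ b) (h2 : a ≠ c) (h3 : a ≠ d) (h4 : b ≠ c)
    (h5 : b ≠ d) (h6 : c ≠ d) :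
    (Adj L a b → Adj L c d → Nx (ezAl lt ps) (ezBe lt ps) (ezTau lt ps) a b c d +
      Nx (ezAl lt ps) (ezBe lt ps) (ezTau lt ps) b a c d +
      Nx (ezAl lt ps) (ezBe lt ps) (ezTau lt ps) a b d c +
      Nx (ezAl lt ps) (ezBe lt ps) (ezTau lt ps) b a d c = 0) ∧
    (Tri L a b c → Ins (ezAl lt ps) a b c d = 0) ∧
    (Tri L a b c → Adj L a d →
      ezTau lt ps a b c + ezTau lt ps a c d + ezTau lt ps a d b = ezO ps a b c) := by
  obtain ⟨⟨e1, e2, e3, e4, e5⟩, t1, t2⟩ := h.three ha hb hc h1 h2 h4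
  obtain ⟨⟨f1, f2, f3, f4, f5⟩, t3, t4⟩ := h.three ha hb hd h1 h3 h5
  obtain ⟨⟨g1, g2, g3, g4, g5⟩, t5, t6⟩ := h.three ha hc hd h2 h3 h6
  obtain ⟨⟨k1, k2, k3, k4, k5⟩, t7, t8⟩ := h.three hb hc hd h4 h5 h6
  have l1 := h.asym a ha b hb h1
  have l2 := h.asym a ha c hc h2
  have l3 := h.asym a ha d hd h3
  have l4 := h.asym b hb c hc h4
  have l5 := h.asym b hb d hd h5
  have l6 := h.asym c hc d hd h6
  have d1 := h.dep a ha b hb c hc d hd h1 h2 h3 h4 h5 h6
  have d2 := h.dep b hb a ha c hc d hd h1.symm h4 h5 h2 h3 h6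
  have d3 := h.dep c hc a ha b hb d hd h2.symm h4.symm h6 h1 h3 h5
  have d4 := h.dep d hd a ha b hb c hc h3.symm h5.symm h6.symm h1 h2 h4
  simp only [e2, e4, f1, f2, f3, g1, g5, k2, k4, l1, l2, l3, l4, l5, l6] at d1 d2 d3 d4
  have H := ez_or t1 (ez_or t2 (ez_or t3 (ez_or t4 (ez_or t5 (ez_or t6 (ez_or t7 (ez_or t8
    (ez_or d1 (ez_or d2 (ez_or d3 d4))))))))))
  refine ⟨fun a1 a2 => ?_, fun a1 => ?_, fun a1 a2 => ?_⟩
  · have n1 := h.nc a b c d a1 a2 h2 h3 h4 h5
    simp only [Nx, ezAl, ezBe, if_neg h2, if_neg h3, if_neg h4, if_neg h5, e4, f4, g1, g5, k1,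
      k5, l2, l3, l4, l5] at n1 ⊢
    revert H n1
    generalize lt a b = p1, lt a c = p2, lt a d = p3, lt b c = p4, lt b d = p5, lt c d = p6,
      ps a b c = s1, ps a b d = s2, ps a c d = s3, ps b c d = s4
    revert p1 p2 p3 p4 p5 p6 s1 s2 s3 s4
    decide
  · have n1 := h.ni a b c a1 d hd
    have n2 := h.ni a c b a1.swap d hd
    simp only [Ins, ezAl, f4, g4, k4, l3, l5, l6] at n1 n2 ⊢
    revert H n1 n2
    generalize lt a b = p1, lt a c = p2, lt a d = p3, lt b c = p4, lt b d = p5, lt c d = p6,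
      ps a b c = s1, ps a b d = s2, ps a c d = s3, ps b c d = s4
    revert p1 p2 p3 p4 p5 p6 s1 s2 s3 s4
    decide
  · have n1 := h.ni a b c a1 d hd
    have n2 := h.ni a c b a1.swap d hd
    have n3 := h.nc a d b c a2 a1.rot.adj h1 h2 h5.symm h6.symm
    simp only [ezTau, ezO, if_neg h4, if_neg h6, if_neg h5.symm, e1, e3, f3, f4, g3, g4, k4]
      at n1 n2 n3 ⊢
    revert H n1 n2 n3
    generalize lt a b = p1, lt a c = p2, lt a d = p3, lt b c = p4, lt b d = p5, lt c d = p6,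
      ps a b c = s1, ps a b d = s2, ps a c d = s3, ps b c d = s4
    revert p1 p2 p3 p4 p5 p6 s1 s2 s3 s4
    decide

theorem EzOT.sys (h : EzOT L lt ps) :
    Sys L (ezAl lt ps) (ezBe lt ps) (ezTau lt ps) (ezO ps) where
  cross u v w z h1 h2 := by
    by_cases e1 : u = w
    · subst e1
      by_cases e2 : v = z
      · subst e2
        exact h.c2 h1
      · exact h.c3 h1 h2 e2
    by_cases e2 : u = z
    · subst e2
      by_cases e3 : v = w
      · subst e3
        linear_combination h.c2 h1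
      · linear_combination h.c3 h1 h2.symm e3
    by_cases e3 : v = w
    · subst e3
      linear_combination h.c3 h1.symm h2 e2
    by_cases e4 : v = z
    · subst e4
      linear_combination h.c3 h1.symm h2.symm e1
    exact (h.four h1.mem h1.symm.mem h2.mem h2.symm.mem h1.1 e1 e2 e3 e4 h2.1).1 h1 h2
  tour v a b h1 h2 h3 := by
    simp only [ezTau, if_neg h3, if_neg h3.symm,
      h.sw v h1.mem a h1.symm.mem b h2.symm.mem h1.1 h2.1 h3]
    generalize lt v a = p, lt v b = q, ps v a b = s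
    revert p q s
    decide
  diag v a h1 := by
    simp only [ezTau, if_true, h.asym v h1.mem a h1.symm.mem h1.1]
    generalize lt v a = p
    revert p
    decide
  succ a b c d h1 h2 h3 h4 := (h.four h1.adj.mem h1.rot.adj.mem h1.rot.rot.adj.mem h2.symm.mem
    h1.1 h1.2.1 h2.1 h1.2.2.1 h3.symm h4.symm).2.2 h1 h2
  rot a b c _ := by rw [ezO, ezO, h.rot b a c]
  swap a b c h1 := by
    rw [ezO, ezO, h.sw a h1.adj.mem b h1.rot.adj.mem c h1.rot.rot.adj.mem h1.1 h1.2.1 h1.2.2.1]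
    generalize ps a b c = s
    revert s
    decide
  out a b c p h1 hp h2 h3 h4 := (h.four h1.adj.mem h1.rot.adj.mem h1.rot.rot.adj.mem hp
    h1.1 h1.2.1 h2.symm h1.2.2.1 h3.symm h4.symm).2.1 h1
  corner a b c h1 := by
    have ha := h1.adj.mem
    have hb := h1.rot.adj.mem
    have hc := h1.rot.rot.adj.mem
    obtain ⟨⟨e1, e2, e3, e4, e5⟩, t1, t2⟩ := h.three ha hb hc h1.1 h1.2.1 h1.2.2.1
    simp only [Ins, ezAl, ezTau, ezO, if_neg h1.2.2.1, h.irr, e1, e3, e5, h.asym a ha b hb h1.1,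
      h.asym a ha c hc h1.2.1, Bool.false_and, Bool.and_false]
    generalize lt a b = p, lt a c = q, ps a b c = s
    revert p q s
    decide

theorem ez_sign {x y : ℝ} (hx : x ≠ 0) (hy : y ≠ 0) :
    ((decide (0 < x) == decide (0 < y)) = true → 0 < x * y) ∧
      ((decide (0 < x) == decide (0 < y)) = false → x * y < 0) := by
  rcases lt_or_gt_of_ne hx with a | a <;> rcases lt_or_gt_of_ne hy with b | b <;>
    simp [a, b, a.not_gt, b.not_gt, mul_pos_of_neg_of_neg, mul_neg_of_neg_of_pos,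
      mul_neg_of_pos_of_neg]

theorem ez_dep {p q r : Bool} {x y z : ℝ} (s1 : (p = true → 0 < x) ∧ (p = false → x < 0))
    (s2 : (q = true → 0 < y) ∧ (q = false → y < 0)) (s3 : (r = true → 0 < z) ∧ (r = false → z < 0))
    (e : x + y + z = 0) : (p == q && q == r) = false := by
  cases p <;> cases q <;> cases r <;> try rfl
  · linarith [s1.2 rfl, s2.2 rfl, s3.2 rfl]
  · linarith [s1.1 rfl, s2.1 rfl, s3.1 rfl]

theorem ez_ot {f : V → Pt} (h : Emb2 L f) {ε : ℝ}
    (hε : ∀ a ∈ L.flatten, ∀ b ∈ L.flatten, a ≠ b →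
      (f b).1 + ε * (f b).2 - ((f a).1 + ε * (f a).2) ≠ 0) :
    EzOT L (fun a b => decide (0 < (f b).1 + ε * (f b).2 - ((f a).1 + ε * (f a).2)))
      fun a b c => decide (0 < det3 (f a) (f b) (f c)) := by
  have gp : ∀ a ∈ L.flatten, ∀ b ∈ L.flatten, ∀ c ∈ L.flatten, a ≠ b → a ≠ c → b ≠ c →
      det3 (f a) (f b) (f c) ≠ 0 := fun a ha b hb c hc => h.1.2 a (List.mem_toFinset.2 ha) b
        (List.mem_toFinset.2 hb) c (List.mem_toFinset.2 hc)
  have neg : ∀ x y : ℝ, x ≠ 0 → y = -x → decide (0 < y) = !decide (0 < x) := by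
    rintro x _ hx rfl
    rcases lt_or_gt_of_ne hx with a | a <;> simp [a, a.not_gt]
  refine ⟨fun a => by simp, fun a ha b hb hab => neg _ _ (hε a ha b hb hab) (by ring),
    fun a b c => ?_, fun a b c => by rw [det3_rot],
    fun a ha b hb c hc h1 h2 h3 => neg _ _ (gp a ha b hb c hc h1 h2 h3) (det3_swap' _ _ _),
    fun a ha b hb c hc d hd h1 h2 h3 h4 h5 h6 => ?_, fun u v w z h1 h2 n1 n2 n3 n4 => ?_,
    fun a b c h1 p hp => ?_⟩
  · simp only [Bool.and_eq_false_imp, Bool.and_eq_true, decide_eq_true_eq, Bool.not_eq_false']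
    rintro ⟨h1, h2⟩
    linarith
  · have s1 := ez_sign (gp a ha c hc d hd h2 h3 h6) (hε a ha b hb h1)
    have s2 := ez_sign (gp a ha d hd b hb h3 h1 h5.symm) (hε a ha c hc h2)
    have s3 := ez_sign (gp a ha b hb c hc h1 h2 h4) (hε a ha d hd h3)
    have e : det3 (f a) (f c) (f d) * ((f b).1 + ε * (f b).2 - ((f a).1 + ε * (f a).2)) +
        det3 (f a) (f d) (f b) * ((f c).1 + ε * (f c).2 - ((f a).1 + ε * (f a).2)) +
        det3 (f a) (f b) (f c) * ((f d).1 + ε * (f d).2 - ((f a).1 + ε * (f a).2)) = 0 := by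
      unfold det3
      ring
    exact ez_dep s1 s2 s3 e
  · obtain ⟨l, hl, a1, a2⟩ := h1.2
    obtain ⟨l', hl', a3, a4⟩ := h2.2
    by_contra hc
    rw [Bool.not_eq_true, Bool.or_eq_false_iff] at hc
    exact h.2.1 l hl l' hl' u a1 v a2 w a3 z a4
      ⟨(ez_sign (gp u h1.mem v h1.symm.mem w h2.mem h1.1 n1 n3)
        (gp u h1.mem v h1.symm.mem z h2.symm.mem h1.1 n2 n4)).2 hc.1,
       (ez_sign (gp w h2.mem z h2.symm.mem u h1.mem h2.1 n1.symm n2.symm)
        (gp w h2.mem z h2.symm.mem v h1.symm.mem h2.1 n3.symm n4.symm)).2 hc.2⟩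
  · obtain ⟨l, hl, a1, a2, a3⟩ := h1.2.2.2
    by_contra hc
    simp only [Bool.not_eq_false, Bool.and_eq_true, decide_eq_true_eq] at hc
    exact h.2.2 l hl a a1 b a2 c a3 p hp ⟨hc.1.1, hc.1.2, hc.2⟩

/-- Shear `(x, y) ↦ (x + ε y, y)` (keeps `det3`; `MP_881548_lc.ev_ne`) so that the vertices have
distinct `x`. Put `al u v w = [x u < x w < x v, 0 < det3 u v w]`,
`be w z u = [x w < x u < x z, det3 w z u < 0] + [u = z, x w < x z]`, `τ v a a = [x v < x a]`, and
for `a ≠ b`: `τ v a b = [0 < det3 v a b]` if `a`, `b` are on the same side of `v`, else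
`[x v < x a]`; `o a b c = [det3 a b c < 0]`. For four points the affine dependence
`λ = (det3 b c d, -det3 a c d, det3 a b d, -det3 a b c)` has `∑ λ i * (x i - x j) = 0` for each
`j`, so the three terms do not all have the same sign; the rest is a finite case check. -/
theorem sys_of_emb {L : List (List V)} {f : V → Pt} (h : Emb2 L f) :
    ∃ al be τ o, Sys L al be τ o := by
  have : ∀ᶠ ε in nhdsWithin (0 : ℝ) (Set.Ioi 0), ∀ a ∈ L.flatten.toFinset,
      ∀ b ∈ L.flatten.toFinset, a ≠ b → (f b).1 + ε * (f b).2 - ((f a).1 + ε * (f a).2) ≠ 0 := by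
    refine (Filter.eventually_all_finset _).2 fun a ha => (Filter.eventually_all_finset _).2
      fun b hb => Filter.eventually_all.2 fun hab => ?_
    by_cases e : (f b).2 - (f a).2 = 0
    · refine .of_forall fun ε hc => hab (h.1.1 a ha b hb (Prod.ext ?_ ?_))
      · linear_combination ε * e - hc
      · linear_combination -e
    · filter_upwards [MP_881548_lc.ev_ne ((f b).1 - (f a).1) ((f b).2 - (f a).2) 0 (.inr e)]
        with ε hε hc
      exact hε (by linear_combination hc)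
  obtain ⟨ε, hε⟩ := this.exists
  exact ⟨_, _, _, _, (ez_ot h fun a ha b hb =>
    hε a (List.mem_toFinset.2 ha) b (List.mem_toFinset.2 hb)).sys⟩

end Pool.Agent.P.MP_2b4a47_lc.HT
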