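import Pool.Agent.P.MP_2b4a47_lc.HT.Gauss

/-! The linear system is written down in polynomial time. -/

namespace Pool.Agent.P.MP_2b4a47_lc.HT

open Pool.Agent.Lib.NP

/-- The unknowns. -/
abbrev EqU := ℕ × Nm × Nm × Nm

/-- Boolean version of `Adj`. -/
def eqAdj (L : List (List Nm)) (a b : Nm) : Bool :=
  a != b && L.any fun l => l.contains a && l.contains b

/-- Boolean version of `Tri`. -/
def eqTri (L : List (List Nm)) (a b c : Nm) : Bool :=
  a != b && a != c && b != c && L.any fun l => l.contains a && l.contains b && l.contains c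

theorem eqAdj_iff (L : List (List Nm)) (a b : Nm) : eqAdj L a b = true ↔ Adj L a b := by
  simp [eqAdj, Adj]

theorem eqTri_iff (L : List (List Nm)) (a b c : Nm) : eqTri L a b c = true ↔ Tri L a b c := by
  simp [eqTri, Tri, and_assoc]

/-- The unknowns of `Nx`. -/
def eqNx (u v w z : Nm) : List EqU :=
  (0, u, v, w) :: (1, w, z, u) :: if u = w then [(2, u, v, z)] else []

/-- The unknowns of `Ins`. -/
def eqIns (a b c p : Nm) : List EqU :=
  [(0, a, b, p), (0, b, a, p), (0, b, c, p), (0, c, b, p), (0, c, a, p), (0, a, c, p)]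

/-- The guarded equations of four vertices. -/
def eqFour (L : List (List Nm)) (a b c d : Nm) : List (Bool × List EqU × Bool) :=
  [(eqAdj L a b && eqAdj L c d, eqNx a b c d ++ eqNx b a c d ++ eqNx a b d c ++ eqNx b a d c, false),
    (eqAdj L a b && eqAdj L a c && b != c, [(2, a, b, c), (2, a, c, b)], true),
    (eqAdj L a b, [(2, a, b, b), (2, b, a, a)], true),
    (eqTri L a b c && eqAdj L a d && d != b && d != c,
      [(2, a, b, c), (2, a, c, d), (2, a, d, b), (3, a, b, c)], false),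
    (eqTri L a b c, [(3, a, b, c), (3, b, c, a)], false),
    (eqTri L a b c, [(3, a, b, c), (3, a, c, b)], true),
    (eqTri L a b c && d != a && d != b && d != c, eqIns a b c d, false),
    (eqTri L a b c, eqIns a b c a ++ [(2, a, b, c), (3, a, b, c)], true)]

/-- All equations. -/
def eqAll (L : List (List Nm)) : List (List EqU × Bool) :=
  L.flatten.flatMap fun a => L.flatten.flatMap fun b => L.flatten.flatMap fun c =>
    L.flatten.flatMap fun d => ((eqFour L a b c d).filter fun e => e.1).map fun e => e.2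

theorem pt_eqFour : PT fun p : List (List Nm) × Nm × Nm × Nm × Nm =>
    eqFour p.1 p.2.1 p.2.2.1 p.2.2.2.1 p.2.2.2.2 := by
  unfold eqFour eqNx eqIns eqAdj eqTri
  fun_prop

@[fun_prop] theorem pt_eqFour' {α : Type} [Enc α] {L : α → List (List Nm)} {a b c d : α → Nm}
    (hL : PT L) (ha : PT a) (hb : PT b) (hc : PT c) (hd : PT d) :
    PT fun x => eqFour (L x) (a x) (b x) (c x) (d x) :=
  pt_eqFour.comp (hL.mk (ha.mk (hb.mk (hc.mk hd))))

theorem pt_eqAll : PT eqAll := by
  unfold eqAll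
  fun_prop

theorem eq_f2_iff (x y : F2) : x + y = 0 ↔ x = y := by
  revert x y
  decide

variable (x : EqU → F2)

theorem sum_eqNx (u v w z : Nm) : ((eqNx u v w z).map x).sum =
    Nx (fun u v w => x (0, u, v, w)) (fun u v w => x (1, u, v, w)) (fun u v w => x (2, u, v, w))
      u v w z := by
  unfold eqNx Nx
  split_ifs <;> simp [add_assoc]

theorem sum_eqIns (a b c p : Nm) :
    ((eqIns a b c p).map x).sum = Ins (fun u v w => x (0, u, v, w)) a b c p := by
  simp [eqIns, Ins, add_assoc]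

theorem sat_eqAll (L : List (List Nm)) : (∀ e ∈ eqAll L, Sat x e) ↔
    Sys L (fun u v w => x (0, u, v, w)) (fun u v w => x (1, u, v, w))
      (fun u v w => x (2, u, v, w)) fun u v w => x (3, u, v, w) := by
  have e : (∀ e ∈ eqAll L, Sat x e) ↔ ∀ a ∈ L.flatten, ∀ b ∈ L.flatten, ∀ c ∈ L.flatten,
      ∀ d ∈ L.flatten, ∀ e ∈ eqFour L a b c d, e.1 = true → Sat x e.2 := by
    simp only [eqAll, List.forall_mem_flatMap, List.forall_mem_map, List.mem_filter, and_imp]
  rw [e]
  simp only [eqFour, List.forall_mem_cons, List.not_mem_nil, false_imp_iff, implies_true, and_true,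
    Sat, Bool.and_eq_true, eqAdj_iff, eqTri_iff, bne_iff_ne, List.map_append, List.sum_append,
    sum_eqNx, sum_eqIns, List.map_cons, List.map_nil, List.sum_cons, List.sum_nil, add_zero,
    ← add_assoc, if_true, Bool.false_eq_true, if_false, and_imp]
  constructor
  · intro h
    refine ⟨fun a b c d h₁ h₂ => (h a h₁.mem b h₁.symm.mem c h₂.mem d h₂.symm.mem).1 h₁ h₂,
      fun a b c h₁ h₂ => (h a h₁.mem b h₁.symm.mem c h₂.symm.mem a h₁.mem).2.1 h₁ h₂,
      fun a b h₁ => (h a h₁.mem b h₁.symm.mem a h₁.mem a h₁.mem).2.2.1 h₁,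
      fun a b c d h₁ h₂ h₃ h₄ => (eq_f2_iff _ _).1 ((h a h₂.mem b h₁.rot.adj.mem c h₁.rot.rot.adj.mem d
        h₂.symm.mem).2.2.2.1 h₁ h₂ h₃ h₄), fun a b c h₁ => (eq_f2_iff _ _).1 ?_, fun a b c h₁ => ?_,
      fun a b c d h₁ h₂ => (h a h₁.adj.mem b h₁.rot.adj.mem c h₁.rot.rot.adj.mem d
        h₂).2.2.2.2.2.2.1 h₁, fun a b c h₁ => ?_⟩
    all_goals have := h a h₁.adj.mem b h₁.rot.adj.mem c h₁.rot.rot.adj.mem a h₁.adj.mem
    exacts [this.2.2.2.2.1 h₁, this.2.2.2.2.2.1 h₁, this.2.2.2.2.2.2.2 h₁]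
  · intro h a _ b _ c _ d hd
    exact ⟨h.cross a b c d, h.tour a b c, h.diag a b,
      fun h₁ h₂ h₃ h₄ => (eq_f2_iff _ _).2 (h.succ a b c d h₁ h₂ h₃ h₄),
      fun h₁ => (eq_f2_iff _ _).2 (h.rot a b c h₁), h.swap a b c, fun h₁ => h.out a b c d h₁ hd,
      h.corner a b c⟩

/-- Unknowns `(0, u, v, w)`, …, `(3, u, v, w)` for `al`, `be`, `τ`, `o`. One `flatMap` over tuples
from `L.flatten` for each field of `Sys`, guarded by Boolean versions of `Adj`, `Tri`
(move everything to the left side: `x + x = 0`). -/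
theorem exists_eqs : ∃ q : List (List Nm) → List (List (ℕ × Nm × Nm × Nm) × Bool), PT q ∧
    ∀ L, (∃ x : ℕ × Nm × Nm × Nm → F2, ∀ e ∈ q L, Sat x e) ↔ ∃ al be τ o, Sys L al be τ o := by
  refine ⟨eqAll, pt_eqAll, fun L => ⟨fun ⟨x, hx⟩ => ⟨_, _, _, _, (sat_eqAll x L).1 hx⟩, ?_⟩⟩
  rintro ⟨al, be, τ, o, h⟩
  exact ⟨fun p => [al, be, τ].getD p.1 o p.2.1 p.2.2.1 p.2.2.2, (sat_eqAll _ L).2 h⟩

end Pool.Agent.P.MP_2b4a47_lc.HT
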