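import Pool.Agent.P.MP_2b4a47_lc.HT.Grow
import Pool.Agent.P.MP_2b4a47_lc.HT.Chord
import Pool.Agent.P.MP_2b4a47_lc.HT.Ctr
import Pool.Agent.P.MP_2b4a47_lc.PlReal

/-! The faces of a connected map can be drawn. -/

namespace Pool.Agent.P.MP_2b4a47_lc.HT

open Finset

variable {V N : Type} [DecidableEq V] [DecidableEq N] {S : Finset (Dt N)} {p p' : Dt N → V}
  {t t' : Dt N → Dt N → F2} {Z Z' Y : Dt N → F2} {x y n : Dt N} {κ : F2}

private theorem real_base (h : Gd S p t) (hm : Maxi S p t) {A B C : V} (U : Finset V)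
    (hU : ∀ a b, Ad S p a b → a ∈ U) (hc : ∀ v ∈ U, Relation.ReflTransGen (Ad S p) A v)
    (hf : Fc S p t A C B) (hz : ∀ z, Ad S p A z → z = B ∨ z = C) :
    ∃ f : V → Pl.Pt, ∀ a b c, Fc S p t a b c → (a, b, c) ∉ Pl.tri A C B →
      0 < Pl.det3 (f a) (f b) (f c) := by
  have n1 := h.ad_ne hf.1.ad
  have n2 := h.ad_ne hf.1.ad'
  have n3 := h.cn_ne hf.1
  have hf' := h.fc hm (h.cn_two hf.1.ad' hf.1.ad n3.symm hz)
  have key : ∀ v, Relation.ReflTransGen (Ad S p) A v → v = A ∨ v = B ∨ v = C := by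
    intro v hv
    induction hv with
    | refl => exact .inl rfl
    | tail _ h2 ih =>
      rcases ih with rfl | rfl | rfl
      · exact .inr (hz _ h2)
      · have := h.cn_both hf'.2.1 hf.2.2 h2
        tauto
      · have := h.cn_both hf'.2.2 hf.2.1 h2
        tauto
  refine ⟨fun v => if v = A then (0, 0) else if v = B then (1, 0) else (0, 1),
    fun a b c h1 h2 => ?_⟩
  have m1 := h.ad_ne h1.1.ad
  have m2 := h.ad_ne h1.1.ad'
  have m3 := h.cn_ne h1.1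
  rw [Pl.mem_tri] at h2
  rcases key a (hc a (hU _ _ h1.1.ad)) with rfl | rfl | rfl <;>
    rcases key b (hc b (hU _ _ h1.2.1.ad)) with rfl | rfl | rfl <;>
      rcases key c (hc c (hU _ _ h1.2.2.ad)) with rfl | rfl | rfl <;>
        first
          | exact absurd rfl m1
          | exact absurd rfl m2
          | exact absurd rfl m3
          | exact absurd (.inl rfl) h2
          | exact absurd (.inr (.inl rfl)) h2
          | exact absurd (.inr (.inr rfl)) h2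
          | simp [Pl.det3, n1.symm, n2.symm, n3]

/-- Induction on `#U`. Pass to a maximal map (`Gd.maxi`). If `A` has only the neighbours `B`, `C`
then `A B C` is a face too (`cn_two`, `Gd.fc`), all vertices are `A`, `B`, `C` (`cn_both`) and
`f = (0,0), (1,0), (0,1)` works. Otherwise `Gd.chord`, `Gd.fc`, `Gd.contract`, induction for
`U.erase q`, `Pl.real_gp`, and `Pl.real_step` for the set `T` of all faces outside
`Pl.tri A C B` (`Pl.real_mem`). -/
theorem Gd.real [Infinite N] (h : Gd S p t) {A B C : V} (U : Finset V)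
    (hU : ∀ a b, Ad S p a b → a ∈ U) (hc : ∀ v ∈ U, Relation.ReflTransGen (Ad S p) A v)
    (hf : Fc S p t A C B) :
    ∃ f : V → Pl.Pt, ∀ a b c, Fc S p t a b c → (a, b, c) ∉ Pl.tri A C B →
      0 < Pl.det3 (f a) (f b) (f c) := by
  classical
  induction hn : #U using Nat.strong_induction_on generalizing S p t U with
  | _ m ih =>
  obtain ⟨S, p, t, h, hm, hU, had, hfc⟩ := h.maxi U hU
  replace hc : ∀ v ∈ U, Relation.ReflTransGen (Ad S p) A v :=
    fun v hv => Relation.ReflTransGen.mono had _ _ (hc v hv)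
  replace hf := hfc _ _ _ hf
  suffices ∃ f : V → Pl.Pt, ∀ a b c, Fc S p t a b c → (a, b, c) ∉ Pl.tri A C B →
      0 < Pl.det3 (f a) (f b) (f c) from this.imp fun f hf a b c h1 => hf a b c (hfc _ _ _ h1)
  by_cases hz : ∀ z, Ad S p A z → z = B ∨ z = C
  · exact real_base h hm U hU hc hf hz
  simp only [not_forall, not_or] at hz
  obtain ⟨z, hz, z1, z2⟩ := hz
  obtain ⟨a, q, b, c1, c2, q1, q2, hab, hq⟩ := h.chord hf.1 (h.ad_symm hf.2.1.ad) hz z1 z2
  obtain ⟨S', p', t', h', k1, k2, k3⟩ := h.contract (h.fc hm c1) (h.fc hm c2) hab hq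
  have nA : A ≠ q := h.ad_ne c2.ad
  have n1 := h.ad_ne hf.1.ad
  have n2 := h.ad_ne hf.1.ad'
  have hqU : q ∈ U := hU _ _ (h.ad_symm c2.ad)
  have r1 : ∀ v, v ≠ q → Pl.ren q A v = v := fun v hv => if_neg hv
  have k4 : ∀ u v w, Fc S p t u v w → ¬ ((u = q ∨ v = q ∨ w = q) ∧ (u = A ∨ v = A ∨ w = A)) →
      Fc S' p' t' (Pl.ren q A u) (Pl.ren q A v) (Pl.ren q A w) := fun u v w h1 h2 =>
    ⟨k3 _ _ _ h1.1 h2, k3 _ _ _ h1.2.1 (by tauto), k3 _ _ _ h1.2.2 (by tauto)⟩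
  have k5 : ∀ v, Relation.ReflTransGen (Ad S p) A v →
      Relation.ReflTransGen (Ad S' p') A (Pl.ren q A v) := by
    intro v hv
    induction hv with
    | refl => rw [r1 A nA]
    | tail _ h2 ih =>
      rcases k2 _ _ h2 with e | e
      · rwa [← e]
      · exact ih.tail e
  obtain ⟨f, hf'⟩ := ih _ (hn ▸ card_erase_lt_of_mem hqU) h' (U.erase q)
    (fun u v h1 => mem_erase.2 ⟨(k1 u v h1).1, (k1 u v h1).2.elim fun z => hU u z⟩)
    (fun v hv => r1 v (mem_erase.1 hv).1 ▸ k5 v (hc v (mem_erase.1 hv).2))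
    (by
      have := k4 _ _ _ hf (by simp [nA, q1.symm, q2.symm])
      rwa [r1 A nA, r1 B q1.symm, r1 C q2.symm] at this) rfl
  obtain ⟨T, hT⟩ : ∃ T : Finset (Pl.T3 V), ∀ x y z, (x, y, z) ∈ T ↔
      Fc S p t x y z ∧ (x, y, z) ∉ Pl.tri A C B :=
    ⟨{s ∈ U ×ˢ U ×ˢ U | Fc S p t s.1 s.2.1 s.2.2 ∧ s ∉ Pl.tri A C B}, fun x y z =>
      mem_filter.trans (and_iff_right_of_imp fun h1 => mem_product.2
        ⟨hU _ _ h1.1.1.ad, mem_product.2 ⟨hU _ _ h1.1.2.1.ad, hU _ _ h1.1.2.2.ad⟩⟩)⟩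
  have k6 : ∀ x y z, Fc S p t x y z → Pl.ren q A x = A → Pl.ren q A y = C → Pl.ren q A z = B →
      x = A ∧ y = C ∧ z = B := by
    intro x y z h1 _ e2 e3
    obtain rfl : y = C := by
      unfold Pl.ren at e2
      grind
    obtain rfl : z = B := by
      unfold Pl.ren at e3
      grind
    exact ⟨h.cn_uniq h1.2.1 hf.2.1, rfl, rfl⟩
  obtain ⟨g, hg, hpos⟩ := Pl.real_gp (T := Pl.contract T q A) (g := f) (fun x y z hx => by
    obtain ⟨x', y', z', h1, h2, h3⟩ := Pl.real_mem.1 hx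
    obtain ⟨h1, h4⟩ := (hT _ _ _).1 h1
    obtain ⟨rfl, rfl, rfl⟩ := Prod.mk.inj h3 |>.imp_right Prod.mk.inj
    refine hf' _ _ _ (k4 _ _ _ h1 h2) fun h5 => h4 ?_
    simp only [Pl.mem_tri, Prod.mk.injEq] at h5 ⊢
    rcases h5 with h5 | h5 | h5
    · exact .inl (k6 _ _ _ h1 h5.1 h5.2.1 h5.2.2)
    · have := k6 _ _ _ h1.rot.rot h5.2.2 h5.1 h5.2.1
      exact .inr (.inl ⟨this.2.1, this.2.2, this.1⟩)
    · have := k6 _ _ _ h1.rot h5.2.1 h5.2.2 h5.1
      exact .inr (.inr ⟨this.2.2, this.1, this.2.1⟩)) U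
  obtain ⟨F, hF⟩ := Pl.real_step (T := T) (p := q) (a := A)
    ⟨nA.symm, fun u u' h1 h2 => h.cn_uniq' ((hT _ _ _).1 h1).1.1 ((hT _ _ _).1 h2).1.1,
      fun u u' h1 h2 => h.cn_uniq ((hT _ _ _).1 h1).1.1 ((hT _ _ _).1 h2).1.1,
      fun u h1 h2 => hab ((h.cn_uniq' c1 ((hT _ _ _).1 h1).1.1).trans
        (h.cn_uniq ((hT _ _ _).1 h2).1.1 c2))⟩
    (fun x y z h1 => (hT _ _ _).2 ⟨((hT _ _ _).1 h1).1.rot, fun h2 => ((hT _ _ _).1 h1).2 (by
      simp only [Pl.mem_tri, Prod.mk.injEq] at h2 ⊢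
      tauto)⟩)
    (fun x y z h1 => h.ad_ne ((hT _ _ _).1 h1).1.1.ad) g hg (hU _ _ hz)
    (fun x y z h1 => hU _ _ ((hT _ _ _).1 h1).1.1.ad) hpos
  exact ⟨F, fun x y z h1 h2 => hF x y z ((hT _ _ _).2 ⟨h1, h2⟩)⟩

/-- In a connected maximal map with a face every dart lies in a face. -/
theorem Gd.exists_fc (h : Gd S p t) (hm : Maxi S p t) {A B C u v : V} (hf : Fc S p t A C B)
    (hc : Relation.ReflTransGen (Ad S p) A u) (ha : Ad S p u v) : ∃ w, Fc S p t u v w := by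
  have key : ∀ u v z z', z ≠ z' → Ad S p u z → Ad S p u z' → Ad S p u v → ∃ w, Fc S p t u v w := by
    intro u v z z' n h1 h2 h3
    by_cases e : z = v
    · exact (h.exists_cn h3 h2 fun e' => n (e.trans e'.symm)).imp fun _ => h.fc hm
    · exact (h.exists_cn h3 h1 e).imp fun _ => h.fc hm
  induction hc generalizing v with
  | refl => exact key _ _ _ _ (h.cn_ne hf.1) hf.1.ad hf.1.ad' ha
  | tail _ h2 ih =>
    obtain ⟨w, hw⟩ := ih h2
    exact key _ _ _ _ (h.cn_ne hw.2.1) hw.2.1.ad hw.2.1.ad' ha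

end Pool.Agent.P.MP_2b4a47_lc.HT
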