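import Pool.Agent.P.MP_2b4a47_lc.HT.Start
import Pool.Agent.P.MP_2b4a47_lc.HT.Real
import Pool.Agent.P.MP_2b4a47_lc.PlLocal

/-! A solution of the linear system gives a straight-line embedding. -/

namespace Pool.Agent.P.MP_2b4a47_lc.HT

open Finset

variable {V : Type} [DecidableEq V] {L : List (List V)} {al be τ o : V → V → V → F2}

/-- `Sys.conn`, `Gd.maxi`, `Gd.real`, `Pl.real_gp`; the faces outside `Pl.tri A C B` form a
`Pl.Chain` (`bd` by the involution `(a, b, c) ↦ (b, a, c')` on all faces, `Gd.exists_fc`);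
finish as in `Pl.Cert.emb`. -/
theorem Sys.emb [Infinite V] (h : Sys L al be τ o) : ∃ f, Pl.Emb2 L f := by
  classical
  obtain ⟨A, hA⟩ := Infinite.exists_notMem_finset L.flatten.toFinset
  obtain ⟨B, hB⟩ := Infinite.exists_notMem_finset (insert A L.flatten.toFinset)
  obtain ⟨C, hC⟩ := Infinite.exists_notMem_finset (insert B (insert A L.flatten.toFinset))
  simp only [mem_insert, List.mem_toFinset, not_or] at hA hB hC
  obtain ⟨S0, p0, t0, g0, a0, a1, a2, a3, a4⟩ :=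
    h.conn hA hB.2 hC.2.2 (Ne.symm hB.1) (Ne.symm hC.2.1) (Ne.symm hC.1)
  obtain ⟨U, hU⟩ : ∃ U, U = (A :: B :: C :: L.flatten).toFinset := ⟨_, rfl⟩
  obtain ⟨S, p, t, g, hm, b0, b1, b2⟩ := g0.maxi U fun a b hab =>
    hU ▸ List.mem_toFinset.2 (a0 a b hab)
  have hc : ∀ v ∈ U, Relation.ReflTransGen (Ad S p) A v := fun v hv =>
    Relation.ReflTransGen.mono b1 _ _ (a1 v (List.mem_toFinset.1 (hU ▸ hv)))
  have ho := b2 _ _ _ a3
  obtain ⟨f0, hf0⟩ := g.real U b0 hc ho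
  obtain ⟨T0, hT0⟩ : ∃ T0 : Finset (Pl.T3 V),
      T0 = (U ×ˢ U ×ˢ U).filter fun s => Fc S p t s.1 s.2.1 s.2.2 := ⟨_, rfl⟩
  have m0 : ∀ a b c, (a, b, c) ∈ T0 ↔ Fc S p t a b c := fun a b c => by
    rw [hT0, mem_filter, mem_product, mem_product]
    exact ⟨fun k => k.2, fun k => ⟨⟨b0 _ _ k.1.ad, b0 _ _ k.2.1.ad, b0 _ _ k.2.2.ad⟩, k⟩⟩
  have m1 : ∀ a b c, (a, b, c) ∈ T0 \ Pl.tri A C B ↔
      Fc S p t a b c ∧ (a, b, c) ∉ Pl.tri A C B := fun a b c => by rw [Finset.mem_sdiff, m0]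
  obtain ⟨f, hg, hp⟩ := Pl.real_gp (T := T0 \ Pl.tri A C B)
    (fun x y z k => hf0 x y z ((m1 _ _ _).1 k).1 ((m1 _ _ _).1 k).2) L.flatten.toFinset
  have hsub : Pl.tri A C B ⊆ T0 := fun s hs => by
    rcases Pl.mem_tri.1 hs with rfl | rfl | rfl
    exacts [(m0 _ _ _).2 ho, (m0 _ _ _).2 ho.rot, (m0 _ _ _).2 ho.rot.rot]
  have tw : ∀ a b, Ad S p a b → ∃ c, Fc S p t a b c := fun a b k =>
    g.exists_fc hm ho (hc a (b0 _ _ k)) k
  choose! nx hnx using tw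
  have ch : Pl.Chain f A B C (T0 \ Pl.tri A C B) := by
    refine ⟨fun a b c k => (m1 _ _ _).2 ⟨((m1 _ _ _).1 k).1.rot, fun k' => ((m1 _ _ _).1 k).2 ?_⟩,
      hp, fun φ hφ => ?_⟩
    · simp only [Pl.mem_tri, Prod.mk.injEq] at k' ⊢
      tauto
    have s1 : ∑ s ∈ T0, φ s.1 s.2.1 = 0 := by
      refine sum_involution (fun s _ => (s.2.1, s.1, nx s.2.1 s.1))
        (fun s _ => by rw [hφ s.1 s.2.1, add_neg_cancel]) ?_ ?_ ?_
      · rintro ⟨x, y, z⟩ k - e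
        exact g.ad_ne ((m0 _ _ _).1 k).1.ad (congrArg Prod.fst e).symm
      · rintro ⟨x, y, z⟩ k
        exact (m0 _ _ _).2 (hnx _ _ (g.ad_symm ((m0 _ _ _).1 k).1.ad))
      · rintro ⟨x, y, z⟩ k
        have k1 := ((m0 _ _ _).1 k).1
        rw [g.cn_uniq (hnx _ _ k1.ad).1 k1]
    have n1 := g.ad_ne ho.1.ad
    have n2 := g.ad_ne ho.2.1.ad
    have n3 := g.ad_ne ho.2.2.ad
    rw [← sum_sdiff hsub, Pl.tri, sum_insert (by simp [n1, n3.symm]),
      sum_pair (by simp [n2]), ← Pl.tri] at s1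
    have e1 := hφ A B
    have e2 := hφ B C
    have e3 := hφ C A
    simp only at s1
    omega
  have old : ∀ a ∈ L.flatten, ∀ b c, Fc S p t a b c → (a, b, c) ∈ T0 \ Pl.tri A C B :=
    fun a ha b c k => (m1 _ _ _).2 ⟨k, fun k' => by
      simp only [Pl.mem_tri, Prod.mk.injEq] at k'
      rcases k' with ⟨rfl, -⟩ | ⟨rfl, -⟩ | ⟨rfl, -⟩
      exacts [hA ha, hC.2.2 ha, hB.2 ha]⟩
  have edge : ∀ a b, Adj L a b → (a, b, nx a b) ∈ T0 \ Pl.tri A C B := fun a b k =>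
    old a k.mem _ _ (hnx _ _ (b1 _ _ (a2 _ _ k)))
  refine ⟨f, hg, fun l hl l' hl' a ha b hb c hc' d hd hx => ?_,
    fun l hl a ha b hb c hc' q hq hi => ?_⟩
  · by_cases hab : a = b
    · subst hab
      simpa [Pl.Cross] using hx.1
    by_cases hcd : c = d
    · subst hcd
      simpa [Pl.Cross] using hx.2
    exact ch.no_cross (edge a b ⟨hab, l, hl, ha, hb⟩) (edge c d ⟨hcd, l', hl', hc', hd⟩) hx
  · have hpos := hi.pos
    have tr : Tri L a b c := ⟨by rintro rfl; simp at hpos, by rintro rfl; simp at hpos,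
      by rintro rfl; simp at hpos, l, hl, ha, hb, hc'⟩
    obtain ⟨z, hz⟩ : ∃ z, Ad S p q z := by
      rcases (hc q (hU ▸ List.mem_toFinset.2 (by simp only [List.mem_cons, hq, or_true]))).cases_tail
        with rfl | ⟨z, -, hz⟩
      exacts [absurd hq hA, ⟨z, g.ad_symm hz⟩]
    rcases f2_cases (o a b c) with k | k
    · exact ch.no_inside (old a tr.adj.mem _ _ (b2 _ _ _ (a4 _ _ _ tr k)))
        (old q hq _ _ (hnx _ _ hz)) hi
    · have := hp _ _ _ (old a tr.adj.mem _ _ (b2 _ _ _ (a4 _ _ _ tr.swap (by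
        linear_combination h.swap a b c tr - k))))
      rw [Pl.det3_swap'] at this
      linarith

end Pool.Agent.P.MP_2b4a47_lc.HT
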