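import Pool.Agent.P.MP_2b4a47_lc.HT.Circ

/-! Redrawing at the vertices of a circuit. -/

namespace Pool.Agent.P.MP_2b4a47_lc.HT

open Finset

variable {V N : Type} [DecidableEq V] [DecidableEq N] {S : Finset (Dt N)} {p p' : Dt N → V}
  {t t' : Dt N → Dt N → F2} {Z Z' Y : Dt N → F2} {x y n : Dt N} {κ : F2}

variable {W : Finset V} {o i : V → Dt N}

/-- A cycle is the sum of two cycles, one on each side of the circuit. -/
private theorem flip_dec (h : Circ S p W o i) (hp : Pre S p t) {χ : Dt N → F2}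
    (c1 : ∀ g ∈ S, ¬ OnC p W o i g → χ g.swap = χ g)
    (c3 : ∀ g ∈ S, ∀ g' ∈ S, p g = p g' → p g ∉ W → χ g = χ g') (hZ : Cy S p Z) :
    ∃ Z0 Z1 : Dt N → F2, Cy S p Z0 ∧ Cy S p Z1 ∧ (∀ d, Z0 d ≠ 0 → OnC p W o i d ∨ χ d = 0) ∧
      (∀ d, Z1 d ≠ 0 → OnC p W o i d ∨ χ d = 1) ∧ Z = fun d => Z0 d + Z1 d := by
  obtain ⟨Z0, h0, e0⟩ := h.fill hp
    (Y := fun d => if ¬ OnC p W o i d ∧ χ d = 0 then Z d else 0) (fun d hd => by
      by_cases h1 : OnC p W o i d
      · simp only [h1, h.onC_swap h1, not_true, false_and, if_false]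
      · have h2 : ¬ OnC p W o i d.swap := fun h2 => h1 (h.onC_swap h2)
        simp only [h1, h2, c1 d hd h1, hZ.1 d hd]) (fun v hv => by
      by_cases h1 : ∃ g ∈ S, p g = v ∧ χ g = 0
      · obtain ⟨g, hg, e1, e2⟩ := h1
        refine Eq.trans (sum_congr rfl fun d hd => ?_) (hZ.2 v)
        beta_reduce
        split_ifs with h2 h3
        · rfl
        · exact (h3 ⟨fun h4 => hv (h2 ▸ h4.1),
            (c3 d hd g hg (h2.trans e1.symm) (h2 ▸ hv)).trans e2⟩).elim
        · rfl
      · refine sum_eq_zero fun d hd => ?_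
        beta_reduce
        split_ifs with h2 h3
        · exact (h1 ⟨d, hd, h2, h3.2⟩).elim
        · rfl
        · rfl)
  refine ⟨Z0, fun d => Z d + Z0 d, h0, hZ.add h0, fun d hd => ?_, fun d hd => ?_,
    funext fun d => by linear_combination -f2_self (Z0 d)⟩
  · by_contra hc
    rw [not_or] at hc
    exact hd ((e0 d hc.1).trans (if_neg fun h1 => hc.2 h1.2))
  · by_contra hc
    rw [not_or] at hc
    refine hd ?_
    simp only [e0 d hc.1, if_pos (And.intro hc.1 ((f2_cases (χ d)).resolve_right hc.2)), f2_self]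

/-- With `χ` from `Circ.colour` put `t' f g = t (o x) f + t (o x) g + 1 + χ f` for darts `f`, `g` at
`x ∈ W` off the circuit with `χ f ≠ χ g`, and `t' = t` otherwise. Every cycle is `Z0 + Z1` with
`Zj` supported on the circuit and the colour `j` (`Circ.fill`). `Bf t' Zj Zj' = Bf t Zj Zj'`
(`Bf_congr`), and `Bf t' Z0 Z1' = 0` by `Bf_rank` with `φ (o x) = ψ (o x) = 0`,
`φ (i x) = t (i x) (o x)`, `ψ (i x) = t (o x) (i x)`, `φ f = t f (o x)`, `ψ g = t (o x) g`,
`η (o x) = t (o x) (o x)`, `η (i x) = t (i x) (i x) + 1`, then `sum_sym`; `Pre.Bf_comm`. -/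
theorem Circ.flip (h : Circ S p W o i) (hv : Valid S p t) :
    ∃ (t' : Dt N → Dt N → F2) (φ ψ : Dt N → F2), Valid S p t' ∧
      (∀ a b, p a ∉ W ∨ OnC p W o i a ∨ OnC p W o i b ∨ a = b → t' a b = t a b) ∧
      ∀ v ∈ W, ∀ a ∈ S, ∀ b ∈ S, p a = v → p b = v →
        a = o v ∨ (a ≠ o v ∧ a ≠ i v ∧ cc t (i v) (o v) a = 0) →
        b = i v ∨ (b ≠ o v ∧ b ≠ i v ∧ cc t (i v) (o v) b = 1) → t' a b = φ a + ψ b := by
  obtain ⟨χ, c1, c2, c3⟩ := h.colour hv
  let t' : Dt N → Dt N → F2 := fun f g =>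
    if p f ∈ W ∧ ¬ OnC p W o i f ∧ ¬ OnC p W o i g ∧ χ f ≠ χ g then
      t (o (p f)) f + t (o (p f)) g + 1 + χ f else t f g
  let φ : Dt N → F2 := fun f => if f = o (p f) then 0 else t f (o (p f))
  let ψ : Dt N → F2 := fun g => if g = o (p g) then 0 else t (o (p g)) g
  let η : Dt N → F2 := fun d => if d = o (p d) then t d d else t d d + 1
  have hs : ∀ a b, p a ∉ W ∨ OnC p W o i a ∨ OnC p W o i b ∨ χ a = χ b → t' a b = t a b :=
    fun a b h1 => if_neg (by tauto)
  have hp : Pre S p t' := by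
    refine ⟨hv.sym, hv.ne, fun d hd e he e1 n1 => ?_, fun d hd => ?_⟩
    · by_cases h1 : p d ∈ W ∧ ¬ OnC p W o i d ∧ ¬ OnC p W o i e ∧ χ d ≠ χ e
      · have h2 : χ d + χ e = 1 := by
          have := h1.2.2.2
          generalize χ d = a, χ e = b at this
          revert a b
          decide
        simp only [t', if_pos h1, ← e1,
          if_pos (And.intro h1.1 (And.intro h1.2.2.1 (And.intro h1.2.1 h1.2.2.2.symm)))]
        linear_combination h2 + (t (o (p d)) d + t (o (p d)) e + 1) * f2_two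
      · rw [hs d e (by tauto), hs e d (by rw [← e1, eq_comm]; tauto), hv.tour d hd e he e1 n1]
    · rw [hs d d (by tauto), hs _ _ (by tauto), hv.diag d hd]
  have hk : ∀ d ∈ S, ∀ e ∈ S, p d = p e → OnC p W o i d ∨ χ d = 0 → OnC p W o i e ∨ χ e = 1 →
      t' d e = φ d + ψ e + if d = e then η d else 0 := by
    intro d hd e he e1 h1 h2
    have hW : p d ∈ W := by
      by_contra hW
      have := c3 d hd e he e1 hW
      rw [h1.resolve_left fun h => hW h.1, h2.resolve_left fun h => hW (e1 ▸ h.1)] at this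
      exact absurd this (by decide)
    obtain ⟨x, hx⟩ : ∃ x, p d = x := ⟨_, rfl⟩
    have hy : p e = x := e1 ▸ hx
    rw [hx] at hW
    have hoi := hv.tour _ (h.oS x hW) _ (h.iS x hW) ((h.po x hW).trans (h.pi x hW).symm) (h.ne x hW)
    have ho : ∀ g ∈ S, p g = x → g ≠ o x → t (o x) g + t g (o x) = 1 := fun g hg e n =>
      hv.tour _ (h.oS x hW) g hg ((h.po x hW).trans e.symm) n.symm
    have hi : ∀ g ∈ S, p g = x → g ≠ i x → t (i x) g + t g (i x) = 1 := fun g hg e n =>
      hv.tour _ (h.iS x hW) g hg ((h.pi x hW).trans e.symm) n.symm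
    have hC : ∀ g, p g = x → (OnC p W o i g ↔ g = o x ∨ g = i x) := fun g e => by
      simp only [OnC, e, hW, true_and]
    have hn := (h.ne x hW).symm
    simp only [φ, ψ, η, hx, hy]
    by_cases d1 : OnC p W o i d
    · rw [hs d e (by tauto)]
      rcases (hC d hx).1 d1 with rfl | rfl
      · by_cases e2 : e = o x
        · simp [e2]
        · simp [e2, Ne.symm e2]
      · by_cases e2 : e = o x
        · simp [e2, hn]
        by_cases e3 : e = i x
        · simp only [e3, hn, if_false, if_true]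
          linear_combination -hoi - f2_two
        · have e4 : ¬ OnC p W o i e := fun h => ((hC e hy).1 h).elim e2 e3
          have := c2 e he (hy ▸ hW) e4
          rw [h2.resolve_left e4, hy, cc] at this
          simp only [hn, e2, Ne.symm e3, if_false]
          linear_combination this + hi e he hy e3
    · have d2 := h1.resolve_left d1
      have d3 := c2 d hd (hx ▸ hW) d1
      rw [d2, hx, cc] at d3
      have d4 := mt (hC d hx).2 d1
      rw [not_or] at d4
      by_cases e2 : OnC p W o i e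
      · rw [hs d e (by tauto)]
        rcases (hC e hy).1 e2 with rfl | rfl
        · simp [d4.1]
        · simp only [hn, d4.1, d4.2, if_false]
          linear_combination -d3 - hoi - ho d hd hx d4.1 - f2_two
      · have e3 := h2.resolve_left e2
        have e4 := mt (hC e hy).2 e2
        rw [not_or] at e4
        have n1 : χ d ≠ χ e := by
          rw [d2, e3]
          decide
        have n2 : d ≠ e := fun h => n1 (h ▸ rfl)
        simp only [t', if_pos (And.intro (hx ▸ hW : p d ∈ W) (And.intro d1 (And.intro e2 n1)))]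
        simp only [hx, d4.1, e4.1, n2, d2, if_false]
        linear_combination ho d hd hx d4.1 + (1 - t d (o x)) * f2_two
  have hsame : ∀ (j : F2) Z Z', Cy S p Z → Cy S p Z' → (∀ d, Z d ≠ 0 → OnC p W o i d ∨ χ d = j) →
      (∀ d, Z' d ≠ 0 → OnC p W o i d ∨ χ d = j) → Bf S p t' Z Z' = 0 := by
    intro j Z Z' hZ hZ' s1 s2
    refine (Bf_congr fun d _ e _ _ n1 n2 => hs d e ?_).trans (hv.zero Z Z' hZ hZ')
    rcases s1 d n1 with h1 | h1
    · tauto
    rcases s2 e n2 with h2 | h2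
    · tauto
    exact .inr (.inr (.inr (h1.trans h2.symm)))
  have hcross : ∀ Z Z', Cy S p Z → Cy S p Z' → (∀ d, Z d ≠ 0 → OnC p W o i d ∨ χ d = 0) →
      (∀ d, Z' d ≠ 0 → OnC p W o i d ∨ χ d = 1) → Bf S p t' Z Z' = 0 := by
    intro Z Z' hZ hZ' s1 s2
    rw [Bf_rank hZ hZ' φ ψ η fun d hd e he e1 n1 n2 => hk d hd e he e1 (s1 d n1) (s2 e n2)]
    refine sum_sym hv.sym hv.ne fun d hd => ?_
    rw [hZ.1 d hd, hZ'.1 d hd, ← mul_add]
    by_cases n1 : Z d = 0
    · rw [n1, zero_mul, zero_mul]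
    by_cases n2 : Z' d = 0
    · rw [n2, mul_zero, zero_mul]
    have hC : OnC p W o i d := by
      by_contra hC
      exact absurd (((s1 d n1).resolve_left hC).symm.trans ((s2 d n2).resolve_left hC)) (by decide)
    refine mul_eq_zero_of_right _ ?_
    rcases hC.2 with h1 | h1
    · have h2 := h.nx _ hC.1
      rw [← h1] at h2
      have h3 : d.swap ≠ o (p d.swap) := fun h3 => h.ne _ h2.1 (h3.symm.trans h2.2.symm)
      simp only [η, if_pos h1, if_neg h3]
      linear_combination hv.diag d hd + f2_two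
    · have h2 := h.pv _ hC.1
      rw [← h1] at h2
      have h3 : d ≠ o (p d) := fun h3 => h.ne _ hC.1 (h3.symm.trans h1)
      simp only [η, if_pos h2.2.symm, if_neg h3]
      linear_combination hv.diag d hd + f2_two
  refine ⟨t', φ, ψ, ⟨hp, fun Z Z' hZ hZ' => ?_⟩, fun a b h1 => hs a b ?_,
    fun v hW a ha b hb e1 e2 h1 h2 => ?_⟩
  · obtain ⟨Z0, Z1, a0, a1, s0, s1, rfl⟩ := flip_dec h hv.toPre c1 c3 hZ
    obtain ⟨Y0, Y1, b0, b1, r0, r1, rfl⟩ := flip_dec h hv.toPre c1 c3 hZ'
    rw [Bf_add_left, Bf_add_right, Bf_add_right, hsame 0 _ _ a0 b0 s0 r0, hsame 1 _ _ a1 b1 s1 r1,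
      hcross _ _ a0 b1 s0 r1, hp.Bf_comm a1 b0, hcross _ _ b0 a1 r0 s1]
    rfl
  · rcases h1 with h1 | h1 | h1 | rfl <;> tauto
  · have hC : ∀ g, p g = v → (OnC p W o i g ↔ g = o v ∨ g = i v) := fun g e => by
      simp only [OnC, e, hW, true_and]
    have hc : ∀ g ∈ S, p g = v → g ≠ o v → g ≠ i v → χ g = cc t (i v) (o v) g :=
      fun g hg e n1 n2 => e ▸ c2 g hg (e ▸ hW) fun h => ((hC g e).1 h).elim n1 n2
    have hn : a ≠ b := by
      rintro rfl
      rcases h1 with h1 | h1 <;> rcases h2 with h2 | h2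
      · exact h.ne v hW (h1.symm.trans h2)
      · exact h2.1 h1
      · exact h1.2.1 h2
      · exact absurd (h1.2.2.symm.trans h2.2.2) (by decide)
    rw [hk a ha b hb (e1.trans e2.symm)
      (h1.imp (fun h => (hC a e1).2 (.inl h)) fun h => (hc a ha e1 h.1 h.2.1).trans h.2.2)
      (h2.imp (fun h => (hC b e2).2 (.inr h)) fun h => (hc b hb e2 h.1 h.2.1).trans h.2.2),
      if_neg hn, add_zero]

end Pool.Agent.P.MP_2b4a47_lc.HT
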