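import Pool.Agent.P.MP_2b4a47_lc.HT.Sys
import Pool.Agent.P.MP_2b4a47_lc.Member

/-! Linear systems over `ZMod 2` are decided in polynomial time. -/

namespace Pool.Agent.P.MP_2b4a47_lc.HT

open Pool.Agent.Lib.NP

/-- The sum of the listed unknowns is the given bit. -/
def Sat {α : Type} (x : α → F2) (e : List α × Bool) : Prop :=
  (e.1.map x).sum = if e.2 then 1 else 0

namespace Gs

variable {α : Type} [DecidableEq α] {W T : List α} {E : List (List α × Bool)} {a : α}

/-- The sum over the members of `l`. -/
def lin (W l : List α) (x : α → F2) : F2 := ∑ a ∈ W.toFinset, if a ∈ l then x a else 0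

def St (W : List α) (x : α → F2) (e : List α × Bool) : Prop := lin W e.1 x = if e.2 then 1 else 0

def add (W : List α) (e e' : List α × Bool) : List α × Bool :=
  (W.filter fun b => xor (decide (b ∈ e.1)) (decide (b ∈ e'.1)), xor e.2 e'.2)

def piv (E : List (List α × Bool)) (a : α) : List α × Bool :=
  (E.filter fun e => decide (a ∈ e.1)).headD ([], false)

def step (W : List α) (E : List (List α × Bool)) (a : α) : List (List α × Bool) :=
  E.map fun e => bif decide (a ∈ e.1) then add W e (piv E a) else e

def init (W : List α) (E : List (List α × Bool)) : List (List α × Bool) :=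
  E.map fun e => (W.filter fun b => decide (e.1.countP (· == b) % 2 = 1), e.2)

theorem St.add_iff {x : α → F2} {e e' : List α × Bool} (h : St W x e') :
    St W x (add W e e') ↔ St W x e := by
  have h1 : lin W (add W e e').1 x = lin W e.1 x + lin W e'.1 x := by
    rw [lin, lin, lin, ← Finset.sum_add_distrib]
    refine Finset.sum_congr rfl fun b hb => ?_
    by_cases h1 : b ∈ e.1 <;> by_cases h2 : b ∈ e'.1 <;>
      simp [add, h1, h2, List.mem_toFinset.1 hb, CharTwo.add_self_eq_zero]
  rw [St] at h
  rw [St, St, h1, h]
  generalize lin W e.1 x = t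
  have key : ∀ (b b' : Bool) (t : F2), ((t + if b' then 1 else 0) = if xor b b' then 1 else 0) ↔
      t = if b then 1 else 0 := by decide
  exact key _ _ t

theorem lin_single (ha : a ∈ W) (l : List α) (x : α → F2) (c : F2) :
    lin W l (x + Pi.single a c) = lin W l x + if a ∈ l then c else 0 := by
  have h : (if a ∈ l then c else 0) =
      ∑ b ∈ W.toFinset, if b ∈ l then (Pi.single a c : α → F2) b else 0 := by
    rw [Finset.sum_eq_single_of_mem a (List.mem_toFinset.2 ha) fun b _ hb => by simp [hb]]
    simp
  rw [h, lin, lin, ← Finset.sum_add_distrib]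
  exact Finset.sum_congr rfl fun b _ => by split_ifs <;> simp

theorem piv_mem {e : List α × Bool} (he : e ∈ E) (h : a ∈ e.1) :
    piv E a ∈ E ∧ a ∈ (piv E a).1 := by
  have h1 : piv E a ∈ E.filter fun e => decide (a ∈ e.1) := by
    have h2 : e ∈ E.filter fun e => decide (a ∈ e.1) := by simp [he, h]
    unfold piv
    generalize (E.filter fun e => decide (a ∈ e.1)) = F at h2
    cases F <;> simp_all
  simpa using h1

theorem step_iff (ha : a ∈ W) :
    (∃ x, ∀ e ∈ step W E a, St W x e) ↔ ∃ x, ∀ e ∈ E, St W x e := by
  simp only [step, List.forall_mem_map]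
  constructor
  · rintro ⟨x, h⟩
    refine ⟨x + Pi.single a ((if (piv E a).2 then 1 else 0) - lin W (piv E a).1 x),
      fun e he => ?_⟩
    have h0 := h e he
    by_cases h1 : a ∈ e.1
    · have h2 := (piv_mem he h1).2
      rw [← St.add_iff (e' := piv E a) (by rw [St, lin_single ha, if_pos h2]; ring), St,
        lin_single ha, if_neg (by simp [add, h1, h2]), add_zero]
      simpa [h1, St] using h0
    · rw [St, lin_single ha, if_neg h1, add_zero]
      simpa [h1, St] using h0
  · rintro ⟨x, h⟩
    refine ⟨x, fun e he => ?_⟩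
    by_cases h1 : a ∈ e.1
    · simpa [h1] using (h _ (piv_mem he h1).1).add_iff.2 (h e he)
    · simpa [h1] using h e he

theorem fold_iff (hT : T ⊆ W) (h : ∀ e ∈ E, e.1 ⊆ T) :
    ((T.foldl (step W) E).all fun e => !e.2) = true ↔ ∃ x, ∀ e ∈ E, St W x e := by
  induction T generalizing E with
  | nil =>
    have h1 : ∀ x, ∀ e ∈ E, (St W x e ↔ (!e.2) = true) := fun x e he => by
      rw [St, List.subset_nil.1 (h e he)]
      cases e.2 <;> simp [lin]
    rw [List.foldl_nil, List.all_eq_true]
    exact ⟨fun h2 => ⟨0, fun e he => (h1 0 e he).2 (h2 e he)⟩,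
      fun ⟨x, h2⟩ e he => (h1 x e he).1 (h2 e he)⟩
  | cons a T ih =>
    rw [List.foldl_cons, ih (List.subset_of_cons_subset hT), step_iff (hT List.mem_cons_self)]
    simp only [step, List.forall_mem_map]
    intro e he b hb
    by_cases h1 : a ∈ e.1
    · obtain ⟨h2, h3⟩ := piv_mem he h1
      simp only [h1, decide_true, cond_true, add, List.mem_filter] at hb
      have h4 : b ≠ a := fun e => by simp [e, h1, h3] at hb
      by_cases h5 : b ∈ e.1
      · simpa [h4] using h e he h5
      · simpa [h4] using h _ h2 (show b ∈ (piv E a).1 by simpa [h5] using hb.2)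
    · simp only [h1, decide_false, cond_false] at hb
      have h4 : b ≠ a := fun e => h1 (e ▸ hb)
      simpa [h4] using h e he hb

theorem lin_init {l : List α} (h : l ⊆ W) (x : α → F2) :
    lin W (W.filter fun b => decide (l.countP (· == b) % 2 = 1)) x = (l.map x).sum := by
  rw [Finset.sum_list_map_count, Finset.sum_subset (s₂ := W.toFinset)
    (fun b hb => List.mem_toFinset.2 (h (List.mem_toFinset.1 hb)))
    fun b _ hb => by rw [List.count_eq_zero_of_not_mem (by simpa using hb), zero_smul]]
  refine Finset.sum_congr rfl fun b hb => ?_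
  rw [nsmul_eq_mul, ← ZMod.natCast_mod (l.count b) 2, List.count]
  rcases Nat.mod_two_eq_zero_or_one (l.countP (· == b)) with h1 | h1 <;>
    simp [h1, List.mem_toFinset.1 hb]

variable [Enc α]

omit [DecidableEq α] in
theorem sz_filter (p : α → Bool) (W : List α) : sz (W.filter p) ≤ sz W := by
  induction W with
  | nil => simp
  | cons a W ih => cases h : p a <;> simp [h] <;> omega

omit [DecidableEq α] in
theorem sz_list {B : ℕ} (h : ∀ e ∈ E, sz e.1 ≤ B) : sz E ≤ E.length * (4 * B + 5) := by
  induction E with
  | nil => simp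
  | cons e E ih =>
    have h1 := h e List.mem_cons_self
    have h2 := ih fun e he => h e (List.mem_cons_of_mem _ he)
    obtain ⟨l, b⟩ := e
    simp [Nat.add_mul] at h1 ⊢
    omega

theorem sz_fold (T : List α) (h : ∀ e ∈ E, sz e.1 ≤ sz W) :
    sz (T.foldl (step W) E) ≤ E.length * (4 * sz W + 5) := by
  induction T generalizing E with
  | nil => exact sz_list h
  | cons a T ih =>
    refine (ih ?_).trans (by simp [step])
    simp only [step, List.forall_mem_map]
    intro e he
    cases decide (a ∈ e.1)
    exacts [h e he, sz_filter _ _]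

end Gs

open Gs Polynomial in
/-- Gaussian elimination. -/
theorem exists_gauss {α : Type} [Enc α] [DecidableEq α] :
    ∃ g : List (List α × Bool) → Bool, PT g ∧ ∀ E, g E = true ↔ ∃ x : α → F2, ∀ e ∈ E, Sat x e := by
  have hW : PT fun E : List (List α × Bool) => E.flatMap fun e => e.1 := by fun_prop
  obtain ⟨r, hr⟩ := hW.size
  refine ⟨fun E => ((E.flatMap fun e => e.1).foldl (step (E.flatMap fun e => e.1))
    (init (E.flatMap fun e => e.1) E)).all fun e => !e.2, PT.all (f := fun _ e => !e.2)
      (by fun_prop) (PT.foldl (f := fun E => step (E.flatMap fun e => e.1))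
        (by unfold step add piv; fun_prop) hW (by unfold init; fun_prop) (X * (4 * r + 5))
        fun E i => (sz_fold _ ?_).trans ?_), fun E => ?_⟩
  · simp only [init, List.forall_mem_map]
    exact fun e _ => sz_filter _ _
  · have h1 := hr E
    have h2 := length_le_sz E
    simp only [init, List.length_map, eval_mul, eval_add, eval_X, eval_ofNat]
    gcongr
  · rw [fold_iff (List.Subset.refl _)]
    · simp only [init, List.forall_mem_map]
      refine exists_congr fun x => forall₂_congr fun e he => ?_
      rw [Gs.St, Sat, lin_init fun b hb => List.mem_flatMap.2 ⟨e, he, hb⟩]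
    · simp only [init, List.forall_mem_map]
      exact fun e _ => List.filter_subset_self _

end Pool.Agent.P.MP_2b4a47_lc.HT
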