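import Pool.Agent.P.MP_2b4a47_lc.HT.Circ
import Pool.Agent.P.MP_2b4a47_lc.HT.Vx

/-! Triangles of a simple map. -/

namespace Pool.Agent.P.MP_2b4a47_lc.HT

open Finset

variable {V N : Type} [DecidableEq V] [DecidableEq N] {S : Finset (Dt N)} {p p' : Dt N → V}
  {t t' : Dt N → Dt N → F2} {Z Z' Y : Dt N → F2} {x y n : Dt N} {κ : F2}

variable {d1 d2 d3 g g' : Dt N}

theorem tri_circ (hp : Pre S p t) (hs : Simple S p) (h1 : d1 ∈ S) (h2 : d2 ∈ S) (h3 : d3 ∈ S)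
    (e1 : p d1.swap = p d2) (e2 : p d2.swap = p d3) (e3 : p d3.swap = p d1) :
    ∃ o i, Circ S p {p d1, p d2, p d3} o i ∧ o (p d1) = d1 ∧ o (p d2) = d2 ∧ o (p d3) = d3 ∧
      i (p d1) = d3.swap ∧ i (p d2) = d1.swap ∧ i (p d3) = d2.swap := by
  have n12 : p d2 ≠ p d1 := fun e => hs.1 d1 h1 (e1.trans e).symm
  have n23 : p d3 ≠ p d2 := fun e => hs.1 d2 h2 (e2.trans e).symm
  have n31 : p d3 ≠ p d1 := fun e => hs.1 d3 h3 (e.trans e3.symm)
  obtain ⟨o, o1, o2, o3⟩ : ∃ o : V → Dt N, o (p d1) = d1 ∧ o (p d2) = d2 ∧ o (p d3) = d3 :=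
    ⟨fun v => if v = p d1 then d1 else if v = p d2 then d2 else d3, by simp,
      by simp [n12], by simp [n23, n31]⟩
  obtain ⟨i, i1, i2, i3⟩ : ∃ i : V → Dt N, i (p d1) = d3.swap ∧ i (p d2) = d1.swap ∧
      i (p d3) = d2.swap :=
    ⟨fun v => if v = p d1 then d3.swap else if v = p d2 then d1.swap else d2.swap, by simp,
      by simp [n12], by simp [n23, n31]⟩
  have hW : ∀ X : V → Prop, (∀ v ∈ ({p d1, p d2, p d3} : Finset V), X v) ↔
      X (p d1) ∧ X (p d2) ∧ X (p d3) := fun X => by simp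
  refine ⟨o, i, ⟨?_, ?_, ?_, ?_, ?_, ?_, ?_, fun X hX => ?_⟩, o1, o2, o3, i1, i2, i3⟩
  · rw [hW, o1, o2, o3]
    exact ⟨h1, h2, h3⟩
  · rw [hW, i1, i2, i3]
    exact ⟨hp.sym _ h3, hp.sym _ h1, hp.sym _ h2⟩
  · rw [hW, o1, o2, o3]
    exact ⟨rfl, rfl, rfl⟩
  · rw [hW, i1, i2, i3]
    exact ⟨e3, e1, e2⟩
  · rw [hW, o1, o2, o3, i1, i2, i3]
    refine ⟨fun e => n23 ?_, fun e => n31 ?_, fun e => n12 ?_⟩
    · rw [← e1, e, Prod.swap_swap]
    · rw [← e2, e, Prod.swap_swap]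
    · rw [← e3, e, Prod.swap_swap]
  · rw [hW, o1, o2, o3, e1, e2, e3, i1, i2, i3]
    simp
  · rw [hW, i1, i2, i3]
    simp [o1, o2, o3]
  · rw [hW (fun v => X v ↔ X (p (o v).swap)), o1, o2, o3, e1, e2, e3] at hX
    simp only [hW]
    tauto

/-- `Circ.cy`, `Circ.bf`: all darts off the triangle have `cc = 1`; `Cy.dual`, `sum_sym`. -/
theorem tri_face (hp : Pre S p t) (hs : Simple S p) (h1 : Succ S p t d1 d3.swap)
    (h2 : Succ S p t d2 d1.swap) (h3 : Succ S p t d3 d2.swap) :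
    ∃ F, Cy S p F ∧ F d2 = 1 ∧ ∀ Z, Cy S p Z → Bf S p t F Z = 0 := by
  obtain ⟨o, i, hc, o1, o2, o3, i1, i2, i3⟩ :=
    tri_circ hp hs h1.1 h2.1 h3.1 h2.2.2.1 h3.2.2.1 h1.2.2.1
  refine ⟨_, hc.cy, if_pos ⟨by simp, .inl o2.symm⟩, fun Z hZ => ?_⟩
  have hsu : ∀ v ∈ ({p d1, p d2, p d3} : Finset V), Succ S p t (o v) (i v) := by
    simp only [mem_insert, mem_singleton]
    rintro _ (rfl | rfl | rfl)
    · rwa [o1, i1]
    · rwa [o2, i2]
    · rwa [o3, i3]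
  rw [hc.bf hp hZ, sum_congr rfl (g := fun g =>
    Z g * (if p g ∈ ({p d1, p d2, p d3} : Finset V) then 1 else 0) +
      if OnC p {p d1, p d2, p d3} o i g then Z g else 0) fun g hg => ?_, sum_add_distrib,
    hZ.dual fun v => if v ∈ ({p d1, p d2, p d3} : Finset V) then 1 else 0, zero_add]
  · refine sum_sym hp.sym hp.ne fun d hd => ?_
    by_cases hd' : OnC p {p d1, p d2, p d3} o i d
    · rw [if_pos hd', if_pos (hc.onC_swap hd'), hZ.1 d hd, f2_self]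
    · rw [if_neg hd', if_neg fun h => hd' (hc.onC_swap (d := d.swap) h), add_zero]
  · by_cases hw : p g ∈ ({p d1, p d2, p d3} : Finset V)
    · by_cases ho : OnC p {p d1, p d2, p d3} o i g
      · rw [if_neg fun h => h.2 ho, if_pos hw, if_pos ho, mul_one, f2_self]
      · have k := hsu _ hw
        have n1 : g ≠ o (p g) := fun e => ho ⟨hw, .inl e⟩
        have n2 : g ≠ i (p g) := fun e => ho ⟨hw, .inr e⟩
        have e0 : p g = p (o (p g)) := (hc.po _ hw).symm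
        rw [if_pos ⟨hw, ho⟩, if_pos hw, if_neg ho, ← cc_rot,
          hp.tour.cc_swap k.1 k.2.1 hg k.2.2.1 e0 k.2.2.2.1 n1.symm n2.symm,
          k.2.2.2.2 g hg e0 n1 n2, zero_add, add_zero]
    · rw [if_neg fun h => hw h.1, if_neg hw, if_neg fun h => hw h.1, mul_zero, add_zero]

/-- Two darts from a triangle to the same outer vertex are on the same side (`Circ.colour`). -/
theorem Gd.tri_same (h : Gd S p t) (h1 : d1 ∈ S) (h2 : d2 ∈ S) (h3 : d3 ∈ S)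
    (e1 : p d1.swap = p d2) (e2 : p d2.swap = p d3) (e3 : p d3.swap = p d1) (hg : g ∈ S)
    (hg' : g' ∈ S) (f1 : p g = p d1) (f2 : p g' = p d3) (f3 : p g.swap = p g'.swap)
    (n2 : p g.swap ≠ p d2) : cc t d3.swap d1 g = cc t d2.swap d3 g' := by
  obtain ⟨o, i, hc, o1, -, o3, i1, -, i3⟩ := tri_circ h.toPre h.simple h1 h2 h3 e1 e2 e3
  obtain ⟨χ, c1, c2, c3⟩ := hc.colour h.toValid
  have hz : p g.swap ∉ ({p d1, p d2, p d3} : Finset V) := by
    simp only [mem_insert, mem_singleton, not_or]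
    exact ⟨fun e => h.simple.1 g hg (f1.trans e.symm), n2,
      fun e => h.simple.1 g' hg' (f2.trans (e.symm.trans f3))⟩
  have m1 : ¬ OnC p {p d1, p d2, p d3} o i g := fun k => hz (hc.onC_swap k).1
  have m2 : ¬ OnC p {p d1, p d2, p d3} o i g' := fun k => hz (f3 ▸ (hc.onC_swap k).1)
  have k1 := c2 g hg (by simp [f1]) m1
  have k2 := c2 g' hg' (by simp [f2]) m2
  rw [f1, o1, i1] at k1
  rw [f2, o3, i3] at k2
  rw [← k1, ← k2, ← c1 g hg m1, ← c1 g' hg' m2]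
  exact c3 _ (h.sym g hg) _ (h.sym g' hg') f3 hz

/-- Two darts from a vertex of a triangle to adjacent outer vertices are on the same side. -/
theorem Gd.tri_cross (h : Gd S p t) (h1 : d1 ∈ S) (h2 : d2 ∈ S) (h3 : d3 ∈ S)
    (e1 : p d1.swap = p d2) (e2 : p d2.swap = p d3) (e3 : p d3.swap = p d1) (hg : g ∈ S)
    (hg' : g' ∈ S) (f1 : p g = p d1) (f2 : p g' = p d1) (f3 : Ad S p (p g.swap) (p g'.swap))
    (n1 : g ≠ d1) (n2 : g ≠ d3.swap) (n3 : g' ≠ d1) (n4 : g' ≠ d3.swap) :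
    cc t d3.swap d1 g = cc t d3.swap d1 g' := by
  obtain ⟨o, i, hc, o1, -, -, i1, -, -⟩ := tri_circ h.toPre h.simple h1 h2 h3 e1 e2 e3
  obtain ⟨χ, c1, c2, c3⟩ := hc.colour h.toValid
  have key : ∀ g ∈ S, p g = p d1 → g ≠ d1 → g ≠ d3.swap →
      p g.swap ∉ ({p d1, p d2, p d3} : Finset V) ∧ χ g.swap = cc t d3.swap d1 g := by
    intro g hg f1 n1 n2
    have hz : p g.swap ∉ ({p d1, p d2, p d3} : Finset V) := by
      simp only [mem_insert, mem_singleton, not_or]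
      exact ⟨fun e => h.simple.1 g hg (f1.trans e.symm),
        fun e => n1 (h.simple.2 g hg d1 h1 f1 (e.trans e1.symm)),
        fun e => n2 (h.simple.2 g hg _ (h.sym d3 h3) (f1.trans e3.symm) e)⟩
    have m1 : ¬ OnC p {p d1, p d2, p d3} o i g := fun k => hz (hc.onC_swap k).1
    have k1 := c2 g hg (by simp [f1]) m1
    rw [f1, o1, i1] at k1
    exact ⟨hz, (c1 g hg m1).trans k1⟩
  obtain ⟨z1, k1⟩ := key g hg f1 n1 n2
  obtain ⟨z2, k2⟩ := key g' hg' f2 n3 n4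
  obtain ⟨e, he, q1, q2⟩ := f3
  rw [← k1, ← k2, c3 _ (h.sym g hg) e he q1.symm z1,
    c3 _ (h.sym g' hg') _ (h.sym e he) q2.symm z2]
  exact (c1 e he fun k => z1 (q1 ▸ k.1)).symm

theorem Gd.tri3_step (h : Gd S p t) (hm : Maxi S p t) {u v w : V} (hc : Cn S p t u v w) :
    Cn S p t w u v := by
  have hvw := hm u v w hc
  obtain ⟨z, hz⟩ := h.exists_cn (h.ad_symm hc.ad') (h.ad_symm hvw) (h.ad_ne hc.ad).symm
  by_cases hzv : z = v
  · rwa [hzv] at hz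
  exfalso
  obtain ⟨g, hg, g1, g2⟩ := hm w u z hz
  obtain ⟨g', hg', g3, g4⟩ := hz.ad'
  obtain ⟨d, hd, q1, q2⟩ := hvw
  have hwz := h.ad_ne hz.ad'
  have huv := h.ad_ne hc.ad
  obtain ⟨a, b, hab, a1, a2, a3⟩ := hc
  have b1 : p b = u := hab.2.2.1.trans a1
  have hs := h.cn_succ hz (h.sym b hab.2.1) hg' a3 b1 g3 g4
  have k := h.tri_same hab.1 hd (h.sym b hab.2.1) (a2.trans q1.symm) (q2.trans a3.symm)
    hab.2.2.1 hg hg' (g1.trans a1.symm) (g3.trans a3.symm) (g2.trans g4.symm)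
    (by rw [g2, q1]; exact hzv)
  have n1 : g ≠ a := by
    rintro rfl
    exact hzv (g2.symm.trans a2)
  have n2 : g ≠ b := by
    rintro rfl
    exact hwz (a3.symm.trans g2)
  have n3 : d.swap ≠ b.swap := fun e => huv (by rw [← b1, ← q1, Prod.swap_injective e])
  have n4 : d.swap ≠ g' := by
    rintro rfl
    exact hzv (g4.symm.trans q1)
  rw [Prod.swap_swap, ← cc_rot, h.tour.cc_swap hab.1 hab.2.1 hg hab.2.2.1 (g1.trans a1.symm)
    hab.2.2.2.1 n1.symm n2.symm, hab.2.2.2.2 g hg (g1.trans a1.symm) n1 n2, ← cc_rot,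
    hs.2.2.2.2 _ (h.sym d hd) (q2.trans a3.symm) n3 n4] at k
  exact absurd k (by decide)

/-- In a maximal map every corner belongs to a triangular face. Show `Cn u v w → Cn w u v` and
use it twice: if the successor of `w u` at `w` leads to `z ≠ v`, then `u z` is an edge and
`tri_same` fails. -/
theorem Gd.fc (h : Gd S p t) (hm : Maxi S p t) {u v w : V} (hc : Cn S p t u v w) :
    Fc S p t u v w :=
  ⟨hc, h.tri3_step hm (h.tri3_step hm hc), h.tri3_step hm hc⟩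

end Pool.Agent.P.MP_2b4a47_lc.HT
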