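import Pool.Agent.P.MP_2b4a47_lc.HT.Ins
import Pool.Agent.P.MP_2b4a47_lc.HT.Tri3

/-! Adding bridges and diagonals. -/

namespace Pool.Agent.P.MP_2b4a47_lc.HT

open Finset

variable {V N : Type} [DecidableEq V] [DecidableEq N] {S : Finset (Dt N)} {p p' : Dt N → V}
  {t t' : Dt N → Dt N → F2} {Z Z' Y : Dt N → F2} {x y n : Dt N} {κ : F2}

omit [DecidableEq V] in
theorem grow_ad (hs : ∀ d ∈ S, d.swap ∈ S) (hp : ∀ d ∈ S, p' d = p d) {u w : V} (e1 : p' n = u)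
    (e2 : p' n.swap = w) (a b : V) :
    Ad (ad S n) p' a b ↔ Ad S p a b ∨ (a = u ∧ b = w) ∨ (a = w ∧ b = u) := by
  constructor
  · rintro ⟨d, hd, f1, f2⟩
    rcases mem_ad.1 hd with rfl | rfl | hd
    · exact .inr (.inl ⟨f1.symm.trans e1, f2.symm.trans e2⟩)
    · exact .inr (.inr ⟨f1.symm.trans e2, f2.symm.trans e1⟩)
    · exact .inl ⟨d, hd, (hp d hd).symm.trans f1, (hp _ (hs d hd)).symm.trans f2⟩
  · rintro (⟨d, hd, f1, f2⟩ | ⟨rfl, rfl⟩ | ⟨rfl, rfl⟩)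
    · exact ⟨d, mem_ad.2 (.inr (.inr hd)), (hp d hd).trans f1, (hp _ (hs d hd)).trans f2⟩
    · exact ⟨n, mem_ad.2 (.inl rfl), e1, e2⟩
    · exact ⟨n.swap, mem_ad.2 (.inr (.inl rfl)), e2, e1⟩

omit [DecidableEq V] [DecidableEq N] in
theorem grow_pick [Infinite N] {u u' : V} (hu : ∀ z, Ad S p u z → Ad S p u u') :
    ∃ x : Dt N, ∀ g ∈ S, p g = u → x ∈ S ∧ p x = u ∧ p x.swap = u' := by
  by_cases h : Ad S p u u'
  · obtain ⟨d, hd⟩ := h
    exact ⟨d, fun _ _ _ => hd⟩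
  · exact ⟨Classical.arbitrary _, fun g hg e => absurd (hu _ ⟨g, hg, e, rfl⟩) h⟩

/-- `ins2` with `f1 = f2 = true`, `x` the dart `u u'`, `y` the dart `w w'` (any dart if there is
none). A cycle has `Z n = 0` by `Cy.dual` for the indicator of `X` and `sum_sym`; `bf_ad`. -/
theorem Gd.join [Infinite N] (h : Gd S p t) (X : V → Prop) (hX : ∀ a b, Ad S p a b → X a → X b)
    {u w u' w' : V} (h1 : X u) (h2 : ¬ X w) (hu : ∀ z, Ad S p u z → Ad S p u u')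
    (hw : ∀ z, Ad S p w z → Ad S p w w') :
    ∃ (S' : Finset (Dt N)) (p' : Dt N → V) (t' : Dt N → Dt N → F2), Gd S' p' t' ∧
      (∀ a b, Ad S' p' a b ↔ Ad S p a b ∨ (a = u ∧ b = w) ∨ (a = w ∧ b = u)) ∧
      ∀ a b c, Cn S p t a b c → ¬ (a = u ∧ b = u') → ¬ (a = w ∧ b = w') → Cn S' p' t' a b c := by
  classical
  obtain ⟨x, hx⟩ := grow_pick hu
  obtain ⟨y, hy⟩ := grow_pick hw
  obtain ⟨n, p', t', n1, n2, e1, e2, hp, ht, pre, cyc, sim, hs, -, -⟩ :=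
    h.ins2 (u := u) (w := w) (x := x) (y := y) (fun e => h2 (e ▸ h1)) (fun e => h2 (hX _ _ e h1))
      (fun g hg e => ⟨(hx g hg e).1, (hx g hg e).2.1⟩)
      (fun g hg e => ⟨(hy g hg e).1, (hy g hg e).2.1⟩) true true
  have n3 : n.swap ≠ n := pre.ne n (mem_ad.2 (.inl rfl))
  have hz : ∀ Z, Cy (ad S n) p' Z → Z n = 0 := fun Z hZ => by
    have e := hZ.dual fun v => if X v then 1 else 0
    rw [sum_ad n1 n2 n3, e1, e2, if_pos h1, if_neg h2, sum_sym h.sym h.ne fun d hd => ?_] at e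
    · simpa using e
    · have e3 : X (p d.swap) ↔ X (p d) :=
        ⟨hX _ _ ⟨d.swap, h.sym d hd, rfl, rfl⟩, hX _ _ ⟨d, hd, rfl, rfl⟩⟩
      rw [hZ.1 d (mem_ad.2 (.inr (.inr hd))), hp d hd, hp _ (h.sym d hd)]
      simp only [e3]
      exact f2_self _
  refine ⟨ad S n, p', t', ⟨⟨pre, fun Z Z' hZ hZ' => h.toValid.bf_ad n1 n2 n3 hp ht hZ hZ'
    (hz Z hZ) (hz Z' hZ')⟩, cyc, sim⟩, grow_ad h.sym hp e1 e2, ?_⟩
  rintro a b c ⟨d, d', s, f1, f2, f3⟩ k1 k2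
  refine ⟨d, d', hs d d' s (fun e e' => k1 ⟨f1.symm.trans e, ?_⟩) fun e e' => k2 ⟨f1.symm.trans e, ?_⟩,
    (hp d s.1).trans f1, (hp _ (h.sym d s.1)).trans f2, (hp _ (h.sym d' s.2.1)).trans f3⟩
  · have e'' : d = x := e'
    rw [← f2, e'']
    exact (hx d s.1 e).2.2
  · have e'' : d = y := e'
    rw [← f2, e'']
    exact (hy d s.1 e).2.2

/-- `ins2` from `v` to `w` with `x` the dart `v u`, `f1 = false`, `y` the dart `w u`, `f2 = true`.
With `F` from `tri_face`, `Z + Z n * F` avoids `n`; `bf_ad`, `Bf_comm`. A face with a destroyed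
corner would be `u v w` (`cn_uniq`, `cn_uniq'`), but `v w` is no edge. -/
theorem Gd.diagonal [Infinite N] (h : Gd S p t) {u v w : V} (hc : Cn S p t u v w)
    (hn : ¬ Ad S p v w) :
    ∃ (S' : Finset (Dt N)) (p' : Dt N → V) (t' : Dt N → Dt N → F2), Gd S' p' t' ∧ #S < #S' ∧
      (∀ a b, Ad S' p' a b ↔ Ad S p a b ∨ (a = v ∧ b = w) ∨ (a = w ∧ b = v)) ∧
      Fc S' p' t' u v w ∧ ∀ a b c, Fc S p t a b c → Fc S' p' t' a b c := by
  have huv := h.ad_ne hc.ad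
  have huw := h.ad_ne hc.ad'
  obtain ⟨a, b, s, g1, g2, g3⟩ := id hc
  have g4 : p b = u := s.2.2.1.trans g1
  have ha := h.sym a s.1
  have hb := h.sym b s.2.1
  obtain ⟨n, p', t', n1, n2, e1, e2, hp, ht, pre, cyc, sim, hs, s2, s3⟩ :=
    h.ins2 (u := v) (w := w) (x := a.swap) (y := b.swap) (h.cn_ne hc) hn
      (fun _ _ _ => ⟨ha, g2⟩) (fun _ _ _ => ⟨hb, g3⟩) false true
  have n3 : n.swap ≠ n := pre.ne n (mem_ad.2 (.inl rfl))
  have t1 : Succ (ad S n) p' t' a b :=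
    hs a b s (fun e => absurd (g1.symm.trans e) huv) fun e => absurd (g1.symm.trans e) huw
  have t2 : Succ (ad S n) p' t' n a.swap := s2 ha g2
  have t3 : Succ (ad S n) p' t' b.swap n.swap := s3 hb g3
  obtain ⟨F, hF, F1, F0⟩ := tri_face (d1 := a) (d2 := n) (d3 := b.swap) pre sim t1 t2 t3
  have hv : Valid (ad S n) p' t' := by
    refine ⟨pre, fun Z Z' hZ hZ' => ?_⟩
    have c1 := hZ.add (hF.mul (Z n))
    have c2 := hZ'.add (hF.mul (Z' n))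
    have e := h.toValid.bf_ad n1 n2 n3 hp ht c1 c2 (by rw [F1, mul_one, f2_self])
      (by rw [F1, mul_one, f2_self])
    rwa [Bf_add_left, Bf_mul_left, F0 _ c2, mul_zero, add_zero, pre.Bf_comm hZ c2, Bf_add_left,
      Bf_mul_left, F0 _ hZ, mul_zero, add_zero, pre.Bf_comm hZ' hZ] at e
  have key : ∀ a' b' c', Fc S p t a' b' c' → Cn (ad S n) p' t' a' b' c' := by
    rintro a' b' c' ⟨k1, k2, k3⟩
    obtain ⟨d, d', s', f1, f2, f3⟩ := id k1
    refine ⟨d, d', hs d d' s' (fun e e' => hn ?_) fun e e' => hn ?_, (hp d s'.1).trans f1,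
      (hp _ (h.sym d s'.1)).trans f2, (hp _ (h.sym d' s'.2.1)).trans f3⟩
    · have e'' : d' = a.swap := e'
      obtain rfl : a' = v := f1.symm.trans e
      obtain rfl : c' = u := by rw [← f3, e'']; exact g1
      rw [← h.cn_uniq k3 hc]
      exact k1.ad
    · have e'' : d = b.swap := e'
      obtain rfl : a' = w := f1.symm.trans e
      obtain rfl : b' = u := by rw [← f2, e'']; exact g4
      rw [← h.cn_uniq' k2 hc]
      exact k3.ad
  refine ⟨ad S n, p', t', ⟨hv, cyc, sim⟩, card_lt_card ⟨fun d hd => mem_ad.2 (.inr (.inr hd)),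
    fun e => n1 (e (mem_ad.2 (.inl rfl)))⟩, grow_ad h.sym hp e1 e2, ⟨?_, ?_, ?_⟩,
    fun a' b' c' k => ⟨key _ _ _ k, key _ _ _ k.rot, key _ _ _ k.rot.rot⟩⟩
  · exact ⟨a, b, t1, (hp a s.1).trans g1, (hp _ ha).trans g2, (hp _ hb).trans g3⟩
  · exact ⟨n, a.swap, t2, e1, e2, (hp a s.1).trans g1⟩
  · exact ⟨b.swap, n.swap, t3, (hp _ hb).trans g3, (hp b s.2.1).trans g4, e1⟩

theorem grow_card (h : Gd S p t) (U : Finset V) (hU : ∀ a b, Ad S p a b → a ∈ U) :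
    #S ≤ #U * #U := by
  rw [← card_product]
  refine card_le_card_of_injOn (fun d => (p d, p d.swap)) (fun d hd => ?_) fun d hd e he k => ?_
  · exact mem_coe.2 (mem_product.2 ⟨hU _ _ ⟨d, hd, rfl, rfl⟩, hU _ _ ⟨d.swap, h.sym d hd, rfl, rfl⟩⟩)
  · exact h.simple.2 d hd e he (congrArg Prod.fst k) (congrArg Prod.snd k)

/-- `#S ≤ #U * #U` by simplicity; induct on the difference. -/
theorem Gd.maxi [Infinite N] (h : Gd S p t) (U : Finset V) (hU : ∀ a b, Ad S p a b → a ∈ U) :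
    ∃ (S' : Finset (Dt N)) (p' : Dt N → V) (t' : Dt N → Dt N → F2), Gd S' p' t' ∧ Maxi S' p' t' ∧
      (∀ a b, Ad S' p' a b → a ∈ U) ∧ (∀ a b, Ad S p a b → Ad S' p' a b) ∧
      ∀ a b c, Fc S p t a b c → Fc S' p' t' a b c := by
  obtain ⟨k, hk⟩ : ∃ k, #U * #U < #S + k := ⟨#U * #U + 1, by omega⟩
  induction k generalizing S p t with
  | zero => exact absurd (grow_card h U hU) (by omega)
  | succ k ih =>
    by_cases hm : Maxi S p t
    · exact ⟨S, p, t, h, hm, hU, fun _ _ e => e, fun _ _ _ e => e⟩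
    simp only [Maxi, not_forall] at hm
    obtain ⟨u, v, w, hc, hn⟩ := hm
    obtain ⟨S₁, p₁, t₁, h₁, c₁, a₁, -, f₁⟩ := h.diagonal hc hn
    obtain ⟨S₂, p₂, t₂, h₂, m₂, u₂, a₂, f₂⟩ := ih h₁ (fun a b e => by
      rcases (a₁ a b).1 e with e | ⟨rfl, -⟩ | ⟨rfl, -⟩
      exacts [hU a b e, hU _ _ (h.ad_symm hc.ad), hU _ _ (h.ad_symm hc.ad')]) (by omega)
    exact ⟨S₂, p₂, t₂, h₂, m₂, u₂, fun a b e => a₂ a b ((a₁ a b).2 (.inl e)),
      fun a b c e => f₂ a b c (f₁ a b c e)⟩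

end Pool.Agent.P.MP_2b4a47_lc.HT
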