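import Pool.Agent.P.MP_2b4a47_lc.HT.Map

/-! Inserting a dart next to another one. -/

namespace Pool.Agent.P.MP_2b4a47_lc.HT

open Finset

variable {V N : Type} [DecidableEq V] [DecidableEq N] {S : Finset (Dt N)} {p p' : Dt N → V}
  {t t' : Dt N → Dt N → F2} {Z Z' Y : Dt N → F2} {x y n : Dt N} {κ : F2}

theorem ins_ex (t : Dt N → Dt N → F2) (hn : n ∉ S) (x : Dt N) (β δ : F2) :
    ∃ t' : Dt N → Dt N → F2, (∀ a ∈ S, ∀ b ∈ S, t' a b = t a b) ∧ t' n n = δ ∧
      (∀ g ∈ S, g ≠ x → t' n g = t x g ∧ t' g n = t g x) ∧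
      (x ∈ S → t' x n = β ∧ t' n x = β + 1) := by
  have h : ∀ a ∈ S, a ≠ n := fun a ha e => hn (e ▸ ha)
  refine ⟨fun a b => if a = n then (if b = n then δ else if b = x then β + 1 else t x b)
    else if b = n then (if a = x then β else t a x) else t a b, fun a ha b hb => ?_, ?_,
    fun g hg hx => ?_, fun hx => ?_⟩
  · simp only [if_neg (h a ha), if_neg (h b hb)]
  · simp only [if_true]
  · simp only [if_true, if_neg (h g hg), if_neg hx, and_self]
  · simp only [if_true, if_neg (h x hx), and_self]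

/-- `t' n g = t x g`, `t' g n = t g x` for `g ≠ x`, `t' x n = if f then 1 else 0`,
`t' n x = t' x n + 1`. Then `cc t' x n g` is constant and `cc t' n g g' = cc t x g g'`. -/
theorem ins1 (ht : Tour S p t) (hc : Cyc S p t) (hn : n ∉ S) (hp : ∀ d ∈ S, p' d = p d)
    (hx : ∀ g ∈ S, p g = p' n → x ∈ S ∧ p x = p' n) (f : Bool) (δ : F2) :
    ∃ t', Tour (insert n S) p' t' ∧ Cyc (insert n S) p' t' ∧
      (∀ a ∈ S, ∀ b ∈ S, t' a b = t a b) ∧ t' n n = δ ∧
      (∀ a b, Succ S p t a b → (p a = p' n → (if f then a else b) ≠ x) →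
        Succ (insert n S) p' t' a b) ∧
      (x ∈ S → p x = p' n →
        if f then Succ (insert n S) p' t' x n else Succ (insert n S) p' t' n x) := by
  obtain ⟨β, hβ⟩ : ∃ β : F2, β = if f then 1 else 0 := ⟨_, rfl⟩
  obtain ⟨t', D, hδ, A, C⟩ := ins_ex t hn x β δ
  have T : ∀ g ∈ S, p g = p' n → t' n g + t' g n = 1 := by
    intro g hg e
    obtain ⟨h1, h2⟩ := hx g hg e
    by_cases e1 : g = x
    · rw [e1, (C h1).1, (C h1).2]
      linear_combination f2_self β
    · rw [(A g hg e1).1, (A g hg e1).2]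
      exact ht x h1 g hg (h2.trans e.symm) (Ne.symm e1)
  have core : ∀ a ∈ S, ∀ b ∈ S, ∀ c ∈ S, p a = p' n → p b = p' n → p c = p' n → a ≠ b → a ≠ c →
      b ≠ c → (cc t' n a b = 0 → cc t' n b c = 0 → cc t' n a c = 0) ∧
        (cc t' a n b = 0 → cc t' a b c = 0 → cc t' a n c = 0) ∧
        (cc t' a b n = 0 → cc t' a n c = 0 → cc t' a b c = 0) ∧
        (cc t' a b c = 0 → cc t' a c n = 0 → cc t' a b n = 0) := by
    intro a ha b hb c hc' e1 e2 e3 n1 n2 n3
    obtain ⟨h1, h2⟩ := hx a ha e1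
    have t1 := ht a ha b hb (e1.trans e2.symm) n1
    have t2 := ht a ha c hc' (e1.trans e3.symm) n2
    have t3 := ht b hb c hc' (e2.trans e3.symm) n3
    simp only [cc, D a ha b hb, D b hb c hc', D a ha c hc', D c hc' a ha, D b hb a ha]
    by_cases a1 : a = x
    · subst a1
      simp only [C h1, A b hb n1.symm, A c hc' n2.symm]
      grind
    by_cases b1 : b = x
    · subst b1
      simp only [C h1, A a ha n1, A c hc' n3.symm]
      grind
    by_cases c1 : c = x
    · subst c1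
      simp only [C h1, A a ha n2, A b hb n3]
      grind
    simp only [A a ha a1, A b hb b1, A c hc' c1]
    have f1 := e1.trans h2.symm
    have f2 := e2.trans h2.symm
    have f3 := e3.trans h2.symm
    exact ⟨hc x h1 a ha b hb c hc' f1 f2 f3 (Ne.symm a1) (Ne.symm b1) (Ne.symm c1) n1 n2 n3,
      hc a ha x h1 b hb c hc' f1.symm (e2.trans e1.symm) (e3.trans e1.symm) a1 n1 n2 (Ne.symm b1)
        (Ne.symm c1) n3,
      hc a ha b hb x h1 c hc' (e2.trans e1.symm) f1.symm (e3.trans e1.symm) n1 a1 n2 b1 n3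
        (Ne.symm c1),
      hc a ha b hb c hc' x h1 (e2.trans e1.symm) (e3.trans e1.symm) f1.symm n1 n2 a1 n3 b1 c1⟩
  refine ⟨t', fun d hd e he h1 h2 => ?_,
    fun a ha b hb c hc' d hd e1 e2 e3 n1 n2 n3 n4 n5 n6 => ?_, D, hδ, fun a b h h1 => ?_,
    fun h1 h2 => ?_⟩
  · replace hd := mem_insert.1 hd
    replace he := mem_insert.1 he
    rcases hd with rfl | hd <;> rcases he with rfl | he
    · exact absurd rfl h2
    · exact T e he ((hp e he).symm.trans h1.symm)
    · rw [add_comm]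
      exact T d hd ((hp d hd).symm.trans h1)
    · rw [D d hd e he, D e he d hd]
      exact ht d hd e he ((hp d hd).symm.trans (h1.trans (hp e he))) h2
  · have m : ∀ {d e : Dt N}, d ∈ insert e S → d ≠ e → d ∈ S := fun h h' =>
      (mem_insert.1 h).resolve_left h'
    by_cases a1 : a = n
    · subst a1
      have hb := m hb n1.symm
      have hc' := m hc' n2.symm
      have hd := m hd n3.symm
      exact (core b hb c hc' d hd ((hp b hb).symm.trans e1) ((hp c hc').symm.trans e2)
        ((hp d hd).symm.trans e3) n4 n5 n6).1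
    replace ha := m ha a1
    by_cases b1 : b = n
    · subst b1
      have hc' := m hc' n4.symm
      have hd := m hd n5.symm
      exact (core a ha c hc' d hd ((hp a ha).symm.trans e1.symm)
        ((hp c hc').symm.trans (e2.trans e1.symm)) ((hp d hd).symm.trans (e3.trans e1.symm))
        n2 n3 n6).2.1
    replace hb := m hb b1
    by_cases c1 : c = n
    · subst c1
      have hd := m hd n6.symm
      exact (core a ha b hb d hd ((hp a ha).symm.trans e2.symm)
        ((hp b hb).symm.trans (e1.trans e2.symm)) ((hp d hd).symm.trans (e3.trans e2.symm))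
        n1 n3 n5).2.2.1
    replace hc' := m hc' c1
    by_cases d1 : d = n
    · subst d1
      exact (core a ha b hb c hc' ((hp a ha).symm.trans e3.symm)
        ((hp b hb).symm.trans (e1.trans e3.symm)) ((hp c hc').symm.trans (e2.trans e3.symm))
        n1 n2 n4).2.2.2
    replace hd := m hd d1
    rw [hp a ha, hp _ ‹_›] at e1 e2 e3
    simp only [cc, D a ha b hb, D b hb c hc', D c hc' a ha, D a ha c hc', D c hc' d hd,
      D d hd a ha, D b hb d hd]
    exact hc a ha b hb c hc' d hd e1 e2 e3 n1 n2 n3 n4 n5 n6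
  · obtain ⟨ha, hb, e1, n1, h2⟩ := h
    refine ⟨mem_insert_of_mem ha, mem_insert_of_mem hb, by rw [hp a ha, hp b hb, e1], n1,
      fun g hg e2 n2 n3 => ?_⟩
    rw [hp a ha] at e2
    rcases mem_insert.1 hg with rfl | hg
    · obtain ⟨h3, h4⟩ := hx a ha e2.symm
      have h5 := h1 e2.symm
      have t1 := ht a ha b hb e1.symm n1
      rw [cc, D a ha b hb]
      by_cases a1 : a = x
      · subst a1
        obtain rfl : f = false := by
          cases f
          exacts [rfl, absurd rfl h5]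
        rw [(C h3).2, (A b hb n1.symm).2, hβ, t1]
        decide
      by_cases b1 : b = x
      · subst b1
        obtain rfl : f = true := by
          cases f
          exacts [absurd rfl h5, rfl]
        rw [(C h3).1, (A a ha n1).1, hβ, add_right_comm, t1]
        decide
      rw [(A a ha a1).1, (A b hb b1).2]
      exact h2 x h3 (h4.trans e2) (Ne.symm a1) (Ne.symm b1)
    · rw [cc, D a ha b hb, D b hb g hg, D g hg a ha]
      exact h2 g hg ((hp g hg).symm.trans e2) n2 n3
  · have n1 : x ≠ n := fun e => hn (e ▸ h1)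
    have e1 : p' x = p' n := (hp x h1).trans h2
    cases f
    · refine ⟨mem_insert_self _ _, mem_insert_of_mem h1, e1, n1.symm, fun g hg e2 n2 n3 => ?_⟩
      have hg := (mem_insert.1 hg).resolve_left n2
      rw [cc, (C h1).2, D x h1 g hg, (A g hg n3).2, hβ, add_assoc,
        ht x h1 g hg (h2.trans (e2.symm.trans (hp g hg))) n3.symm]
      decide
    · refine ⟨mem_insert_of_mem h1, mem_insert_self _ _, e1.symm, n1, fun g hg e2 n2 n3 => ?_⟩
      have hg := (mem_insert.1 hg).resolve_left n3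
      rw [cc, (C h1).1, D g hg x h1, (A g hg n2).1, hβ, add_assoc,
        ht x h1 g hg ((hp x h1).symm.trans (e2.symm.trans (hp g hg))) n2.symm]
      decide

/-- `exists_fresh`, then `ins1` for `n.swap` and for `n`. -/
theorem Gd.ins2 [Infinite N] (h : Gd S p t) {u w : V} (huw : u ≠ w) (hna : ¬ Ad S p u w)
    (hx : ∀ g ∈ S, p g = u → x ∈ S ∧ p x = u) (hy : ∀ g ∈ S, p g = w → y ∈ S ∧ p y = w)
    (f1 f2 : Bool) :
    ∃ n p' t', n ∉ S ∧ n.swap ∉ S ∧ p' n = u ∧ p' n.swap = w ∧ (∀ d ∈ S, p' d = p d) ∧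
      (∀ a ∈ S, ∀ b ∈ S, t' a b = t a b) ∧ Pre (ad S n) p' t' ∧ Cyc (ad S n) p' t' ∧
      Simple (ad S n) p' ∧
      (∀ a b, Succ S p t a b → (p a = u → (if f1 then a else b) ≠ x) →
        (p a = w → (if f2 then a else b) ≠ y) → Succ (ad S n) p' t' a b) ∧
      (x ∈ S → p x = u → if f1 then Succ (ad S n) p' t' x n else Succ (ad S n) p' t' n x) ∧
      (y ∈ S → p y = w →
        if f2 then Succ (ad S n) p' t' y n.swap else Succ (ad S n) p' t' n.swap y) := by
  obtain ⟨n, h1, h2, h3⟩ := exists_fresh S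
  obtain ⟨p', e1, e2, hp⟩ : ∃ p' : Dt N → V, p' n = u ∧ p' n.swap = w ∧ ∀ d ∈ S, p' d = p d :=
    ⟨fun d => if d = n then u else if d = n.swap then w else p d, if_pos rfl,
      by simp only [if_neg h3, if_true], fun d hd =>
        (if_neg fun e : d = n => h1 (e ▸ hd)).trans (if_neg fun e : d = n.swap => h2 (e ▸ hd))⟩
  subst e1 e2
  obtain ⟨t₁, a1, a2, a3, a4, a5, a6⟩ := ins1 h.tour h.cyc h2 hp hy f2 0
  obtain ⟨t', b1, b2, b3, b4, b5, b6⟩ := ins1 (x := x) (p' := p') (n := n) a1 a2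
    (by simp [h1, h3.symm]) (fun _ _ => rfl) (fun g hg e => by
      rcases mem_insert.1 hg with rfl | hg
      · exact absurd e.symm huw
      · obtain ⟨h4, h5⟩ := hx g hg ((hp g hg).symm.trans e)
        exact ⟨mem_insert_of_mem h4, (hp x h4).trans h5⟩) f1 1
  have D : ∀ a ∈ S, ∀ b ∈ S, t' a b = t a b := fun a ha b hb =>
    (b3 a (mem_insert_of_mem ha) b (mem_insert_of_mem hb)).trans (a3 a ha b hb)
  have b7 : t' n.swap n.swap = 0 := (b3 _ (mem_insert_self _ _) _ (mem_insert_self _ _)).trans a4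
  have k1 : ∀ e ∈ S, p' e = p' n → p' e.swap = p' n.swap → False := fun e he g1 g2 =>
    hna ⟨e, he, (hp e he).symm.trans g1, (hp _ (h.sym e he)).symm.trans g2⟩
  have k2 : ∀ e ∈ S, p' e = p' n.swap → p' e.swap = p' n → False := fun e he g1 g2 =>
    k1 e.swap (h.sym e he) g2 g1
  refine ⟨n, p', t', h1, h2, rfl, rfl, hp, D, ⟨fun d hd => ?_, fun d hd => ?_, b1, fun d hd => ?_⟩,
    b2, ⟨fun d hd => ?_, fun d hd e he g1 g2 => ?_⟩, fun a b g1 g2 g3 => ?_, fun g1 g2 => ?_,
    fun g1 g2 => ?_⟩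
  · rcases mem_ad.1 hd with rfl | rfl | hd
    exacts [mem_ad.2 (.inr (.inl rfl)), mem_ad.2 (.inl rfl), mem_ad.2 (.inr (.inr (h.sym d hd)))]
  · rcases mem_ad.1 hd with rfl | rfl | hd
    exacts [h3, h3.symm, h.ne d hd]
  · rcases mem_ad.1 hd with rfl | rfl | hd
    · rw [b4, b7, add_zero]
    · rw [Prod.swap_swap, b4, b7, zero_add]
    · rw [D d hd d hd, D _ (h.sym d hd) _ (h.sym d hd)]
      exact h.diag d hd
  · rcases mem_ad.1 hd with rfl | rfl | hd
    · exact huw
    · exact huw.symm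
    · rw [hp d hd, hp _ (h.sym d hd)]
      exact h.simple.1 d hd
  · replace hd := mem_ad.1 hd
    replace he := mem_ad.1 he
    rcases hd with rfl | rfl | hd <;> rcases he with rfl | rfl | he
    · rfl
    · exact absurd g1 huw
    · exact (k1 e he g1.symm g2.symm).elim
    · exact absurd g1.symm huw
    · rfl
    · exact (k2 e he g1.symm g2.symm).elim
    · exact (k1 d hd g1 g2).elim
    · exact (k2 d hd g1 g2).elim
    · rw [hp d hd, hp e he] at g1
      rw [hp _ (h.sym d hd), hp _ (h.sym e he)] at g2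
      exact h.simple.2 d hd e he g1 g2
  · exact b5 a b (a5 a b g1 g3) fun e => g2 ((hp a g1.1).symm.trans e)
  · exact b6 (mem_insert_of_mem g1) ((hp x g1).trans g2)
  · have h4 := a6 g1 g2
    cases f2
    · exact b5 _ _ h4 fun e => absurd e.symm huw
    · exact b5 _ _ h4 fun e => absurd (e.symm.trans ((hp y g1).trans g2)) huw

/-- Cycles that avoid the new edge are cycles of the old map. -/
theorem Valid.bf_ad (h : Valid S p t) (h1 : n ∉ S) (h2 : n.swap ∉ S) (h3 : n.swap ≠ n)
    (hp : ∀ d ∈ S, p' d = p d) (ht : ∀ a ∈ S, ∀ b ∈ S, t' a b = t a b)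
    (hZ : Cy (ad S n) p' Z) (hZ' : Cy (ad S n) p' Z') (e1 : Z n = 0) (e2 : Z' n = 0) :
    Bf (ad S n) p' t' Z Z' = 0 := by
  have key : ∀ Z : Dt N → F2, Cy (ad S n) p' Z → Z n = 0 → Z n.swap = 0 ∧ Cy S p Z := by
    intro Z hZ e
    have e' : Z n.swap = 0 := (hZ.1 n (mem_ad.2 (.inl rfl))).trans e
    refine ⟨e', fun d hd => hZ.1 d (mem_ad.2 (.inr (.inr hd))), fun v => ?_⟩
    have := hZ.2 v
    rw [deg, sum_ad h1 h2 h3, e, e', ite_self, ite_self, zero_add, zero_add] at this
    exact (sum_congr rfl fun d hd => by rw [hp d hd]).trans this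
  obtain ⟨f1, g1⟩ := key Z hZ e1
  obtain ⟨f2, g2⟩ := key Z' hZ' e2
  refine Eq.trans ?_ (h.zero Z Z' g1 g2)
  simp only [Bf, sum_ad h1 h2 h3, e1, e2, f1, f2, zero_mul, mul_zero, ite_self, sum_const_zero,
    zero_add]
  exact sum_congr rfl fun d hd => sum_congr rfl fun e he => by rw [hp d hd, hp e he, ht d hd e he]

end Pool.Agent.P.MP_2b4a47_lc.HT
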