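import Pool.Agent.P.MP_2b4a47_lc.HT.Gauss
import Pool.Agent.P.MP_2b4a47_lc.Line

/-! Embeddability of graphs in the line is in `P`. -/

namespace Pool.Agent.P.MP_2b4a47_lc.HT

open Pool.Agent.Lib.NP N68a2faeb

/-- The linear system of the line. -/
def lineP_eqs (L : List (List Nm)) : List (List (Nm × Nm) × Bool) :=
  (L.flatten.flatMap fun a => (L.flatten.filter fun b => decide (b ≠ a)).map fun b =>
    ([(a, b), (b, a)], true)) ++
  L.flatMap fun l => l.flatMap fun a => l.flatMap fun b =>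
    (L.flatten.filter fun v => decide (v ≠ a) && decide (v ≠ b)).map fun v =>
      ([(v, a), (v, b)], false)

theorem lineP_pt : PT lineP_eqs := by
  unfold lineP_eqs
  fun_prop

/-- A tournament in which no vertex separates the ends of an edge. -/
def lineP_Sys (L : List (List Nm)) (o : Nm × Nm → F2) : Prop :=
  (∀ a ∈ L.flatten, ∀ b ∈ L.flatten, b ≠ a → o (a, b) + o (b, a) = 1) ∧
    ∀ l ∈ L, ∀ a ∈ l, ∀ b ∈ l, ∀ v ∈ L.flatten, v ≠ a → v ≠ b → o (v, a) = o (v, b)

theorem lineP_add (x y : F2) : x + y = 0 ↔ x = y := by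
  revert x y
  decide

theorem lineP_sat (L : List (List Nm)) (o : Nm × Nm → F2) :
    (∀ e ∈ lineP_eqs L, Sat o e) ↔ lineP_Sys L o := by
  simp only [lineP_eqs, lineP_Sys, List.forall_mem_append, List.forall_mem_flatMap,
    List.forall_mem_map, List.mem_filter, Sat, List.map_cons, List.map_nil, List.sum_cons,
    List.sum_nil, add_zero, if_true, Bool.false_eq_true, if_false, lineP_add, and_imp,
    decide_eq_true_eq, Bool.and_eq_true]

theorem lineP_of_ok {L : List (List Nm)} {p : Nm → ℝ} (h : line_ok L p) :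
    lineP_Sys L fun x => if p x.1 < p x.2 then 1 else 0 := by
  refine ⟨fun a ha b hb hab => ?_, fun l hl a ha b hb v hv h1 h2 => ?_⟩
  · rcases lt_trichotomy (p a) (p b) with q | q | q
    · simp [q, q.not_gt]
    · exact absurd (h.1 a ha b hb q).symm hab
    · simp [q, q.not_gt]
  · have key : ∀ a ∈ l, ∀ b ∈ l, v ≠ b → p v < p a → p v < p b := fun a ha b hb h2 q => by
      rcases lt_trichotomy (p v) (p b) with r | r | r
      · exact r
      · exact absurd (h.1 v hv b (List.mem_flatten.2 ⟨l, hl, hb⟩) r) h2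
      · exact absurd q (h.2 l hl b hb a ha v hv r)
    exact if_congr ⟨key a ha b hb h2, key b hb a ha h1⟩ rfl rfl

/-- No cyclic triangle has two vertices in the same component. -/
theorem lineP_acyc {L : List (List Nm)} {o : Nm × Nm → F2} (h : lineP_Sys L o) {a b c : Nm}
    (ha : a ∈ L.flatten) (hc : c ∈ L.flatten) (hab : b ≠ a) (hbc : b ≠ c) (hac : c ≠ a)
    (h1 : o (a, b) ≠ o (a, c)) (h2 : o (c, b) ≠ o (c, a))
    (hr : Relation.ReflTransGen (Adj L) b a) : False := by
  have key : ∀ x, Relation.ReflTransGen (Adj L) b x →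
      x ≠ a ∧ x ≠ c ∧ o (a, b) = o (a, x) ∧ o (c, b) = o (c, x) := by
    intro x hx
    induction hx with
    | refl => exact ⟨hab, hbc, rfl, rfl⟩
    | @tail x y _ hy ih =>
      obtain ⟨-, l, hl, m1, m2⟩ := hy
      obtain ⟨i1, i2, i3, i4⟩ := ih
      have ya : y ≠ a := by
        rintro rfl
        exact h2 (i4.trans (h.2 l hl x m1 y m2 c hc i2.symm hac))
      have yc : y ≠ c := by
        rintro rfl
        exact h1 (i3.trans (h.2 l hl x m1 y m2 a ha i1.symm hac.symm))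
      exact ⟨ya, yc, i3.trans (h.2 l hl x m1 y m2 a ha i1.symm ya.symm),
        i4.trans (h.2 l hl x m1 y m2 c hc i2.symm yc.symm)⟩
  exact (key a hr).1 rfl

theorem lineP_comp (L : List (List Nm)) :
    ∃ k : Nm → ℕ, ∀ a b, k a = k b ↔ Relation.ReflTransGen (Adj L) a b := by
  have hs : ∀ {a b}, Relation.ReflTransGen (Adj L) a b → Relation.ReflTransGen (Adj L) b a := by
    intro a b h
    induction h with
    | refl => exact .refl
    | tail _ h2 ih => exact .head h2.symm ih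
  let S : Setoid Nm := ⟨Relation.ReflTransGen (Adj L), fun _ => .refl, hs, .trans⟩
  refine ⟨fun a => Encodable.encode (Quotient.mk S a).out, fun a b => ?_⟩
  rw [Encodable.encode_inj, Quotient.out_inj, Quotient.eq]
  rfl

theorem lineP_ok {L : List (List Nm)} {o : Nm × Nm → F2} (h : lineP_Sys L o) :
    ∃ p : Nm → ℕ, line_ok L p := by
  classical
  obtain ⟨k, hk⟩ := lineP_comp L
  let R : Nm → Nm → Prop := fun a b => k a < k b ∨ k a = k b ∧ a ≠ b ∧ o (a, b) = 1
  have e1 : ∀ x y : F2, x + y = 1 → x = 1 ∨ y = 1 := by decide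
  have e2 : ∀ x y : F2, x + y = 1 → x = 1 → y ≠ 1 := by decide
  have e3 : ∀ x y : F2, x + y = 1 → x ≠ 1 → y = 1 := by decide
  have tri : ∀ a ∈ L.flatten, ∀ b ∈ L.flatten, a ≠ b → R a b ∨ R b a := fun a ha b hb hab => by
    rcases lt_trichotomy (k a) (k b) with q | q | q
    · exact .inl (.inl q)
    · exact (e1 _ _ (h.1 a ha b hb hab.symm)).imp (fun r => .inr ⟨q, hab, r⟩)
        fun r => .inr ⟨q.symm, hab.symm, r⟩
    · exact .inr (.inl q)
  have irr : ∀ a, ¬R a a := fun a q => q.elim (lt_irrefl _) fun q => q.2.1 rfl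
  have tr : ∀ a ∈ L.flatten, ∀ b ∈ L.flatten, ∀ c ∈ L.flatten, R a b → R b c → R a c := by
    rintro a ha b hb c hc (q | ⟨q, q1, q2⟩) (r | ⟨r, r1, r2⟩)
    · exact .inl (q.trans r)
    · exact .inl (r ▸ q)
    · exact .inl (q ▸ r)
    · have hac : a ≠ c := by
        rintro rfl
        exact e2 _ _ (h.1 a ha b hb q1.symm) q2 r2
      refine .inr ⟨q.trans r, hac, by_contra fun n => ?_⟩
      refine lineP_acyc h ha hc q1.symm r1 hac.symm (q2 ▸ Ne.symm n) ?_ ((hk b a).1 q.symm)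
      rw [e3 _ _ (h.1 a ha c hc hac.symm) n]
      exact e2 _ _ (h.1 b hb c hc r1.symm) r2
  let p : Nm → ℕ := fun a => (L.flatten.toFinset.filter fun b => R b a).card
  have hp : ∀ a ∈ L.flatten, ∀ b ∈ L.flatten, R a b → p a < p b := fun a ha b hb hab =>
    Finset.card_lt_card ⟨fun c hc => by
      rw [Finset.mem_filter] at hc ⊢
      exact ⟨hc.1, tr c (List.mem_toFinset.1 hc.1) a ha b hb hc.2 hab⟩, fun hs =>
      irr a (Finset.mem_filter.1 (hs (Finset.mem_filter.2 ⟨List.mem_toFinset.2 ha, hab⟩))).2⟩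
  have hp' : ∀ a ∈ L.flatten, ∀ b ∈ L.flatten, p a < p b → R a b := fun a ha b hb hab =>
    (tri a ha b hb (by rintro rfl; exact lt_irrefl _ hab)).resolve_right fun q =>
      (hp b hb a ha q).not_gt hab
  refine ⟨p, fun a ha b hb e => by_contra fun hab => ?_, fun l hl a ha b hb c hc h1 h2 => ?_⟩
  · exact (tri a ha b hb hab).elim (fun q => (hp a ha b hb q).ne e) fun q => (hp b hb a ha q).ne' e
  · have ha' := List.mem_flatten.2 ⟨l, hl, ha⟩
    have hb' := List.mem_flatten.2 ⟨l, hl, hb⟩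
    have hab : a ≠ b := by
      rintro rfl
      exact h1.not_gt h2
    have e : k a = k b := (hk a b).2 (.single ⟨hab, l, hl, ha, hb⟩)
    rcases hp' a ha' c hc h1 with q | ⟨q, q1, q2⟩ <;>
      rcases hp' c hc b hb' h2 with r | ⟨r, r1, r2⟩
    · omega
    · omega
    · omega
    · exact e2 _ _ (h.1 a ha' c hc q1.symm) q2 ((h.2 l hl a ha b hb c hc q1.symm r1).trans r2)

/-- Linear system in unknowns `o a b` (`a`, `b` vertices): `o a b + o b a = 1` for `a ≠ b`, and
`o v a = o v b` for every edge `a b` and `v ∉ {a, b}`. -/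
theorem emb_one_P : EMB 1 1 ∈ P := by
  obtain ⟨D, h1, h2⟩ := exists_dec
  obtain ⟨g, hg, hg'⟩ := exists_gauss (α := Nm × Nm)
  have h0 := pt_fmt 1
  have h3 := lineP_pt
  refine (PT.congr (f := fun x => (x == Enc.enc (D x) && fmt 1 (D x)) && g (lineP_eqs (D x)))
    (by fun_prop) fun x => Bool.eq_iff_iff.2 ?_).isPolyTime_pred
  rw [h2, Bool.and_eq_true_iff, hg']
  refine and_congr_right fun h4 => ⟨fun ⟨o, ho⟩ => ?_, fun ⟨f, hf⟩ =>
    ⟨_, (lineP_sat _ _).2 (lineP_of_ok (line_of_good hf))⟩⟩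
  obtain ⟨p, h5⟩ := lineP_ok ((lineP_sat _ _).1 ho)
  have h6 := ((fmt_iff _ _).1 (Bool.and_eq_true_iff.1 h4).2).1
  refine ⟨fun a _ => (p a : ℝ), line_good (fun l hl => (h6 l hl).2.2) ⟨fun a ha b hb e => ?_,
    fun l hl a ha b hb c hc p q => ?_⟩⟩
  · exact h5.1 a ha b hb (Nat.cast_injective (R := ℝ) e)
  · exact h5.2 l hl a ha b hb c hc (Nat.cast_lt.1 p) (Nat.cast_lt.1 q)

end Pool.Agent.P.MP_2b4a47_lc.HT
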