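import Pool.Agent.P.MP_2b4a47_lc.HT.Sys

/-! Maps: darts `d` with tail `p d` and reverse `d.swap`, and a tournament `t` at each vertex. -/

namespace Pool.Agent.P.MP_2b4a47_lc.HT

open Finset

abbrev Dt (N : Type) := N × N

variable {V N : Type} [DecidableEq V] [DecidableEq N]

def deg (S : Finset (Dt N)) (p : Dt N → V) (Z : Dt N → F2) (v : V) : F2 :=
  ∑ d ∈ S, if p d = v then Z d else 0

/-- `Z` is a cycle. -/
def Cy (S : Finset (Dt N)) (p : Dt N → V) (Z : Dt N → F2) : Prop :=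
  (∀ d ∈ S, Z d.swap = Z d) ∧ ∀ v, deg S p Z v = 0

/-- The intersection form. -/
def Bf (S : Finset (Dt N)) (p : Dt N → V) (t : Dt N → Dt N → F2) (Z Z' : Dt N → F2) : F2 :=
  ∑ d ∈ S, ∑ e ∈ S, if p d = p e then Z d * Z' e * t d e else 0

/-- The orientation of a triple of darts; `0` is counterclockwise. -/
def cc (t : Dt N → Dt N → F2) (x y z : Dt N) : F2 := t x y + t y z + t z x

def Tour (S : Finset (Dt N)) (p : Dt N → V) (t : Dt N → Dt N → F2) : Prop :=
  ∀ d ∈ S, ∀ e ∈ S, p d = p e → d ≠ e → t d e + t e d = 1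

structure Pre (S : Finset (Dt N)) (p : Dt N → V) (t : Dt N → Dt N → F2) : Prop where
  sym : ∀ d ∈ S, d.swap ∈ S
  ne : ∀ d ∈ S, d.swap ≠ d
  tour : Tour S p t
  diag : ∀ d ∈ S, t d d + t d.swap d.swap = 1

structure Valid (S : Finset (Dt N)) (p : Dt N → V) (t : Dt N → Dt N → F2) : Prop
    extends Pre S p t where
  zero : ∀ Z Z', Cy S p Z → Cy S p Z' → Bf S p t Z Z' = 0

def Succ (S : Finset (Dt N)) (p : Dt N → V) (t : Dt N → Dt N → F2) (x y : Dt N) : Prop :=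
  x ∈ S ∧ y ∈ S ∧ p y = p x ∧ x ≠ y ∧ ∀ g ∈ S, p g = p x → g ≠ x → g ≠ y → cc t x y g = 0

def Cyc (S : Finset (Dt N)) (p : Dt N → V) (t : Dt N → Dt N → F2) : Prop :=
  ∀ x ∈ S, ∀ y ∈ S, ∀ z ∈ S, ∀ w ∈ S, p y = p x → p z = p x → p w = p x → x ≠ y → x ≠ z →
    x ≠ w → y ≠ z → y ≠ w → z ≠ w → cc t x y z = 0 → cc t x z w = 0 → cc t x y w = 0

def Simple (S : Finset (Dt N)) (p : Dt N → V) : Prop :=
  (∀ d ∈ S, p d ≠ p d.swap) ∧ ∀ d ∈ S, ∀ e ∈ S, p d = p e → p d.swap = p e.swap → d = e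

structure Gd (S : Finset (Dt N)) (p : Dt N → V) (t : Dt N → Dt N → F2) : Prop
    extends Valid S p t where
  cyc : Cyc S p t
  simple : Simple S p

def Ad (S : Finset (Dt N)) (p : Dt N → V) (u v : V) : Prop := ∃ d ∈ S, p d = u ∧ p d.swap = v

/-- At `u`, the edge to `w` follows the edge to `v`. -/
def Cn (S : Finset (Dt N)) (p : Dt N → V) (t : Dt N → Dt N → F2) (u v w : V) : Prop :=
  ∃ a b, Succ S p t a b ∧ p a = u ∧ p a.swap = v ∧ p b.swap = w

/-- `a b c` is a triangular face. -/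
def Fc (S : Finset (Dt N)) (p : Dt N → V) (t : Dt N → Dt N → F2) (a b c : V) : Prop :=
  Cn S p t a b c ∧ Cn S p t b c a ∧ Cn S p t c a b

def Maxi (S : Finset (Dt N)) (p : Dt N → V) (t : Dt N → Dt N → F2) : Prop :=
  ∀ u v w, Cn S p t u v w → Ad S p v w

def ad (S : Finset (Dt N)) (n : Dt N) : Finset (Dt N) := insert n (insert n.swap S)

def mu (S : Finset (Dt N)) (p : Dt N → V) : ℕ := ∑ v ∈ S.image p, (#{d ∈ S | p d = v} - 3)

/-- `(S, p, t)` arises from `(ad S n, p', t')` by contracting the edge `n`. -/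
structure Spl (S : Finset (Dt N)) (p : Dt N → V) (t : Dt N → Dt N → F2) (p' : Dt N → V)
    (t' : Dt N → Dt N → F2) (n : Dt N) (κ : F2) : Prop where
  hn : n ∉ S
  hn' : n.swap ∉ S
  ne : p' n ≠ p' n.swap
  hp : ∀ d ∈ S, ∀ e ∈ S, p d = p e ↔
    p' d = p' e ∨ (p' d = p' n ∧ p' e = p' n.swap) ∨ (p' d = p' n.swap ∧ p' e = p' n)
  h0 : ∀ a ∈ S, ∀ b ∈ S, p' a = p' b → t a b = t' a b
  h1 : ∀ a ∈ S, ∀ b ∈ S, p' a = p' n → p' b = p' n.swap → t a b = t' a n + t' n.swap b + κ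
  h2 : ∀ a ∈ S, ∀ b ∈ S, p' a = p' n.swap → p' b = p' n → t a b = t' a n.swap + t' n b + (κ + 1)

/-- A simple circuit with vertex set `W`, outgoing darts `o x` and incoming darts `i x`. -/
structure Circ (S : Finset (Dt N)) (p : Dt N → V) (W : Finset V) (o i : V → Dt N) : Prop where
  oS : ∀ x ∈ W, o x ∈ S
  iS : ∀ x ∈ W, i x ∈ S
  po : ∀ x ∈ W, p (o x) = x
  pi : ∀ x ∈ W, p (i x) = x
  ne : ∀ x ∈ W, o x ≠ i x
  nx : ∀ x ∈ W, p (o x).swap ∈ W ∧ i (p (o x).swap) = (o x).swap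
  pv : ∀ x ∈ W, p (i x).swap ∈ W ∧ o (p (i x).swap) = (i x).swap
  conn : ∀ X : V → Prop, (∀ x ∈ W, X x ↔ X (p (o x).swap)) → ∀ x ∈ W, ∀ y ∈ W, X x → X y

def OnC (p : Dt N → V) (W : Finset V) (o i : V → Dt N) (d : Dt N) : Prop :=
  p d ∈ W ∧ (d = o (p d) ∨ d = i (p d))

instance (p : Dt N → V) (W : Finset V) (o i : V → Dt N) (d : Dt N) : Decidable (OnC p W o i d) :=
  inferInstanceAs (Decidable (_ ∧ _))

variable {S S' : Finset (Dt N)} {p : Dt N → V} {t t' : Dt N → Dt N → F2} {Z Z' Y : Dt N → F2}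
  {x y z w n : Dt N}

theorem f2_cases (x : F2) : x = 0 ∨ x = 1 := by revert x; decide

theorem f2_two : (2 : F2) = 0 := by decide

theorem f2_eq_one {x : F2} (h : x ≠ 0) : x = 1 := (f2_cases x).resolve_left h

@[simp] theorem mem_ad {d : Dt N} : d ∈ ad S n ↔ d = n ∨ d = n.swap ∨ d ∈ S := by simp [ad]

theorem ad_swap : ad S n.swap = ad S n := by
  ext d
  simp only [mem_ad, Prod.swap_swap]
  tauto

theorem sum_ad (h1 : n ∉ S) (h2 : n.swap ∉ S) (h3 : n.swap ≠ n) (k : Dt N → F2) :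
    ∑ d ∈ ad S n, k d = k n + k n.swap + ∑ d ∈ S, k d := by
  rw [ad, sum_insert (by simp [h1, h3.symm]), sum_insert h2, add_assoc]

omit [DecidableEq N] in
theorem exists_fresh [Infinite N] (S : Finset (Dt N)) :
    ∃ n : Dt N, n ∉ S ∧ n.swap ∉ S ∧ n.swap ≠ n := by
  classical
  obtain ⟨a, ha⟩ := Infinite.exists_notMem_finset (S.image Prod.fst)
  obtain ⟨b, hb⟩ := Infinite.exists_notMem_finset (insert a (S.image Prod.fst))
  refine ⟨(a, b), fun h => ha (mem_image_of_mem _ h), fun h => hb (mem_insert_of_mem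
    (mem_image_of_mem Prod.fst h)), fun h => hb ?_⟩
  obtain rfl : b = a := congrArg Prod.fst h
  exact mem_insert_self _ _

omit [DecidableEq V] [DecidableEq N] in
theorem cc_rot (t : Dt N → Dt N → F2) (x y z : Dt N) : cc t y z x = cc t x y z := by
  unfold cc; ring

omit [DecidableEq V] [DecidableEq N] in
theorem Tour.cc_swap (h : Tour S p t) (hx : x ∈ S) (hy : y ∈ S) (hz : z ∈ S) (e1 : p y = p x)
    (e2 : p z = p x) (n1 : x ≠ y) (n2 : x ≠ z) (n3 : y ≠ z) : cc t x z y = cc t x y z + 1 := by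
  unfold cc
  linear_combination h x hx y hy e1.symm n1 + h x hx z hz e2.symm n2 +
    h y hy z hz (e1.trans e2.symm) n3 - (t x y + t y z + t z x - 1) * f2_two

omit [DecidableEq V] [DecidableEq N] in
theorem Tour.cocycle (h : Tour S p t) (hx : x ∈ S) (hy : y ∈ S) (hz : z ∈ S) (hw : w ∈ S)
    (e1 : p z = p x) (e2 : p w = p y) (n1 : x ≠ z) (n2 : y ≠ w) :
    cc t x y z + cc t x z w = cc t x y w + cc t y z w := by
  unfold cc
  linear_combination h x hx z hz e1.symm n1 - h y hy w hw e2.symm n2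

omit [DecidableEq V] [DecidableEq N] in
theorem sum_sym (h1 : ∀ d ∈ S, d.swap ∈ S) (h2 : ∀ d ∈ S, d.swap ≠ d) {k : Dt N → F2}
    (hk : ∀ d ∈ S, k d + k d.swap = 0) : ∑ d ∈ S, k d = 0 :=
  sum_involution (fun d _ => d.swap) hk (fun d hd _ => h2 d hd) h1 fun _ _ => rfl

omit [DecidableEq N] in
theorem deg_add (v : V) : deg S p (fun d => Z d + Z' d) v = deg S p Z v + deg S p Z' v := by
  simp only [deg, ← sum_add_distrib]
  exact sum_congr rfl fun d _ => by split_ifs <;> simp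

omit [DecidableEq N] in
theorem deg_mul (c : F2) (v : V) : deg S p (fun d => c * Z d) v = c * deg S p Z v := by
  simp only [deg, mul_sum]
  exact sum_congr rfl fun d _ => by split_ifs <;> simp

omit [DecidableEq N] in
theorem Cy.add (h : Cy S p Z) (h' : Cy S p Z') : Cy S p fun d => Z d + Z' d :=
  ⟨fun d hd => by simp only [h.1 d hd, h'.1 d hd], fun v => by rw [deg_add, h.2, h'.2, add_zero]⟩

omit [DecidableEq N] in
theorem Cy.mul (h : Cy S p Z) (c : F2) : Cy S p fun d => c * Z d :=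
  ⟨fun d hd => by simp only [h.1 d hd], fun v => by rw [deg_mul, h.2, mul_zero]⟩

omit [DecidableEq N] in
theorem sum_deg (φ : V → F2) :
    ∑ d ∈ S, Z d * φ (p d) = ∑ v ∈ S.image p, deg S p Z v * φ v := by
  simp only [deg, sum_mul]
  rw [sum_comm]
  refine sum_congr rfl fun d hd => ?_
  simp only [ite_mul, zero_mul]
  rw [sum_ite_eq, if_pos (mem_image_of_mem _ hd)]

omit [DecidableEq N] in
theorem Cy.dual (h : Cy S p Z) (φ : V → F2) : ∑ d ∈ S, Z d * φ (p d) = 0 := by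
  rw [sum_deg]
  exact sum_eq_zero fun v _ => by rw [h.2, zero_mul]

omit [DecidableEq N] in
theorem Bf_add_left : Bf S p t (fun d => Z d + Y d) Z' = Bf S p t Z Z' + Bf S p t Y Z' := by
  simp only [Bf, ← sum_add_distrib]
  exact sum_congr rfl fun d _ => sum_congr rfl fun e _ => by split_ifs <;> ring

omit [DecidableEq N] in
theorem Bf_add_right : Bf S p t Z (fun d => Z' d + Y d) = Bf S p t Z Z' + Bf S p t Z Y := by
  simp only [Bf, ← sum_add_distrib]
  exact sum_congr rfl fun d _ => sum_congr rfl fun e _ => by split_ifs <;> ring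

omit [DecidableEq N] in
theorem Bf_mul_left (c : F2) : Bf S p t (fun d => c * Z d) Z' = c * Bf S p t Z Z' := by
  simp only [Bf, mul_sum]
  exact sum_congr rfl fun d _ => sum_congr rfl fun e _ => by split_ifs <;> ring

omit [DecidableEq N] in
theorem Bf_congr (h : ∀ d ∈ S, ∀ e ∈ S, p d = p e → Z d ≠ 0 → Z' e ≠ 0 → t d e = t' d e) :
    Bf S p t Z Z' = Bf S p t' Z Z' := by
  refine sum_congr rfl fun d hd => sum_congr rfl fun e he => ?_
  split_ifs with h1
  · by_cases h2 : Z d = 0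
    · simp [h2]
    by_cases h3 : Z' e = 0
    · simp [h3]
    rw [h d hd e he h1 h2 h3]
  · rfl

/-- The form vanishes up to the diagonal where `t` is a sum of functions of one dart. -/
theorem Bf_rank (hZ : Cy S p Z) (hZ' : Cy S p Z') (φ ψ η : Dt N → F2)
    (h : ∀ d ∈ S, ∀ e ∈ S, p d = p e → Z d ≠ 0 → Z' e ≠ 0 →
      t d e = φ d + ψ e + if d = e then η d else 0) :
    Bf S p t Z Z' = ∑ d ∈ S, Z d * Z' d * η d := by
  rw [Bf_congr (t' := fun d e => φ d + ψ e + if d = e then η d else 0) h]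
  have e1 : ∀ d ∈ S, ∀ e ∈ S, (if p d = p e then
      Z d * Z' e * (φ d + ψ e + if d = e then η d else 0) else 0) =
      Z d * φ d * (if p e = p d then Z' e else 0) + Z' e * ψ e * (if p d = p e then Z d else 0) +
        if d = e then Z d * Z' d * η d else 0 := by
    intro d _ e _
    by_cases h2 : d = e
    · subst h2
      simp only [if_true]
      ring
    by_cases h1 : p d = p e
    · simp only [if_pos h1, if_pos h1.symm, if_neg h2]
      ring
    · simp only [if_neg h1, if_neg (Ne.symm h1), if_neg h2]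
      ring
  rw [Bf, sum_congr rfl fun d hd => sum_congr rfl fun e he => e1 d hd e he]
  simp only [sum_add_distrib]
  rw [sum_comm (f := fun d e => Z' e * ψ e * if p d = p e then Z d else 0)]
  simp only [← mul_sum]
  have z1 : ∀ v, (∑ e ∈ S, if p e = v then Z' e else 0) = 0 := hZ'.2
  have z2 : ∀ v, (∑ e ∈ S, if p e = v then Z e else 0) = 0 := hZ.2
  simp only [z1, z2, mul_zero, sum_const_zero, zero_add]
  exact sum_congr rfl fun d hd => by rw [sum_ite_eq, if_pos hd]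

theorem Pre.Bf_comm (h : Pre S p t) (hZ : Cy S p Z) (hZ' : Cy S p Z') :
    Bf S p t Z Z' = Bf S p t Z' Z := by
  have e1 : Bf S p t Z Z' + Bf S p t Z' Z = Bf S p (fun d e => t d e + t e d) Z Z' := by
    rw [Bf, Bf, sum_comm (f := fun d e => if p d = p e then Z' d * Z e * t d e else 0), Bf,
      ← sum_add_distrib]
    refine sum_congr rfl fun d _ => ?_
    rw [← sum_add_distrib]
    refine sum_congr rfl fun e _ => ?_
    by_cases h1 : p d = p e
    · simp only [if_pos h1, if_pos h1.symm]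
      ring
    · simp only [if_neg h1, if_neg (Ne.symm h1), add_zero]
  rw [Bf_rank (t := fun d e => t d e + t e d) hZ hZ' (fun _ => 1) (fun _ => 0) (fun _ => 1) (fun d hd e he h1 _ _ => by
    by_cases h2 : d = e
    · subst h2
      rw [f2_self, if_pos rfl]
      decide
    · rw [h.tour d hd e he h1 h2, if_neg h2]
      decide), sum_sym h.sym h.ne fun d hd => by
    rw [hZ.1 d hd, hZ'.1 d hd, f2_self]] at e1
  linear_combination e1 - f2_self (Bf S p t Z' Z)

theorem Valid.sub (h : Valid S p t) (hs : S' ⊆ S) (hc : ∀ d ∈ S', d.swap ∈ S') : Valid S' p t := by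
  refine ⟨⟨hc, fun d hd => h.ne d (hs hd), fun d hd e he => h.tour d (hs hd) e (hs he),
    fun d hd => h.diag d (hs hd)⟩, fun Z Z' hZ hZ' => ?_⟩
  have key : ∀ Z, Cy S' p Z → Cy S p fun d => if d ∈ S' then Z d else 0 := by
    refine fun Z hZ => ⟨fun d _ => ?_, fun v => ?_⟩
    · by_cases h1 : d ∈ S'
      · simp only [if_pos h1, if_pos (hc d h1), hZ.1 d h1]
      · simp only [if_neg h1, if_neg fun h2 => h1 (hc d.swap h2)]
    · refine Eq.trans ?_ (hZ.2 v)
      rw [deg, deg, ← sum_subset hs fun d _ h1 => by simp [h1]]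
      exact sum_congr rfl fun d hd => by simp only [if_pos hd]
  refine Eq.trans ?_ (h.zero _ _ (key Z hZ) (key Z' hZ'))
  rw [Bf, Bf, ← sum_subset hs fun d _ h1 => by simp [h1]]
  refine sum_congr rfl fun d hd => ?_
  rw [← sum_subset hs fun e _ h1 => by simp [h1]]
  exact sum_congr rfl fun e he => by simp only [if_pos hd, if_pos he]

omit [DecidableEq V] [DecidableEq N] in
theorem Cyc.sub (h : Cyc S p t) (hs : S' ⊆ S) : Cyc S' p t :=
  fun x hx y hy z hz w hw => h x (hs hx) y (hs hy) z (hs hz) w (hs hw)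

omit [DecidableEq V] [DecidableEq N] in
theorem Succ.sub (h : Succ S p t x y) (hs : S' ⊆ S) (hx : x ∈ S') (hy : y ∈ S') :
    Succ S' p t x y :=
  ⟨hx, hy, h.2.2.1, h.2.2.2.1, fun g hg => h.2.2.2.2 g (hs hg)⟩

omit [DecidableEq V] [DecidableEq N] in
theorem Succ.uniq (ht : Tour S p t) (h : Succ S p t x y) (h' : Succ S p t x z) : y = z := by
  by_contra hn
  have e := ht.cc_swap h.1 h.2.1 h'.2.1 h.2.2.1 h'.2.2.1 h.2.2.2.1 h'.2.2.2.1 hn
  rw [h.2.2.2.2 z h'.2.1 h'.2.2.1 h'.2.2.2.1.symm (Ne.symm hn),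
    h'.2.2.2.2 y h.2.1 h.2.2.1 h.2.2.2.1.symm hn] at e
  exact absurd e (by decide)

omit [DecidableEq V] [DecidableEq N] in
theorem Succ.uniq' (ht : Tour S p t) (h : Succ S p t x z) (h' : Succ S p t y z) : x = y := by
  by_contra hn
  have e0 : p y = p x := h'.2.2.1.symm.trans h.2.2.1
  have e := ht.cc_swap h.1 h'.1 h.2.1 e0 h.2.2.1 hn h.2.2.2.1 h'.2.2.2.1
  rw [h.2.2.2.2 y h'.1 e0 (Ne.symm hn) h'.2.2.2.1, ← cc_rot t x y z,
    h'.2.2.2.2 x h.1 e0.symm hn h.2.2.2.1] at e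
  exact absurd e (by decide)

omit [DecidableEq V] [DecidableEq N] in
theorem Succ.both (ht : Tour S p t) (h : Succ S p t x y) (h' : Succ S p t y x) (hz : z ∈ S)
    (e : p z = p x) : z = x ∨ z = y := by
  by_contra hn
  rw [not_or] at hn
  have e1 := ht.cc_swap h.1 h.2.1 hz h.2.2.1 e h.2.2.2.1 (Ne.symm hn.1) (Ne.symm hn.2)
  rw [h.2.2.2.2 z hz e hn.1 hn.2, cc_rot t y x z,
    h'.2.2.2.2 z hz (e.trans h'.2.2.1) hn.2 hn.1] at e1
  exact absurd e1 (by decide)

theorem exists_succ (ht : Tour S p t) (hc : Cyc S p t) (hx : x ∈ S) (hz : z ∈ S) (e : p z = p x)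
    (hn : z ≠ x) : ∃ y, Succ S p t x y := by
  obtain ⟨y, hy, hm⟩ := exists_min_image {y ∈ S | p y = p x ∧ y ≠ x}
    (fun y => #{g ∈ S | p g = p x ∧ g ≠ x ∧ g ≠ y ∧ cc t x g y = 0})
    ⟨z, mem_filter.2 ⟨hz, e, hn⟩⟩
  obtain ⟨hy, e1, n1⟩ := mem_filter.1 hy
  refine ⟨y, hx, hy, e1, n1.symm, fun g hg e2 n2 n3 => ?_⟩
  by_contra h1
  have h2 : cc t x g y = 0 := by
    rw [ht.cc_swap hx hy hg e1 e2 n1.symm n2.symm n3.symm, f2_eq_one h1]
    decide
  refine absurd (hm g (mem_filter.2 ⟨hg, e2, n2⟩)) (not_le.2 (card_lt_card ⟨fun k hk => ?_,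
    fun hs => ?_⟩))
  · obtain ⟨hk, e3, n4, n5, h3⟩ := mem_filter.1 hk
    have n6 : k ≠ y := by
      rintro rfl
      exact h1 h3
    exact mem_filter.2 ⟨hk, e3, n4, n6, hc x hx k hk g hg y hy e3 e2 e1 n4.symm n2.symm n1.symm
      n5 n6 n3 h3 h2⟩
  · exact (mem_filter.1 (hs (mem_filter.2 ⟨hg, e2, n2, n3, h2⟩))).2.2.2.1 rfl

end Pool.Agent.P.MP_2b4a47_lc.HT
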