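import Pool.Agent.P.MP_2b4a47_lc.HT.Map

/-! An edge of a cycle lies on a circuit. -/

namespace Pool.Agent.P.MP_2b4a47_lc.HT

open Finset

variable {V N : Type} [DecidableEq V] [DecidableEq N] {S : Finset (Dt N)} {p p' : Dt N → V}
  {t t' : Dt N → Dt N → F2} {Z Z' Y : Dt N → F2} {x y n : Dt N} {κ : F2}

/-- A walk that starts with `d`, avoids the reverse of `d` and ends at `u`. -/
structure PathW (S : Finset (Dt N)) (p : Dt N → V) (d : Dt N) (m : ℕ) (f : ℕ → Dt N) (u : V) :
    Prop where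
  zero : f 0 = d
  mem : ∀ j ≤ m, f j ∈ S
  ne : ∀ j ≤ m, 1 ≤ j → f j ≠ d.swap
  step : ∀ j < m, p (f (j + 1)) = p (f j).swap
  last : p (f m).swap = u

omit [DecidableEq V] [DecidableEq N] in
theorem PathW.ext {d e : Dt N} {m : ℕ} {f : ℕ → Dt N} {u : V} (h : PathW S p d m f u) (he : e ∈ S)
    (hn : e ≠ d.swap) (hu : p e = u) :
    PathW S p d (m + 1) (fun j => if j ≤ m then f j else e) (p e.swap) := by
  refine ⟨by simp [h.zero], fun j _ => ?_, fun j _ h1 => ?_, fun j hj => ?_, by simp⟩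
  · split_ifs with h1
    exacts [h.mem j h1, he]
  · split_ifs with h2
    exacts [h.ne j h2 h1, hn]
  · rw [if_pos (show j ≤ m by omega)]
    split_ifs with h1
    · exact h.step j (by omega)
    · obtain rfl : j = m := by omega
      exact hu.trans h.last.symm

theorem path_exists (hp : Pre S p t) (hZ : Cy S p Z) {d : Dt N} (hd : d ∈ S) (h0 : Z d ≠ 0) :
    ∃ m f, PathW S p d m f (p d) := by
  classical
  by_contra hn
  let φ : V → F2 := fun u => if ∃ m f, PathW S p d m f u then 1 else 0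
  have h1 : φ (p d) = 0 := if_neg hn
  have h2 : φ (p d.swap) = 1 := if_pos ⟨0, fun _ => d, rfl, fun _ _ => hd,
    fun j _ _ => by omega, fun j _ => by omega, rfl⟩
  have h3 : ∀ e ∈ S, e ≠ d → e ≠ d.swap → φ (p e.swap) = φ (p e) := fun e he n1 n2 =>
    if_congr ⟨fun ⟨_, _, h⟩ => ⟨_, _, h.ext (hp.sym e he)
      (fun h => n1 (Prod.swap_injective h)) rfl⟩, fun ⟨_, _, h⟩ => ⟨_, _, h.ext he n2 rfl⟩⟩ rfl rfl
  have h4 := sum_sym hp.sym hp.ne (k := fun e => Z e * φ (p e) + if e = d.swap then Z d else 0)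
    fun e he => by
      by_cases n1 : e = d
      · subst n1
        rw [h1, h2, if_neg (hp.ne e he).symm, if_pos rfl, hZ.1 e he]
        linear_combination f2_self (Z e)
      by_cases n2 : e = d.swap
      · subst n2
        rw [Prod.swap_swap, h1, h2, if_neg (hp.ne d hd).symm, if_pos rfl, hZ.1 d hd]
        linear_combination f2_self (Z d)
      · rw [if_neg n2, if_neg fun h => n1 (Prod.swap_injective h), h3 e he n1 n2, hZ.1 e he]
        linear_combination f2_self (Z e * φ (p e))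
  rw [sum_add_distrib, hZ.dual, zero_add, sum_ite_eq', if_pos (hp.sym d hd)] at h4
  exact h0 h4

omit [DecidableEq V] [DecidableEq N] in
theorem PathW.short {d : Dt N} {m : ℕ} {f : ℕ → Dt N} (h : PathW S p d m f (p d)) {i j : ℕ}
    (hij : i < j) (hj : j ≤ m) (e : p (f i) = p (f j)) : ∃ m' < m, ∃ g, PathW S p d m' g (p d) := by
  obtain ⟨c, rfl⟩ : ∃ c, j = i + (c + 1) := ⟨j - i - 1, by omega⟩
  rcases Nat.eq_zero_or_pos i with rfl | hi
  · refine ⟨c, by omega, f, h.zero, fun k hk => h.mem k (by omega), fun k hk => h.ne k (by omega),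
      fun k hk => h.step k (by omega), ?_⟩
    rw [← h.step c (by omega), ← h.zero, e, zero_add]
  obtain ⟨m', rfl⟩ : ∃ m', m = m' + (c + 1) := ⟨m - (c + 1), by omega⟩
  refine ⟨m', by omega, fun k => if k < i then f k else f (k + (c + 1)), by simp [hi, h.zero],
    fun k hk => ?_, fun k hk h1 => ?_, fun k hk => ?_, ?_⟩
  · split_ifs
    exacts [h.mem _ (by omega), h.mem _ (by omega)]
  · split_ifs
    exacts [h.ne _ (by omega) h1, h.ne _ (by omega) (by omega)]
  · split_ifs with h1 h2 h2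
    · exact h.step k (by omega)
    · omega
    · obtain rfl : i = k + 1 := by omega
      rw [← e]
      exact h.step k (by omega)
    · rw [show k + 1 + (c + 1) = k + (c + 1) + 1 by omega]
      exact h.step _ (by omega)
  · rw [if_neg (by omega)]
    exact h.last

/-- The tail `v` of `d` is reachable from the head of `d` by darts other than `d`, `d.swap`
(otherwise `Cy.dual` for the indicator of the reachable set and `sum_sym` give `Z d = 0`).
Shorten the walk to a simple path (an inductive predicate for paths to `v` with their finite set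
`O` of darts; a vertex of a path starts a subpath); `O ∪ {d}` are the outgoing darts. -/
theorem exists_circ (hp : Pre S p t) (hZ : Cy S p Z) {d : Dt N} (hd : d ∈ S) (h0 : Z d ≠ 0) :
    ∃ W o i, Circ S p W o i ∧ p d ∈ W := by
  classical
  have hex := path_exists hp hZ hd h0
  obtain ⟨f, h⟩ := Nat.find_spec hex
  have hmin := fun m' => Nat.find_min hex (m := m')
  generalize Nat.find hex = m at h hmin
  have hinj : ∀ i ≤ m, ∀ j ≤ m, p (f i) = p (f j) → i = j := fun i hi j hj e => by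
    rcases lt_trichotomy i j with h1 | h1 | h1
    · obtain ⟨m', h2, h3⟩ := h.short h1 hj e
      exact absurd h3 (hmin m' h2)
    · exact h1
    · obtain ⟨m', h2, h3⟩ := h.short h1 hi e.symm
      exact absurd h3 (hmin m' h2)
  obtain ⟨idx, hidx⟩ : ∃ idx : V → ℕ, ∀ j ≤ m, idx (p (f j)) = j := by
    refine ⟨fun x => if hx : ∃ j ≤ m, p (f j) = x then hx.choose else 0, fun j hj => ?_⟩
    have hx : ∃ i ≤ m, p (f i) = p (f j) := ⟨j, hj, rfl⟩
    beta_reduce
    rw [dif_pos hx]
    exact hinj _ hx.choose_spec.1 _ hj hx.choose_spec.2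
  obtain ⟨nxt, hnxt⟩ : ∃ nxt : ℕ → ℕ, ∀ j, (j = m ∧ nxt j = 0) ∨ (j ≠ m ∧ nxt j = j + 1) :=
    ⟨fun j => if j = m then 0 else j + 1, fun j => by by_cases e : j = m <;> simp [e]⟩
  obtain ⟨prv, hprv⟩ : ∃ prv : ℕ → ℕ, ∀ j, (j = 0 ∧ prv j = m) ∨ (j ≠ 0 ∧ prv j = j - 1) :=
    ⟨fun j => if j = 0 then m else j - 1, fun j => by by_cases e : j = 0 <;> simp [e]⟩
  have n1 : ∀ j ≤ m, nxt j ≤ m := fun j hj => by have := hnxt j; omega
  have n2 : ∀ j ≤ m, prv j ≤ m := fun j hj => by have := hprv j; omega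
  have n3 : ∀ j ≤ m, prv (nxt j) = j := fun j hj => by
    have := hnxt j; have := hprv (nxt j); omega
  have n4 : ∀ j ≤ m, nxt (prv j) = j := fun j hj => by
    have := hprv j; have := hnxt (prv j); omega
  have hs : ∀ j ≤ m, p (f j).swap = p (f (nxt j)) := fun j hj => by
    rcases hnxt j with ⟨rfl, e⟩ | ⟨e1, e⟩
    · rw [e, h.zero, h.last]
    · rw [e, h.step j (by omega)]
  have hW : ∀ x, x ∈ (range (m + 1)).image (fun j => p (f j)) ↔ ∃ j ≤ m, p (f j) = x := fun x => by
    simp only [mem_image, mem_range, Nat.lt_succ_iff]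
  refine ⟨(range (m + 1)).image fun j => p (f j), fun x => f (idx x),
    fun x => (f (prv (idx x))).swap, ⟨?_, ?_, ?_, ?_, ?_, ?_, ?_, ?_⟩,
    (hW _).2 ⟨0, Nat.zero_le _, by rw [h.zero]⟩⟩
  · intro x hx
    obtain ⟨j, hj, rfl⟩ := (hW x).1 hx
    rw [hidx j hj]
    exact h.mem j hj
  · intro x hx
    obtain ⟨j, hj, rfl⟩ := (hW x).1 hx
    rw [hidx j hj]
    exact hp.sym _ (h.mem _ (n2 j hj))
  · intro x hx
    obtain ⟨j, hj, rfl⟩ := (hW x).1 hx
    rw [hidx j hj]
  · intro x hx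
    obtain ⟨j, hj, rfl⟩ := (hW x).1 hx
    rw [hidx j hj, hs _ (n2 j hj), n4 j hj]
  · intro x hx e
    obtain ⟨j, hj, rfl⟩ := (hW x).1 hx
    rw [hidx j hj] at e
    have e1 : nxt j = prv j :=
      hinj _ (n1 j hj) _ (n2 j hj) (by rw [← hs j hj, e, Prod.swap_swap])
    have a1 := hnxt j
    have a2 := hprv j
    have : (j = 0 ∧ prv j = 0) ∨ (j = 0 ∧ prv j = 1 ∧ m = 1) ∨ (j = 1 ∧ prv j = 0) := by omega
    rcases this with ⟨rfl, e2⟩ | ⟨rfl, e2, e3⟩ | ⟨rfl, e2⟩
    · rw [e2, h.zero] at e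
      exact hp.ne d hd e.symm
    · rw [e2, h.zero] at e
      exact h.ne 1 (by omega) le_rfl (by rw [e, Prod.swap_swap])
    · rw [e2, h.zero] at e
      exact h.ne 1 hj le_rfl e
  · intro x hx
    obtain ⟨j, hj, rfl⟩ := (hW x).1 hx
    rw [hidx j hj, hs j hj, hidx _ (n1 j hj), n3 j hj]
    exact ⟨(hW _).2 ⟨_, n1 j hj, rfl⟩, rfl⟩
  · intro x hx
    obtain ⟨j, hj, rfl⟩ := (hW x).1 hx
    rw [hidx j hj, Prod.swap_swap, hidx _ (n2 j hj)]
    exact ⟨(hW _).2 ⟨_, n2 j hj, rfl⟩, rfl⟩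
  · intro X hX
    have key : ∀ j ≤ m, (X (p (f j)) ↔ X (p (f 0))) := fun j => by
      induction j with
      | zero => exact fun _ => Iff.rfl
      | succ j ih =>
        intro hj
        have := hX _ ((hW _).2 ⟨j, by omega, rfl⟩)
        rw [hidx j (by omega), ← h.step j (by omega)] at this
        exact this.symm.trans (ih (by omega))
    intro x hx y hy hxx
    obtain ⟨i, hi, rfl⟩ := (hW x).1 hx
    obtain ⟨j, hj, rfl⟩ := (hW y).1 hy
    exact (key j hj).2 ((key i hi).1 hxx)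

end Pool.Agent.P.MP_2b4a47_lc.HT
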