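import Pool.Agent.P.MP_2b4a47_lc.HT.Fary
import Pool.Agent.P.MP_2b4a47_lc.HT.Easy
import Pool.Agent.P.MP_2b4a47_lc.HT.Eqs
import Pool.Agent.P.MP_2b4a47_lc.PlEmb

/-! The plane cases are in `P`. -/

namespace Pool.Agent.P.MP_2b4a47_lc.HT

open Pool.Agent.Lib.NP N68a2faeb

theorem emb_two_P {k : ℕ} (hk : k ≤ 2) : EMB k 2 ∈ P := by
  obtain ⟨D, hD, h2⟩ := exists_dec
  obtain ⟨q, hq, h3⟩ := exists_eqs
  obtain ⟨g, hg, h4⟩ := exists_gauss (α := ℕ × Nm × Nm × Nm)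
  have h0 := pt_fmt k
  refine (PT.congr (f := fun x => (x == Enc.enc (D x) && fmt k (D x)) && g (q (D x)))
    (by fun_prop) fun x => Bool.eq_iff_iff.2 ?_).isPolyTime_pred
  rw [h2, Bool.and_eq_true]
  refine and_congr_right fun h => ?_
  rw [h4, h3, Pl.emb2_iff fun l hl => by
    have := (((fmt_iff _ _).1 (Bool.and_eq_true_iff.1 h).2).1 l hl).2.2
    omega]
  exact ⟨fun ⟨_, _, _, _, h⟩ => h.emb, fun ⟨_, h⟩ => sys_of_emb h⟩

end Pool.Agent.P.MP_2b4a47_lc.HT
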