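import Pool.Agent.P.MP_2b4a47_lc.HT.Map

/-! Splitting a vertex and contracting an edge: cycles and the intersection form. -/

namespace Pool.Agent.P.MP_2b4a47_lc.HT

open Finset

variable {V N : Type} [DecidableEq V] [DecidableEq N] {S : Finset (Dt N)} {p p' : Dt N → V}
  {t t' : Dt N → Dt N → F2} {Z Z' Y : Dt N → F2} {x y n : Dt N} {κ : F2}

omit [DecidableEq V] [DecidableEq N] in
theorem Spl.symm (h : Spl S p t p' t' n κ) : Spl S p t p' t' n.swap (κ + 1) :=
  ⟨h.hn', h.hn, h.ne.symm, fun d hd e he => (h.hp d hd e he).trans (or_congr_right or_comm),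
    h.h0, h.h2, fun a ha b hb e1 e2 => by
      rw [h.h1 a ha b hb e1 e2, add_assoc κ, f2_self, add_zero]
      rfl⟩

omit [DecidableEq V] [DecidableEq N] in
theorem Spl.ne' (h : Spl S p t p' t' n κ) : n.swap ≠ n := fun e => h.ne (congrArg p' e).symm

theorem Spl.deg_ad (h : Spl S p t p' t' n κ) (v : V) : deg (ad S n) p' Z v =
    (if p' n = v then Z n else 0) + (if p' n.swap = v then Z n.swap else 0) + deg S p' Z v :=
  sum_ad h.hn h.hn' h.ne' _

omit [DecidableEq N] in
theorem Spl.deg_eq (h : Spl S p t p' t' n κ) {e : Dt N} (he : e ∈ S) : deg S p Z (p e) =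
    if p' e = p' n ∨ p' e = p' n.swap then deg S p' Z (p' n) + deg S p' Z (p' n.swap)
    else deg S p' Z (p' e) := by
  have := h.ne
  split_ifs with k
  · rw [deg, deg, deg, ← sum_add_distrib]
    refine sum_congr rfl fun d hd => ?_
    have := h.hp d hd e he
    grind
  · refine sum_congr rfl fun d hd => ?_
    have := h.hp d hd e he
    grind

omit [DecidableEq N] in
theorem deg_zero {v : V} (h : ∀ d ∈ S, p d ≠ v) : deg S p Z v = 0 :=
  sum_eq_zero fun d hd => if_neg (h d hd)

theorem Spl.deg_n (h : Spl S p t p' t' n κ) (hZ : Cy (ad S n) p' Z) :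
    deg S p' Z (p' n) = Z n ∧ deg S p' Z (p' n.swap) = Z n := by
  have e1 := hZ.2 (p' n)
  have e2 := hZ.2 (p' n.swap)
  rw [h.deg_ad, if_pos rfl, if_neg h.ne.symm] at e1
  rw [h.deg_ad, if_pos rfl, if_neg h.ne, hZ.1 n (by simp)] at e2
  exact ⟨by linear_combination e1 - f2_self (Z n), by linear_combination e2 - f2_self (Z n)⟩

/-- The degree at the merged vertex is the sum of the two degrees, `Z n + Z n.swap = 0`. A vertex
that is no tail of a dart of `S` has degree `0`. -/
theorem Spl.cy_down (h : Spl S p t p' t' n κ) (hZ : Cy (ad S n) p' Z) : Cy S p Z := by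
  refine ⟨fun d hd => hZ.1 d (by simp [hd]), fun v => ?_⟩
  by_cases k : ∃ e ∈ S, p e = v
  · obtain ⟨e, he, rfl⟩ := k
    rw [h.deg_eq he]
    split_ifs with k
    · rw [(h.deg_n hZ).1, (h.deg_n hZ).2, f2_self]
    · have := hZ.2 (p' e)
      rwa [h.deg_ad, if_neg fun e => k (.inl e.symm), if_neg fun e => k (.inr e.symm), zero_add,
        zero_add] at this
  · exact deg_zero fun d hd e => k ⟨d, hd, e⟩

/-- Put `Y n = Y n.swap = deg S p' Z (p' n)`. -/
theorem Spl.cy_up (h : Spl S p t p' t' n κ) (hs : ∀ d ∈ S, d.swap ∈ S) (hZ : Cy S p Z) :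
    ∃ Y, Cy (ad S n) p' Y ∧ ∀ d ∈ S, Y d = Z d := by
  have e0 : ∀ d ∈ S, (if d ∈ S then Z d else deg S p' Z (p' n)) = Z d := fun d hd => if_pos hd
  have e1 : deg S p' Z (p' n) + deg S p' Z (p' n.swap) = 0 := by
    by_cases k : ∃ e ∈ S, p' e = p' n ∨ p' e = p' n.swap
    · obtain ⟨e, he, k⟩ := k
      have := hZ.2 (p e)
      rwa [h.deg_eq he, if_pos k] at this
    · rw [deg_zero fun d hd e => k ⟨d, hd, .inl e⟩, deg_zero fun d hd e => k ⟨d, hd, .inr e⟩,
        add_zero]
  refine ⟨fun d => if d ∈ S then Z d else deg S p' Z (p' n), ⟨fun d hd => ?_, fun v => ?_⟩, e0⟩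
  · rcases mem_ad.1 hd with rfl | rfl | hd
    · simp only [if_neg h.hn, if_neg h.hn']
    · simp only [Prod.swap_swap, if_neg h.hn, if_neg h.hn']
    · simp only [if_pos hd, if_pos (hs d hd), hZ.1 d hd]
  · have e2 : deg S p' (fun d => if d ∈ S then Z d else deg S p' Z (p' n)) v = deg S p' Z v :=
      sum_congr rfl fun d hd => by simp only [if_pos hd]
    rw [h.deg_ad, e2, if_neg h.hn, if_neg h.hn']
    by_cases k1 : p' n = v
    · subst k1
      rw [if_pos rfl, if_neg h.ne.symm, add_zero, f2_self]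
    by_cases k2 : p' n.swap = v
    · subst k2
      rw [if_pos rfl, if_neg h.ne, zero_add, e1]
    rw [if_neg k1, if_neg k2, zero_add, zero_add]
    by_cases k : ∃ e ∈ S, p' e = v
    · obtain ⟨e, he, rfl⟩ := k
      have := hZ.2 (p e)
      rwa [h.deg_eq he, if_neg (not_or.2 ⟨Ne.symm k1, Ne.symm k2⟩)] at this
    · exact deg_zero fun d hd e => k ⟨d, hd, e⟩

/-- `sum_ad` twice; `Z n = deg S p' Z (p' n) = deg S p' Z (p' n.swap)` and the same for `Z'`;
`t' n a = t' a n + 1`; the terms `Z n * Z' n * (κ + (κ + 1))` cancel the diagonal terms of `n`,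
`n.swap` together with the two `1`s. -/
theorem Spl.bf (h : Spl S p t p' t' n κ) (hp : Pre (ad S n) p' t') (hZ : Cy (ad S n) p' Z)
    (hZ' : Cy (ad S n) p' Z') : Bf (ad S n) p' t' Z Z' = Bf S p t Z Z' := by
  obtain ⟨a1, a2⟩ := h.deg_n hZ
  obtain ⟨b1, b2⟩ := h.deg_n hZ'
  have hne := h.ne
  have key : ∀ d ∈ S, ∀ e ∈ S, (if p d = p e then Z d * Z' e * t d e else 0) =
      (if p' d = p' e then Z d * Z' e * t' d e else 0) +
      (if p' d = p' n then Z d * t' d n else 0) * (if p' e = p' n.swap then Z' e else 0) +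
      (if p' d = p' n then Z d else 0) * (if p' n.swap = p' e then Z' e * t' n.swap e else 0) +
      (if p' d = p' n.swap then Z d * t' d n.swap else 0) * (if p' e = p' n then Z' e else 0) +
      (if p' d = p' n.swap then Z d else 0) * (if p' n = p' e then Z' e * t' n e else 0) +
      κ * ((if p' d = p' n then Z d else 0) * (if p' e = p' n.swap then Z' e else 0)) +
      (κ + 1) * ((if p' d = p' n.swap then Z d else 0) * (if p' e = p' n then Z' e else 0)) := by
    intro d hd e he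
    have k := h.hp d hd e he
    by_cases k0 : p' d = p' e
    · rw [if_pos (k.2 (.inl k0)), if_pos k0, h.h0 d hd e he k0]
      grind
    by_cases k1 : p' d = p' n ∧ p' e = p' n.swap
    · rw [if_pos (k.2 (.inr (.inl k1))), h.h1 d hd e he k1.1 k1.2]
      grind
    by_cases k2 : p' d = p' n.swap ∧ p' e = p' n
    · rw [if_pos (k.2 (.inr (.inr k2))), h.h2 d hd e he k2.1 k2.2]
      grind
    grind
  rw [Bf, Bf, sum_congr rfl fun d hd => sum_congr rfl fun e he => key d hd e he]
  simp only [sum_ad h.hn h.hn' h.ne', sum_add_distrib, ← mul_sum, ← sum_mul, if_true, if_neg hne,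
    if_neg hne.symm, hZ.1 n (by simp), hZ'.1 n (by simp)]
  unfold deg at a1 a2 b1 b2
  rw [a1, a2, b1, b2]
  have c1 : ∀ (c : F2) (m : Dt N), ∑ e ∈ S, (if p' m = p' e then c * Z' e * t' m e else 0) =
      c * ∑ e ∈ S, if p' m = p' e then Z' e * t' m e else 0 := fun c m => by
    rw [mul_sum]
    exact sum_congr rfl fun e _ => by split_ifs <;> ring
  have c2 : ∀ (c : F2) (m : Dt N), ∑ d ∈ S, (if p' d = p' m then Z d * c * t' d m else 0) =
      (∑ d ∈ S, if p' d = p' m then Z d * t' d m else 0) * c := fun c m => by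
    rw [sum_mul]
    exact sum_congr rfl fun e _ => by split_ifs <;> ring
  rw [c1, c1, c2, c2]
  linear_combination Z n * Z' n * hp.diag n (by simp) - κ * Z n * Z' n * f2_two

theorem Spl.valid_down (h : Spl S p t p' t' n κ) (hv : Valid (ad S n) p' t') : Valid S p t := by
  have hm : ∀ d ∈ S, d ∈ ad S n := fun d hd => by simp [hd]
  have hs : ∀ d ∈ S, d.swap ∈ S := fun d hd => by
    rcases mem_ad.1 (hv.sym d (hm d hd)) with e | e | e
    · exact absurd ((show d = n.swap from congrArg Prod.swap e) ▸ hd) h.hn'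
    · exact absurd ((show d = n from congrArg Prod.swap e) ▸ hd) h.hn
    · exact e
  have t1 : ∀ a ∈ S, p' a = p' n → t' a n + t' n a = 1 := fun a ha e =>
    hv.tour a (hm a ha) n (by simp) e fun k => h.hn (k ▸ ha)
  have t2 : ∀ a ∈ S, p' a = p' n.swap → t' a n.swap + t' n.swap a = 1 := fun a ha e =>
    hv.tour a (hm a ha) n.swap (by simp) e fun k => h.hn' (k ▸ ha)
  refine ⟨⟨hs, fun d hd => hv.ne d (hm d hd), fun d hd e he k hn => ?_, fun d hd => ?_⟩,
    fun Z Z' hZ hZ' => ?_⟩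
  · rcases (h.hp d hd e he).1 k with k | k | k
    · rw [h.h0 d hd e he k, h.h0 e he d hd k.symm]
      exact hv.tour d (hm d hd) e (hm e he) k hn
    · rw [h.h1 d hd e he k.1 k.2, h.h2 e he d hd k.2 k.1]
      linear_combination t1 d hd k.1 + t2 e he k.2 + (κ + 1) * f2_two
    · rw [h.h2 d hd e he k.1 k.2, h.h1 e he d hd k.2 k.1]
      linear_combination t2 d hd k.1 + t1 e he k.2 + (κ + 1) * f2_two
  · rw [h.h0 d hd d hd rfl, h.h0 _ (hs d hd) _ (hs d hd) rfl]
    exact hv.diag d (hm d hd)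
  · obtain ⟨Y, hY, e⟩ := h.cy_up hs hZ
    obtain ⟨Y', hY', e'⟩ := h.cy_up hs hZ'
    refine Eq.trans ?_ ((h.bf hv.toPre hY hY').symm.trans (hv.zero _ _ hY hY'))
    exact sum_congr rfl fun d hd => sum_congr rfl fun g hg => by rw [e d hd, e' g hg]

theorem Spl.valid_up (h : Spl S p t p' t' n κ) (hv : Valid S p t) (hp : Pre (ad S n) p' t') :
    Valid (ad S n) p' t' :=
  ⟨hp, fun _ _ hZ hZ' => (h.bf hp hZ hZ').trans (hv.zero _ _ (h.cy_down hZ) (h.cy_down hZ'))⟩

end Pool.Agent.P.MP_2b4a47_lc.HT
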