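import Pool.Agent.P.MP_2b4a47_lc.HT.Spl

/-! Splitting a vertex and contracting an edge: orientations and successors. -/

namespace Pool.Agent.P.MP_2b4a47_lc.HT

open Finset

variable {V N : Type} [DecidableEq V] [DecidableEq N] {S : Finset (Dt N)} {p p' : Dt N → V}
  {t t' : Dt N → Dt N → F2} {Z Z' Y : Dt N → F2} {x y n : Dt N} {κ : F2}

/-- Two darts on the side of `n`, one on the other side. -/
theorem Spl.cc_mix (h : Spl S p t p' t' n κ) (ht : Tour (ad S n) p' t') {z : Dt N} (hx : x ∈ S)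
    (hy : y ∈ S) (hz : z ∈ S) (e1 : p' x = p' n) (e2 : p' y = p' n) (e3 : p' z = p' n.swap) :
    cc t x y z = cc t' x y n := by
  unfold cc
  rw [h.h0 x hx y hy (e1.trans e2.symm), h.h1 y hy z hz e2 e3, h.h2 z hz x hx e3 e1]
  linear_combination ht z (mem_ad.2 (.inr (.inr hz))) n.swap (mem_ad.2 (.inr (.inl rfl))) e3
    (ne_of_mem_of_not_mem hz h.hn') + (κ + 1) * f2_two

theorem Spl.splc_same (h : Spl S p t p' t' n κ) {z : Dt N} (hx : x ∈ S) (hy : y ∈ S) (hz : z ∈ S)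
    (e1 : p' y = p' x) (e2 : p' z = p' x) : cc t x y z = cc t' x y z := by
  unfold cc
  rw [h.h0 x hx y hy e1.symm, h.h0 y hy z hz (e1.trans e2.symm), h.h0 z hz x hx e2]

theorem Spl.splc_mid (h : Spl S p t p' t' n κ) (ht : Tour (ad S n) p' t') {z : Dt N} (hx : x ∈ S)
    (hy : y ∈ S) (hz : z ∈ S) (e1 : p' x = p' n) (e2 : p' y = p' n.swap) (e3 : p' z = p' n) :
    cc t x y z = cc t' x n z := by
  rw [cc_rot t z x y, h.cc_mix ht hz hx hy e3 e1 e2, cc_rot t' z x n]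

theorem Spl.splc_fst (h : Spl S p t p' t' n κ) (ht : Tour (ad S n) p' t') {z : Dt N} (hx : x ∈ S)
    (hy : y ∈ S) (hz : z ∈ S) (e1 : p' x = p' n) (e2 : p' y = p' n.swap) (e3 : p' z = p' n.swap) :
    cc t x y z = cc t' n.swap y z := by
  rw [← cc_rot t x y z, h.symm.cc_mix (ad_swap (S := S) (n := n) ▸ ht) hy hz hx e2 e3 e1,
    cc_rot t' n.swap y z]

theorem Spl.splc_side (h : Spl S p t p' t' n κ) (hx : x ∈ S) (hy : y ∈ S) (e : p y = p x)
    (e1 : p' x = p' n) : p' y = p' n ∨ p' y = p' n.swap := by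
  rcases (h.hp y hy x hx).1 e with e2 | e2 | e2
  exacts [.inl (e2.trans e1), .inl e2.1, .inr e2.1]

theorem Spl.splc_cyc (h : Spl S p t p' t' n κ) (ht : Tour (ad S n) p' t')
    (hc : Cyc (ad S n) p' t') {z w : Dt N} (hx : x ∈ S) (hy : y ∈ S) (hz : z ∈ S) (hw : w ∈ S)
    (e0 : p' x = p' n) (e1 : p y = p x) (e2 : p z = p x) (e3 : p w = p x) (n1 : x ≠ y) (n2 : x ≠ z)
    (n3 : x ≠ w) (n4 : y ≠ z) (n5 : y ≠ w) (n6 : z ≠ w) (c1 : cc t x y z = 0)
    (c2 : cc t x z w = 0) : cc t x y w = 0 := by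
  have m : ∀ {d}, d ∈ S → d ∈ ad S n := fun hd => mem_ad.2 (.inr (.inr hd))
  have mn : n ∈ ad S n := mem_ad.2 (.inl rfl)
  have k : ∀ {d}, d ∈ S → d ≠ n := fun hd => ne_of_mem_of_not_mem hd h.hn
  have k' : ∀ {d}, d ∈ S → n.swap ≠ d := fun hd => (ne_of_mem_of_not_mem hd h.hn').symm
  rcases h.splc_side hx hy e1 e0 with f1 | f1 <;> rcases h.splc_side hx hz e2 e0 with f2 | f2 <;>
    rcases h.splc_side hx hw e3 e0 with f3 | f3
  · rw [h.splc_same hx hy hz (f1.trans e0.symm) (f2.trans e0.symm)] at c1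
    rw [h.splc_same hx hz hw (f2.trans e0.symm) (f3.trans e0.symm)] at c2
    rw [h.splc_same hx hy hw (f1.trans e0.symm) (f3.trans e0.symm)]
    exact hc x (m hx) y (m hy) z (m hz) w (m hw) (f1.trans e0.symm) (f2.trans e0.symm)
      (f3.trans e0.symm) n1 n2 n3 n4 n5 n6 c1 c2
  · rw [h.splc_same hx hy hz (f1.trans e0.symm) (f2.trans e0.symm)] at c1
    rw [h.cc_mix ht hx hz hw e0 f2 f3] at c2
    rw [h.cc_mix ht hx hy hw e0 f1 f3]
    exact hc x (m hx) y (m hy) z (m hz) n mn (f1.trans e0.symm) (f2.trans e0.symm)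
      e0.symm n1 n2 (k hx) n4 (k hy) (k hz) c1 c2
  · rw [h.cc_mix ht hx hy hz e0 f1 f2] at c1
    rw [h.splc_mid ht hx hz hw e0 f2 f3] at c2
    rw [h.splc_same hx hy hw (f1.trans e0.symm) (f3.trans e0.symm)]
    exact hc x (m hx) y (m hy) n mn w (m hw) (f1.trans e0.symm) e0.symm
      (f3.trans e0.symm) n1 (k hx) n3 (k hy) n5 (k hw).symm c1 c2
  · rw [h.cc_mix ht hx hy hz e0 f1 f2] at c1
    rwa [h.cc_mix ht hx hy hw e0 f1 f3]
  · rw [h.splc_mid ht hx hy hz e0 f1 f2] at c1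
    rw [h.splc_same hx hz hw (f2.trans e0.symm) (f3.trans e0.symm)] at c2
    rw [h.splc_mid ht hx hy hw e0 f1 f3]
    exact hc x (m hx) n mn z (m hz) w (m hw) e0.symm (f2.trans e0.symm)
      (f3.trans e0.symm) (k hx) n2 n3 (k hz).symm (k hw).symm n6 c1 c2
  · rw [h.splc_mid ht hx hy hz e0 f1 f2] at c1
    rw [h.cc_mix ht hx hz hw e0 f2 f3] at c2
    have e := ht.cc_swap (m hx) (m hz) mn (f2.trans e0.symm) e0.symm n2 (k hx) (k hz)
    rw [c1, c2] at e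
    exact absurd e (by decide)
  · rw [h.splc_mid ht hx hz hw e0 f2 f3] at c2
    rwa [h.splc_mid ht hx hy hw e0 f1 f3]
  · rw [h.splc_fst ht hx hy hz e0 f1 f2] at c1
    rw [h.splc_fst ht hx hz hw e0 f2 f3] at c2
    rw [h.splc_fst ht hx hy hw e0 f1 f3]
    exact hc n.swap (mem_ad.2 (.inr (.inl rfl))) y (m hy) z (m hz) w (m hw) f1 f2 f3 (k' hy)
      (k' hz) (k' hw) n4 n5 n6 c1 c2

/-- By the sides of the four darts (`cc_mix`, `Spl.symm`, `cc_rot`, `Tour.cc_swap`); if two darts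
are on each side the claim follows from `cc_swap` alone. -/
theorem Spl.cyc_down (h : Spl S p t p' t' n κ) (ht : Tour (ad S n) p' t')
    (hc : Cyc (ad S n) p' t') : Cyc S p t := by
  intro x hx y hy z hz w hw e1 e2 e3 n1 n2 n3 n4 n5 n6 c1 c2
  by_cases a1 : p' x = p' n
  · exact h.splc_cyc ht hc hx hy hz hw a1 e1 e2 e3 n1 n2 n3 n4 n5 n6 c1 c2
  by_cases a2 : p' x = p' n.swap
  · exact h.symm.splc_cyc (ad_swap (S := S) (n := n) ▸ ht) (ad_swap (S := S) (n := n) ▸ hc) hx hy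
      hz hw a2 e1 e2 e3 n1 n2 n3 n4 n5 n6 c1 c2
  have f : ∀ {d}, d ∈ S → p d = p x → p' d = p' x := fun {d} hd e =>
    ((h.hp d hd x hx).1 e).resolve_right fun e' => e'.elim (fun e => a2 e.2) fun e => a1 e.2
  have m : ∀ {d}, d ∈ S → d ∈ ad S n := fun hd => mem_ad.2 (.inr (.inr hd))
  rw [h.splc_same hx hy hz (f hy e1) (f hz e2)] at c1
  rw [h.splc_same hx hz hw (f hz e2) (f hw e3)] at c2
  rw [h.splc_same hx hy hw (f hy e1) (f hw e3)]
  exact hc x (m hx) y (m hy) z (m hz) w (m hw) (f hy e1) (f hz e2) (f hw e3) n1 n2 n3 n4 n5 n6 c1 c2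

theorem Spl.succ_same (h : Spl S p t p' t' n κ) (ht : Tour (ad S n) p' t')
    (hs : Succ (ad S n) p' t' x y) (hx : x ∈ S) (hy : y ∈ S) : Succ S p t x y := by
  obtain ⟨-, -, e1, n1, hs⟩ := hs
  refine ⟨hx, hy, (h.hp y hy x hx).2 (.inl e1), n1, fun g hg e2 n2 n3 => ?_⟩
  rcases (h.hp g hg x hx).1 e2 with e3 | ⟨e3, e4⟩ | ⟨e3, e4⟩
  · rw [h.splc_same hx hy hg e1 e3]
    exact hs g (mem_ad.2 (.inr (.inr hg))) e3 n2 n3
  · rw [h.symm.cc_mix (ad_swap (S := S) (n := n) ▸ ht) hx hy hg e4 (e1.trans e4) e3]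
    exact hs _ (mem_ad.2 (.inr (.inl rfl))) e4.symm (ne_of_mem_of_not_mem hx h.hn').symm
      (ne_of_mem_of_not_mem hy h.hn').symm
  · rw [h.cc_mix ht hx hy hg e4 (e1.trans e4) e3]
    exact hs _ (mem_ad.2 (.inl rfl)) e4.symm (ne_of_mem_of_not_mem hx h.hn).symm
      (ne_of_mem_of_not_mem hy h.hn).symm

theorem Spl.succ_mix (h : Spl S p t p' t' n κ) (ht : Tour (ad S n) p' t')
    (h1 : Succ (ad S n) p' t' x n) (h2 : Succ (ad S n) p' t' n.swap y) : Succ S p t x y := by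
  obtain ⟨hx, -, e1, n1, h1⟩ := h1
  obtain ⟨-, hy, e2, n2, h2⟩ := h2
  have hx' : x ∈ S := ((mem_ad.1 hx).resolve_left n1).resolve_left fun e => h.ne (e ▸ e1)
  have hy' : y ∈ S :=
    ((mem_ad.1 hy).resolve_left fun e => h.ne (e ▸ e2)).resolve_left n2.symm
  refine ⟨hx', hy', (h.hp y hy' x hx').2 (.inr (.inr ⟨e2, e1.symm⟩)),
    fun e => h.ne (e1.trans (e ▸ e2)), fun g hg e3 n3 n4 => ?_⟩
  rcases h.splc_side hx' hg e3 e1.symm with e4 | e4
  · rw [h.splc_mid ht hx' hy' hg e1.symm e2 e4]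
    exact h1 g (mem_ad.2 (.inr (.inr hg))) (e4.trans e1) n3 (ne_of_mem_of_not_mem hg h.hn)
  · rw [h.splc_fst ht hx' hy' hg e1.symm e2 e4]
    exact h2 g (mem_ad.2 (.inr (.inr hg))) e4 (ne_of_mem_of_not_mem hg h.hn') n4

theorem Spl.succ_up (h : Spl S p t p' t' n κ) (ht : Tour (ad S n) p' t')
    (ha : ∃ a ∈ S, p' a = p' n) (hb : ∃ b ∈ S, p' b = p' n.swap) (hs : Succ S p t x y) :
    (p' x = p' y → Succ (ad S n) p' t' x y) ∧ (p' x = p' n → p' y = p' n.swap →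
      Succ (ad S n) p' t' x n ∧ Succ (ad S n) p' t' n.swap y) := by
  obtain ⟨hx, hy, e1, n1, hs⟩ := hs
  obtain ⟨a, ha, ea⟩ := ha
  obtain ⟨b, hb, eb⟩ := hb
  have m : ∀ {d}, d ∈ S → d ∈ ad S n := fun hd => mem_ad.2 (.inr (.inr hd))
  have k : ∀ {d e}, p' d = p' n → p' e = p' n.swap → d ≠ e := fun e1 e2 e =>
    h.ne (e1.symm.trans (e ▸ e2))
  refine ⟨fun e => ⟨m hx, m hy, e.symm, n1, fun g hg e2 n2 n3 => ?_⟩, fun f1 f2 =>
    ⟨⟨m hx, mem_ad.2 (.inl rfl), f1.symm, ne_of_mem_of_not_mem hx h.hn, fun g hg e2 n2 n3 => ?_⟩,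
      mem_ad.2 (.inr (.inl rfl)), m hy, f2, (ne_of_mem_of_not_mem hy h.hn').symm,
        fun g hg e2 n2 n3 => ?_⟩⟩
  · rcases mem_ad.1 hg with rfl | rfl | hg
    · rw [← h.cc_mix ht hx hy hb e2.symm (e2.trans e).symm eb]
      exact hs b hb ((h.hp b hb x hx).2 (.inr (.inr ⟨eb, e2.symm⟩))) (k e2.symm eb).symm
        (k (e2.trans e).symm eb).symm
    · rw [← h.symm.cc_mix (ad_swap (S := S) (n := n) ▸ ht) hx hy ha e2.symm (e2.trans e).symm ea]
      exact hs a ha ((h.hp a ha x hx).2 (.inr (.inl ⟨ea, e2.symm⟩))) (k ea e2.symm)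
        (k ea (e2.trans e).symm)
    · rw [← h.splc_same hx hy hg e.symm e2]
      exact hs g hg ((h.hp g hg x hx).2 (.inl e2)) n2 n3
  · have hg' : g ∈ S :=
      ((mem_ad.1 hg).resolve_left n3).resolve_left (k (e2.trans f1) rfl)
    rw [← h.splc_mid ht hx hy hg' f1 f2 (e2.trans f1)]
    exact hs g hg' ((h.hp g hg' x hx).2 (.inl e2)) n2 (k (e2.trans f1) f2)
  · have hg' : g ∈ S := ((mem_ad.1 hg).resolve_left (k rfl e2).symm).resolve_left n2
    rw [← h.splc_fst ht hx hy hg' f1 f2 e2]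
    exact hs g hg' ((h.hp g hg' x hx).2 (.inr (.inr ⟨e2, f1⟩))) (k f1 e2).symm n3

/-- Define `t` by the formulas of `Spl`. -/
theorem exists_merge (t' : Dt N → Dt N → F2) (h1 : n ∉ S) (h2 : n.swap ∉ S)
    (h3 : p' n ≠ p' n.swap) (h4 : ∀ d ∈ S, ∀ e ∈ S, p d = p e ↔
      p' d = p' e ∨ (p' d = p' n ∧ p' e = p' n.swap) ∨ (p' d = p' n.swap ∧ p' e = p' n)) :
    ∃ t, Spl S p t p' t' n 0 := by
  refine ⟨fun a b => if p' a = p' b then t' a b else if p' a = p' n then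
    t' a n + t' n.swap b + 0 else t' a n.swap + t' n b + (0 + 1), h1, h2, h3, h4,
    fun a _ b _ e => if_pos e, fun a _ b _ e1 e2 => ?_, fun a _ b _ e1 e2 => ?_⟩
  · rw [if_neg fun e => h3 ((e1.symm.trans e).trans e2), if_pos e1]
  · rw [if_neg fun e => h3 ((e2.symm.trans e.symm).trans e1), if_neg fun e => h3 (e.symm.trans e1)]

end Pool.Agent.P.MP_2b4a47_lc.HT
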