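import Pool.Agent.P.MP_2b4a47_lc.HT.Spl

/-! A vertex with a rank-one block of the tournament can be split. -/

namespace Pool.Agent.P.MP_2b4a47_lc.HT

open Finset

variable {V N : Type} [DecidableEq V] [DecidableEq N] {S : Finset (Dt N)} {p p' : Dt N → V}
  {t t' : Dt N → Dt N → F2} {Z Z' Y : Dt N → F2} {x y n : Dt N} {κ : F2}

private theorem split_mu {v v' : V} {A : Dt N → Prop} (h1 : n ∉ S) (h2 : n.swap ∉ S)
    (hv' : v' ∉ S.image p) (e1 : p' n = v) (e2 : p' n.swap = v')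
    (k1 : ∀ d ∈ S, p' d = v ↔ p d = v ∧ A d) (k2 : ∀ d ∈ S, p' d = v' ↔ p d = v ∧ ¬ A d)
    (k3 : ∀ d ∈ S, ∀ w, w ≠ v → w ≠ v' → (p' d = w ↔ p d = w))
    (ha : ∃ a ∈ S, ∃ a' ∈ S, a ≠ a' ∧ p a = v ∧ p a' = v ∧ A a ∧ A a')
    (hb : ∃ b ∈ S, ∃ b' ∈ S, b ≠ b' ∧ p b = v ∧ p b' = v ∧ ¬ A b ∧ ¬ A b') :
    mu (ad S n) p' < mu S p := by
  classical
  obtain ⟨a, haS, a', haS', na, pa, pa', Aa, Aa'⟩ := ha
  obtain ⟨b, hbS, b', hbS', nb, pb, pb', Ab, Ab'⟩ := hb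
  have hv : v ∈ S.image p := mem_image.2 ⟨a, haS, pa⟩
  have nv : v ≠ v' := fun e => hv' (e ▸ hv)
  have s1 : (ad S n).image p' ⊆ insert v' (S.image p) := by
    intro w hw
    obtain ⟨d, hd, rfl⟩ := mem_image.1 hw
    by_cases c1 : p' d = v
    · exact mem_insert_of_mem (c1 ▸ hv)
    by_cases c2 : p' d = v'
    · exact mem_insert.2 (.inl c2)
    rcases mem_ad.1 hd with rfl | rfl | hd
    exacts [absurd e1 c1, absurd e2 c2,
      mem_insert_of_mem (mem_image.2 ⟨d, hd, (k3 d hd _ c1 c2).1 rfl⟩)]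
  have f1 : {d ∈ ad S n | p' d = v} = insert n {d ∈ {d ∈ S | p d = v} | A d} := by
    ext d
    simp only [mem_filter, mem_ad, mem_insert]
    constructor
    · rintro ⟨rfl | rfl | hd, e⟩
      exacts [.inl rfl, absurd (e.symm.trans e2) nv,
        .inr ⟨⟨hd, ((k1 d hd).1 e).1⟩, ((k1 d hd).1 e).2⟩]
    · rintro (rfl | ⟨⟨hd, e⟩, e'⟩)
      exacts [⟨.inl rfl, e1⟩, ⟨.inr (.inr hd), (k1 d hd).2 ⟨e, e'⟩⟩]
  have f2 : {d ∈ ad S n | p' d = v'} = insert n.swap {d ∈ {d ∈ S | p d = v} | ¬ A d} := by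
    ext d
    simp only [mem_filter, mem_ad, mem_insert]
    constructor
    · rintro ⟨rfl | rfl | hd, e⟩
      exacts [absurd (e1.symm.trans e) nv, .inl rfl,
        .inr ⟨⟨hd, ((k2 d hd).1 e).1⟩, ((k2 d hd).1 e).2⟩]
    · rintro (rfl | ⟨⟨hd, e⟩, e'⟩)
      exacts [⟨.inr (.inl rfl), e2⟩, ⟨.inr (.inr hd), (k2 d hd).2 ⟨e, e'⟩⟩]
  have f3 : ∀ w ∈ (S.image p).erase v, {d ∈ ad S n | p' d = w} = {d ∈ S | p d = w} := by
    intro w hw
    obtain ⟨w1, hw⟩ := mem_erase.1 hw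
    have w2 : w ≠ v' := fun e => hv' (e ▸ hw)
    ext d
    simp only [mem_filter, mem_ad]
    constructor
    · rintro ⟨rfl | rfl | hd, e⟩
      exacts [absurd (e.symm.trans e1) w1, absurd (e.symm.trans e2) w2,
        ⟨hd, (k3 d hd w w1 w2).1 e⟩]
    · exact fun hd => ⟨.inr (.inr hd.1), (k3 d hd.1 w w1 w2).2 hd.2⟩
  have c1 : 1 < #{d ∈ {d ∈ S | p d = v} | A d} := one_lt_card.2
    ⟨a, by simp only [mem_filter]; exact ⟨⟨haS, pa⟩, Aa⟩,
      a', by simp only [mem_filter]; exact ⟨⟨haS', pa'⟩, Aa'⟩, na⟩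
  have c2 : 1 < #{d ∈ {d ∈ S | p d = v} | ¬ A d} := one_lt_card.2
    ⟨b, by simp only [mem_filter]; exact ⟨⟨hbS, pb⟩, Ab⟩,
      b', by simp only [mem_filter]; exact ⟨⟨hbS', pb'⟩, Ab'⟩, nb⟩
  have c3 := card_filter_add_card_filter_not (s := {d ∈ S | p d = v}) A
  refine (sum_le_sum_of_subset s1).trans_lt ?_
  rw [mu, sum_insert hv', ← add_sum_erase _ _ hv, ← add_sum_erase _ _ hv,
    sum_congr rfl fun w hw => by rw [f3 w hw], f1, f2,
    card_insert_of_notMem fun e => h2 (mem_filter.1 (mem_filter.1 e).1).1,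
    card_insert_of_notMem fun e => h1 (mem_filter.1 (mem_filter.1 e).1).1, ← c3]
  have key : ∀ a b s : ℕ, 1 < a → 1 < b → b + 1 - 3 + (a + 1 - 3 + s) < a + b - 3 + s := by
    omega
  exact key _ _ _ c1 c2

/-- `n` from `exists_fresh`, a vertex `v'` that is no tail; `p' n = v`, `p' n.swap = v'`, the darts
at `v` outside `A` move to `v'`; `t' a n = φ a`, `t' n a = φ a + 1`, `t' n.swap b = ψ b`,
`t' b n.swap = ψ b + 1`, `t' n n = 0`, `t' n.swap n.swap = 1`; `Spl.valid_up`. For `mu`, sum over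
`(ad S n).image p' ⊇ S.image p` and split off `{v, v'}`: degrees `a + b, 0` become
`a + 1, b + 1` with `a, b ≥ 2`. -/
theorem exists_split [Infinite V] [Infinite N] (h : Valid S p t) (v : V) (A : Dt N → Prop)
    (φ ψ : Dt N → F2) (ha : ∃ a ∈ S, ∃ a' ∈ S, a ≠ a' ∧ p a = v ∧ p a' = v ∧ A a ∧ A a')
    (hb : ∃ b ∈ S, ∃ b' ∈ S, b ≠ b' ∧ p b = v ∧ p b' = v ∧ ¬ A b ∧ ¬ A b')
    (ht : ∀ a ∈ S, ∀ b ∈ S, p a = v → p b = v → A a → ¬ A b → t a b = φ a + ψ b) :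
    ∃ n p' t', Spl S p t p' t' n 0 ∧ Valid (ad S n) p' t' ∧ mu (ad S n) p' < mu S p ∧
      (∃ a ∈ S, p' a = p' n) ∧ ∃ b ∈ S, p' b = p' n.swap := by
  classical
  obtain ⟨n, h1, h2, h3⟩ := exists_fresh S
  obtain ⟨v', hv'⟩ := Infinite.exists_notMem_finset (S.image p)
  have hpv : ∀ d ∈ S, p d ≠ v' := fun d hd e => hv' (mem_image.2 ⟨d, hd, e⟩)
  have n1 : ∀ d ∈ S, d ≠ n := fun d hd e => h1 (e ▸ hd)
  have n2 : ∀ d ∈ S, d ≠ n.swap := fun d hd e => h2 (e ▸ hd)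
  have nv : v ≠ v' := by
    obtain ⟨a, haS, -, -, -, pa, -⟩ := ha
    exact pa ▸ hpv a haS
  obtain ⟨p', e1, e2, e3⟩ : ∃ p' : Dt N → V, p' n = v ∧ p' n.swap = v' ∧
      ∀ d ∈ S, p' d = if p d = v ∧ ¬ A d then v' else p d :=
    ⟨fun d => if d = n then v else if d = n.swap then v' else
      if p d = v ∧ ¬ A d then v' else p d, if_pos rfl, by simp only [if_neg h3, if_true],
      fun d hd => by simp only [if_neg (n1 d hd), if_neg (n2 d hd)]⟩
  obtain ⟨t', t0, t1, t2, t3, t4, t5, t6⟩ : ∃ t' : Dt N → Dt N → F2,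
      (∀ a ∈ S, ∀ b ∈ S, t' a b = t a b) ∧ (∀ a ∈ S, t' a n = φ a) ∧
      (∀ a ∈ S, t' n a = φ a + 1) ∧ (∀ a ∈ S, t' n.swap a = ψ a) ∧
      (∀ a ∈ S, t' a n.swap = ψ a + 1) ∧ t' n n = 0 ∧ t' n.swap n.swap = 1 :=
    ⟨fun d e => if d = n then (if e = n then 0 else φ e + 1) else
      if d = n.swap then (if e = n.swap then 1 else ψ e) else
      if e = n then φ d else if e = n.swap then ψ d + 1 else t d e,
      fun a ha b hb => by
        simp only [if_neg (n1 a ha), if_neg (n2 a ha), if_neg (n1 b hb), if_neg (n2 b hb)],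
      fun a ha => by simp only [if_neg (n1 a ha), if_neg (n2 a ha), if_true],
      fun a ha => by simp only [if_neg (n1 a ha), if_true],
      fun a ha => by simp only [if_neg h3, if_neg (n2 a ha), if_true],
      fun a ha => by simp only [if_neg (n1 a ha), if_neg (n2 a ha), if_neg h3, if_true],
      by simp only [if_true], by simp only [if_neg h3, if_true]⟩
  have k1 : ∀ d ∈ S, p' d = v ↔ p d = v ∧ A d := fun d hd => by
    rw [e3 d hd]
    split_ifs with c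
    · exact ⟨fun e => absurd e.symm nv, fun e => absurd e.2 c.2⟩
    · exact ⟨fun e => ⟨e, by_contra fun e' => c ⟨e, e'⟩⟩, fun e => e.1⟩
  have k2 : ∀ d ∈ S, p' d = v' ↔ p d = v ∧ ¬ A d := fun d hd => by
    rw [e3 d hd]
    split_ifs with c
    · exact ⟨fun _ => c, fun _ => rfl⟩
    · exact ⟨fun e => absurd e (hpv d hd), fun e => absurd e c⟩
  have k3 : ∀ d ∈ S, ∀ w, w ≠ v → w ≠ v' → (p' d = w ↔ p d = w) := fun d hd w w1 w2 => by
    rw [e3 d hd]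
    split_ifs with c
    · exact ⟨fun e => absurd e.symm w2, fun e => absurd (e.symm.trans c.1) w1⟩
    · rfl
  have k4 : ∀ d ∈ S, ∀ e ∈ S, p' d = p' e → p d = p e := fun d hd e he c => by
    by_cases c1 : p' d = v
    · exact ((k1 d hd).1 c1).1.trans ((k1 e he).1 (c.symm.trans c1)).1.symm
    by_cases c2 : p' d = v'
    · exact ((k2 d hd).1 c2).1.trans ((k2 e he).1 (c.symm.trans c2)).1.symm
    · exact ((k3 d hd _ c1 c2).1 rfl).trans ((k3 e he _ c1 c2).1 c.symm).symm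
  have hS : Spl S p t p' t' n 0 := by
    refine ⟨h1, h2, by rwa [e1, e2], fun d hd e he => ?_, fun a ha b hb _ => (t0 a ha b hb).symm,
      fun a ha b hb c1 c2 => ?_, fun a ha b hb c1 c2 => ?_⟩
    · rw [e1, e2]
      refine ⟨fun c => ?_, ?_⟩
      · by_cases c1 : p d = v
        · by_cases c2 : A d <;> by_cases c3 : A e
          · exact .inl (((k1 d hd).2 ⟨c1, c2⟩).trans ((k1 e he).2 ⟨c ▸ c1, c3⟩).symm)
          · exact .inr (.inl ⟨(k1 d hd).2 ⟨c1, c2⟩, (k2 e he).2 ⟨c ▸ c1, c3⟩⟩)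
          · exact .inr (.inr ⟨(k2 d hd).2 ⟨c1, c2⟩, (k1 e he).2 ⟨c ▸ c1, c3⟩⟩)
          · exact .inl (((k2 d hd).2 ⟨c1, c2⟩).trans ((k2 e he).2 ⟨c ▸ c1, c3⟩).symm)
        · exact .inl (((k3 d hd _ c1 (hpv d hd)).2 rfl).trans
            ((k3 e he _ c1 (hpv d hd)).2 c.symm).symm)
      · rintro (c | ⟨c1, c2⟩ | ⟨c1, c2⟩)
        exacts [k4 d hd e he c, ((k1 d hd).1 c1).1.trans ((k2 e he).1 c2).1.symm,
          ((k2 d hd).1 c1).1.trans ((k1 e he).1 c2).1.symm]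
    · rw [e1, k1 a ha] at c1
      rw [e2, k2 b hb] at c2
      rw [ht a ha b hb c1.1 c2.1 c1.2 c2.2, t1 a ha, t3 b hb, add_zero]
    · rw [e2, k2 a ha] at c1
      rw [e1, k1 b hb] at c2
      have c3 := h.tour a ha b hb (c1.1.trans c2.1.symm) fun e => c1.2 (e ▸ c2.2)
      rw [ht b hb a ha c2.1 c1.1 c2.2 c1.2] at c3
      rw [t4 a ha, t2 b hb]
      linear_combination c3 - (φ b + ψ a + 1) * f2_two
  have hP : Pre (ad S n) p' t' := by
    refine ⟨fun d hd => ?_, fun d hd => ?_, fun d hd e he c hn => ?_, fun d hd => ?_⟩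
    · rcases mem_ad.1 hd with rfl | rfl | hd
      exacts [mem_ad.2 (.inr (.inl rfl)), mem_ad.2 (.inl rfl), mem_ad.2 (.inr (.inr (h.sym d hd)))]
    · rcases mem_ad.1 hd with rfl | rfl | hd
      exacts [h3, h3.symm, h.ne d hd]
    · rcases mem_ad.1 hd with c1 | c1 | c1 <;> rcases mem_ad.1 he with c2 | c2 | c2
      · exact absurd (c1.trans c2.symm) hn
      · exact absurd (by rwa [c1, c2] at c) hS.ne
      · rw [c1, t1 e c2, t2 e c2]
        linear_combination f2_self (φ e)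
      · exact absurd (by rw [c1, c2] at c; exact c.symm) hS.ne
      · exact absurd (c1.trans c2.symm) hn
      · rw [c1, t3 e c2, t4 e c2]
        linear_combination f2_self (ψ e)
      · rw [c2, t1 d c1, t2 d c1]
        linear_combination f2_self (φ d)
      · rw [c2, t3 d c1, t4 d c1]
        linear_combination f2_self (ψ d)
      · rw [t0 d c1 e c2, t0 e c2 d c1]
        exact h.tour d c1 e c2 (k4 d c1 e c2 c) hn
    · rcases mem_ad.1 hd with rfl | rfl | hd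
      · rw [t5, t6, zero_add]
      · rw [Prod.swap_swap, t5, t6, add_zero]
      · rw [t0 d hd d hd, t0 _ (h.sym d hd) _ (h.sym d hd)]
        exact h.diag d hd
  refine ⟨n, p', t', hS, hS.valid_up h hP, split_mu h1 h2 hv' e1 e2 k1 k2 k3 ha hb, ?_, ?_⟩
  · obtain ⟨a, haS, -, -, -, pa, -, Aa, -⟩ := ha
    exact ⟨a, haS, ((k1 a haS).2 ⟨pa, Aa⟩).trans e1.symm⟩
  · obtain ⟨b, hbS, -, -, -, pb, -, Ab, -⟩ := hb
    exact ⟨b, hbS, ((k2 b hbS).2 ⟨pb, Ab⟩).trans e2.symm⟩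

end Pool.Agent.P.MP_2b4a47_lc.HT
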