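import Pool.Agent.P.MP_2b4a47_lc.HT.Strong
import Pool.Agent.P.MP_2b4a47_lc.HT.Grow

/-! The connected map of a solution of the linear system. -/

namespace Pool.Agent.P.MP_2b4a47_lc.HT

open Finset

variable {V : Type} [DecidableEq V] {L : List (List V)} {al be τ o : V → V → V → F2}

/-- Darts `(a, b)` with `Adj L a b`, `p = Prod.fst`, `t d e = τ d.1 d.2 e.2`. Sum `Nx` against
`Z d * Z' e`: the `al` and `be` terms vanish by the cycle conditions, the total by `sum_sym`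
twice. Then `Valid.exists_cyc`. -/
theorem Sys.map [Infinite V] (h : Sys L al be τ o) :
    ∃ (S : Finset (Dt V)) (p : Dt V → V) (t : Dt V → Dt V → F2), Gd S p t ∧
      (∀ a b, Ad S p a b ↔ Adj L a b) ∧
      ∀ a b c, Tri L a b c → o a b c = 0 → Fc S p t a b c := by
  classical
  obtain ⟨S, hS⟩ : ∃ S : Finset (Dt V), ∀ d, d ∈ S ↔ Adj L d.1 d.2 :=
    ⟨(L.flatten.toFinset ×ˢ L.flatten.toFinset).filter fun d => Adj L d.1 d.2, fun d =>
      ⟨fun k => (mem_filter.1 k).2, fun k => mem_filter.2 ⟨mem_product.2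
        ⟨List.mem_toFinset.2 k.mem, List.mem_toFinset.2 k.symm.mem⟩, k⟩⟩⟩
  have s1 : ∀ d ∈ S, d.swap ∈ S := fun d hd => (hS _).2 ((hS d).1 hd).symm
  have s2 : ∀ d ∈ S, d.swap ≠ d := fun d hd e => ((hS d).1 hd).1 (congrArg Prod.snd e)
  have hv : Valid S Prod.fst fun d e => τ d.1 d.2 e.2 := by
    refine ⟨⟨s1, s2, ?_, fun d hd => h.diag _ _ ((hS d).1 hd)⟩, fun Z Z' hZ hZ' => ?_⟩
    · rintro ⟨v, a⟩ hd ⟨v', b⟩ he (rfl : v = v') hn
      exact h.tour v a b ((hS _).1 hd) ((hS _).1 he) fun e => hn (e ▸ rfl)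
    have e1 : ∑ d ∈ S, ∑ e ∈ S, Z d * Z' e * Nx al be τ d.1 d.2 e.1 e.2 = 0 := by
      refine sum_sym s1 s2 fun d hd => ?_
      rw [← sum_add_distrib]
      refine sum_sym s1 s2 fun e he => ?_
      rw [hZ.1 d hd, hZ'.1 e he]
      have := h.cross _ _ _ _ ((hS d).1 hd) ((hS e).1 he)
      simp only [Prod.fst_swap, Prod.snd_swap]
      linear_combination Z d * Z' e * this
    have e2 : ∑ d ∈ S, ∑ e ∈ S, Z d * (Z' e * al d.1 d.2 e.1) = 0 :=
      sum_eq_zero fun d _ => by rw [← mul_sum, hZ'.dual fun w => al d.1 d.2 w, mul_zero]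
    have e3 : ∑ d ∈ S, ∑ e ∈ S, Z' e * (Z d * be e.1 e.2 d.1) = 0 := by
      rw [sum_comm]
      exact sum_eq_zero fun e _ => by rw [← mul_sum, hZ.dual fun w => be e.1 e.2 w, mul_zero]
    have e4 : ∑ d ∈ S, ∑ e ∈ S, Z d * Z' e * Nx al be τ d.1 d.2 e.1 e.2 =
        ∑ d ∈ S, ∑ e ∈ S, Z d * (Z' e * al d.1 d.2 e.1) +
          ∑ d ∈ S, ∑ e ∈ S, Z' e * (Z d * be e.1 e.2 d.1) +
          Bf S Prod.fst (fun d e => τ d.1 d.2 e.2) Z Z' := by
      simp only [Bf, ← sum_add_distrib]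
      refine sum_congr rfl fun d _ => sum_congr rfl fun e _ => ?_
      unfold Nx
      split_ifs <;> ring
    rw [e1, e2, e3, zero_add, zero_add] at e4
    exact e4.symm
  obtain ⟨t, v, c, k⟩ := hv.exists_cyc
  have cn : ∀ a b c, Tri L a b c → o a b c = 0 → Cn S Prod.fst t a b c := fun a b c h1 h2 =>
    ⟨(a, b), (a, c), k _ _ ⟨(hS _).2 h1.adj, (hS _).2 h1.swap.adj, rfl,
      fun e => h1.2.2.1 (congrArg Prod.snd e), by
        rintro ⟨a', d⟩ hd (rfl : a' = a) n1 n2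
        exact (h.succ a' b c d h1 ((hS _).1 hd) (fun e => n1 (e ▸ rfl))
          fun e => n2 (e ▸ rfl)).trans h2⟩, rfl, rfl, rfl⟩
  refine ⟨S, Prod.fst, t, ⟨v, c, fun d hd => ((hS d).1 hd).1, fun d _ e _ e1 e2 =>
    Prod.ext e1 e2⟩, fun a b => ⟨?_, fun k => ⟨(a, b), (hS _).2 k, rfl, rfl⟩⟩,
    fun a b c h1 h2 => ?_⟩
  · rintro ⟨d, hd, rfl, rfl⟩
    exact (hS d).1 hd
  · have h3 := (h.rot a b c h1).symm.trans h2
    exact ⟨cn _ _ _ h1 h2, cn _ _ _ h1.rot h3, cn _ _ _ h1.rot.rot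
      ((h.rot _ _ _ h1.rot).symm.trans h3)⟩

/-- The invariant of the joining process. -/
structure Jn (L : List (List V)) (o : V → V → V → F2) (A B C : V) (S : Finset (Dt V))
    (p : Dt V → V) (t : Dt V → Dt V → F2) : Prop where
  gd : Gd S p t
  mem : ∀ a b, Ad S p a b → a ∈ A :: B :: C :: L.flatten
  adj : ∀ a b, Adj L a b → Ad S p a b
  out : Fc S p t A C B
  fc : ∀ a b c, Tri L a b c → o a b c = 0 → Fc S p t a b c
  old : ∀ a b, Ad S p a b → ¬ Relation.ReflTransGen (Ad S p) A a → Adj L a b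

open Classical in
theorem Jn.step [Infinite V] (h : Sys L al be τ o) {A B C : V} (hA : A ∉ L.flatten)
    {S : Finset (Dt V)} {p : Dt V → V} {t : Dt V → Dt V → F2} (j : Jn L o A B C S p t) {z : V}
    (hz : z ∈ L.flatten) (hr : ¬ Relation.ReflTransGen (Ad S p) A z) :
    ∃ S' p' t', Jn L o A B C S' p' t' ∧
      #{v ∈ L.flatten.toFinset | ¬ Relation.ReflTransGen (Ad S' p') A v} <
        #{v ∈ L.flatten.toFinset | ¬ Relation.ReflTransGen (Ad S p) A v} := by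
  obtain ⟨w, w', hw, rw, k1, k2⟩ : ∃ w w', w ∈ L.flatten ∧ ¬ Relation.ReflTransGen (Ad S p) A w ∧
      (∀ z, Ad S p w z → Ad S p w w') ∧ ∀ c, Tri L w w' c → o w w' c ≠ 0 := by
    by_contra hn
    have key : ∀ a b, Ad S p a b → ¬ Relation.ReflTransGen (Ad S p) A a →
        ∃ c, Tri L a b c ∧ o a b c = 0 := fun a b k r => by
      by_contra hc
      exact hn ⟨a, b, (j.old a b k r).mem, r, fun _ _ => k, fun c h1 h2 => hc ⟨c, h1, h2⟩⟩
    obtain ⟨y, hy⟩ : ∃ y, Ad S p z y := by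
      by_contra hc
      exact hn ⟨z, z, hz, hr, fun y hy => absurd ⟨y, hy⟩ hc, fun c h1 => absurd rfl h1.1⟩
    obtain ⟨c, c1, c2⟩ := key z y hy hr
    have nb : ∀ a b c, Tri L a b c → ¬ Relation.ReflTransGen (Ad S p) A a →
        ¬ Relation.ReflTransGen (Ad S p) A b := fun a b c h1 r r' =>
      r (r'.tail (j.adj _ _ h1.adj.symm))
    refine h.noClosed (fun a b c => Tri L a b c ∧ o a b c = 0 ∧
      ¬ Relation.ReflTransGen (Ad S p) A a) (fun a b c k => ⟨k.1, k.2.1⟩)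
      (fun a b c k => ⟨k.1.rot, (h.rot a b c k.1).symm.trans k.2.1, nb _ _ _ k.1 k.2.2⟩)
      (fun a b c k => ?_) z y c ⟨c1, c2, hr⟩
    obtain ⟨d, d1, d2⟩ := key b a (j.adj _ _ k.1.adj.symm) (nb _ _ _ k.1 k.2.2)
    exact ⟨d, d1, d2, nb _ _ _ k.1 k.2.2⟩
  have hAB := j.out.1.ad'
  obtain ⟨S', p', t', g, a1, a2⟩ := j.gd.join (Relation.ReflTransGen (Ad S p) A)
    (fun a b k r => r.tail k) .refl rw (fun _ _ => hAB) k1
  have mono : ∀ v, Relation.ReflTransGen (Ad S p) A v → Relation.ReflTransGen (Ad S' p') A v :=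
    Relation.ReflTransGen.mono (fun a b k => (a1 a b).2 (.inl k)) A
  have rw' : Relation.ReflTransGen (Ad S' p') A w := .single ((a1 _ _).2 (.inr (.inl ⟨rfl, rfl⟩)))
  have cn : ∀ a b c, Tri L a b c → o a b c = 0 → Cn S' p' t' a b c := fun a b c h1 h2 =>
    a2 a b c (j.fc a b c h1 h2).1 (fun e => hA (e.1 ▸ h1.adj.mem)) (by
      rintro ⟨rfl, rfl⟩
      exact k2 c h1 h2)
  refine ⟨S', p', t', ⟨g, fun a b k => ?_, fun a b k => (a1 a b).2 (.inl (j.adj a b k)),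
    ⟨a2 _ _ _ j.out.1 (fun e => j.gd.cn_ne j.out.1 e.2) fun e => rw (e.1 ▸ .refl),
      a2 _ _ _ j.out.2.1 (fun e => j.gd.ad_ne j.out.1.ad e.1.symm)
        fun e => rw (e.1 ▸ .single j.out.1.ad),
      a2 _ _ _ j.out.2.2 (fun e => j.gd.ad_ne hAB e.1.symm) fun e => rw (e.1 ▸ .single hAB)⟩,
    fun a b c h1 h2 => ?_, fun a b k r => ?_⟩, card_lt_card ⟨fun v hv => ?_, fun hs => ?_⟩⟩
  · rcases (a1 a b).1 k with k | ⟨rfl, -⟩ | ⟨rfl, -⟩
    · exact j.mem a b k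
    · exact .head _
    · exact .tail _ (.tail _ (.tail _ hw))
  · have h3 := (h.rot a b c h1).symm.trans h2
    exact ⟨cn _ _ _ h1 h2, cn _ _ _ h1.rot h3, cn _ _ _ h1.rot.rot
      ((h.rot _ _ _ h1.rot).symm.trans h3)⟩
  · rcases (a1 a b).1 k with k | ⟨rfl, -⟩ | ⟨rfl, -⟩
    · exact j.old a b k fun r' => r (mono _ r')
    · exact absurd .refl r
    · exact absurd rw' r
  · exact mem_filter.2 ⟨(mem_filter.1 hv).1, fun r => (mem_filter.1 hv).2 (mono _ r)⟩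
  · exact (mem_filter.1 (hs (mem_filter.2 ⟨List.mem_toFinset.2 hw, rw⟩))).2 rw'

theorem Sys.jn [Infinite V] (h : Sys L al be τ o) {A B C : V} (hA : A ∉ L.flatten)
    (hB : B ∉ L.flatten) (hC : C ∉ L.flatten) (h1 : A ≠ B) (h2 : A ≠ C) (h3 : B ≠ C) :
    ∃ S p t, Jn L o A B C S p t := by
  obtain ⟨S0, p0, t0, g0, a0, f0⟩ := h.map
  have m0 : ∀ a b, Ad S0 p0 a b → a ∈ L.flatten ∧ b ∈ L.flatten := fun a b k =>
    ⟨((a0 a b).1 k).mem, ((a0 a b).1 k).symm.mem⟩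
  obtain ⟨S1, p1, t1, g1, a1, f1⟩ := g0.join (u := A) (w := B) (u' := A) (w' := A) (· = A)
    (fun a b k e => absurd (e ▸ (m0 a b k).1) hA) rfl h1.symm
    (fun z k => absurd (m0 _ _ k).1 hA) fun z k => absurd (m0 _ _ k).1 hB
  obtain ⟨S2, p2, t2, g2, a2, f2⟩ := g1.join (u := C) (w := A) (u' := A) (w' := B) (· = C)
    (fun a b k e => by grind) rfl h2 (fun z k => by grind)
    fun z _ => (a1 _ _).2 (.inr (.inl ⟨rfl, rfl⟩))
  obtain ⟨S3, p3, t3, g3, -, a3, f3, f4⟩ := g2.diagonal (u := A) (v := C) (w := B)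
    (g2.cn_two ((a2 _ _).2 (.inr (.inr ⟨rfl, rfl⟩)))
      ((a2 _ _).2 (.inl ((a1 _ _).2 (.inr (.inl ⟨rfl, rfl⟩))))) h3.symm fun z k => by grind)
    (by grind)
  have cn : ∀ a b c, Cn S0 p0 t0 a b c → Cn S2 p2 t2 a b c := fun a b c k => by
    have := (m0 _ _ k.ad).1
    exact f2 _ _ _ (f1 _ _ _ k (by grind) (by grind)) (by grind) (by grind)
  refine ⟨S3, p3, t3, g3, fun a b k => ?_, fun a b k => by grind, f3,
    fun a b c k1 k2 => f4 _ _ _ ⟨cn _ _ _ (f0 _ _ _ k1 k2).1, cn _ _ _ (f0 _ _ _ k1 k2).2.1,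
      cn _ _ _ (f0 _ _ _ k1 k2).2.2⟩, fun a b k r => ?_⟩
  · simp only [List.mem_cons]
    grind
  · have r1 : a ≠ A := fun e => r (e ▸ .refl)
    have r2 : a ≠ B := fun e => r (e ▸ .single f3.1.ad')
    have r3 : a ≠ C := fun e => r (e ▸ .single f3.1.ad)
    grind

/-- Add the edges `A B`, `A C` (`Gd.join`), `C B` (`cn_two`, `Gd.diagonal`). While some vertex `z`
of `L` is not reachable from `A`, join `A` (after the dart `A B`) to an unreachable vertex `w`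
that is isolated or has an edge `w w'` with no positive triangle `w w' c` of `L`; such a vertex
exists by `Sys.noClosed` for the positive triangles at unreachable vertices (edges at unreachable
vertices are edges of `L`). -/
theorem Sys.conn [Infinite V] (h : Sys L al be τ o) {A B C : V} (hA : A ∉ L.flatten)
    (hB : B ∉ L.flatten) (hC : C ∉ L.flatten) (h1 : A ≠ B) (h2 : A ≠ C) (h3 : B ≠ C) :
    ∃ (S : Finset (Dt V)) (p : Dt V → V) (t : Dt V → Dt V → F2), Gd S p t ∧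
      (∀ a b, Ad S p a b → a ∈ A :: B :: C :: L.flatten) ∧
      (∀ v ∈ A :: B :: C :: L.flatten, Relation.ReflTransGen (Ad S p) A v) ∧
      (∀ a b, Adj L a b → Ad S p a b) ∧ Fc S p t A C B ∧
      ∀ a b c, Tri L a b c → o a b c = 0 → Fc S p t a b c := by
  classical
  obtain ⟨S, p, t, j⟩ := h.jn hA hB hC h1 h2 h3
  induction hk : #{v ∈ L.flatten.toFinset | ¬ Relation.ReflTransGen (Ad S p) A v}
    using Nat.strong_induction_on generalizing S p t with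
  | _ k ih =>
    by_cases hz : ∃ z ∈ L.flatten, ¬ Relation.ReflTransGen (Ad S p) A z
    · obtain ⟨z, hz, hr⟩ := hz
      obtain ⟨S', p', t', j', hlt⟩ := j.step h hA hz hr
      exact ih _ (hk ▸ by convert hlt) S' p' t' j' rfl
    refine ⟨S, p, t, j.gd, j.mem, fun v hv => ?_, j.adj, j.out, j.fc⟩
    simp only [List.mem_cons] at hv
    rcases hv with rfl | rfl | rfl | hv
    exacts [.refl, .single j.out.1.ad', .single j.out.1.ad, not_not.1 fun r => hz ⟨v, hv, r⟩]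

end Pool.Agent.P.MP_2b4a47_lc.HT
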