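import Pool.Agent.P.MP_2b4a47_lc.HT.SplC
import Pool.Agent.P.MP_2b4a47_lc.HT.Split
import Pool.Agent.P.MP_2b4a47_lc.HT.Path
import Pool.Agent.P.MP_2b4a47_lc.HT.Flip

/-! The tournaments can be made cyclic orders. -/

namespace Pool.Agent.P.MP_2b4a47_lc.HT

open Finset

variable {V N : Type} [DecidableEq V] [DecidableEq N] {S : Finset (Dt N)} {p p' : Dt N → V}
  {t t' : Dt N → Dt N → F2} {Z Z' Y : Dt N → F2} {x y n : Dt N} {κ : F2}

/-- There are four darts at `v`. -/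
def StrongBig (S : Finset (Dt N)) (p : Dt N → V) (v : V) : Prop :=
  ∃ x ∈ S, ∃ y ∈ S, ∃ z ∈ S, ∃ w ∈ S, p x = v ∧ p y = v ∧ p z = v ∧ p w = v ∧ x ≠ y ∧ x ≠ z ∧
    x ≠ w ∧ y ≠ z ∧ y ≠ w ∧ z ≠ w

/-- The data for a splitting. -/
def StrongData (S : Finset (Dt N)) (p : Dt N → V) (t : Dt N → Dt N → F2) : Prop :=
  ∃ (v : V) (A : Dt N → Prop) (φ ψ : Dt N → F2),
    (∃ a ∈ S, ∃ a' ∈ S, a ≠ a' ∧ p a = v ∧ p a' = v ∧ A a ∧ A a') ∧
    (∃ b ∈ S, ∃ b' ∈ S, b ≠ b' ∧ p b = v ∧ p b' = v ∧ ¬ A b ∧ ¬ A b') ∧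
    ∀ a ∈ S, ∀ b ∈ S, p a = v → p b = v → A a → ¬ A b → t a b = φ a + ψ b

omit [DecidableEq V] in
theorem strong_two {v : V} (h : StrongBig S p v) (x y : Dt N) :
    ∃ b ∈ S, ∃ b' ∈ S, b ≠ b' ∧ p b = v ∧ p b' = v ∧ ¬ (b = x ∨ b = y) ∧ ¬ (b' = x ∨ b' = y) := by
  obtain ⟨a, ha, b, hb, c, hc, d, hd, e1, e2, e3, e4, n1, n2, n3, n4, n5, n6⟩ := h
  by_contra hn
  have key : ∀ f ∈ S, ∀ g ∈ S, f ≠ g → p f = v → p g = v → (f = x ∨ f = y) ∨ (g = x ∨ g = y) := by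
    intro f hf g hg n e e'
    by_contra h1
    exact hn ⟨f, hf, g, hg, n, e, e', fun h2 => h1 (.inl h2), fun h2 => h1 (.inr h2)⟩
  have k1 := key a ha b hb n1 e1 e2
  have k2 := key a ha c hc n2 e1 e3
  have k3 := key a ha d hd n3 e1 e4
  have k4 := key b hb c hc n4 e2 e3
  have k5 := key b hb d hd n5 e2 e4
  have k6 := key c hc d hd n6 e3 e4
  clear key hn e1 e2 e3 e4 ha hb hc hd
  grind

omit [DecidableEq V] [DecidableEq N] in
theorem strong_keep (hs : Succ S p t x y)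
    (h : ∀ a ∈ S, ∀ b ∈ S, p a = p x → p b = p x → a ≠ b → t' a b = t a b) : Succ S p t' x y := by
  obtain ⟨hx, hy, e, n1, h1⟩ := hs
  refine ⟨hx, hy, e, n1, fun g hg e1 n2 n3 => ?_⟩
  rw [← h1 g hg e1 n2 n3, cc, cc, h x hx y hy rfl e n1, h y hy g hg e e1 n3.symm,
    h g hg x hx e1 rfl n2]

theorem strong_succ (h : Valid S p t) (hs : Succ S p t x y) (hb : StrongBig S p (p x)) :
    StrongData S p t := by
  refine ⟨p x, fun a => a = x ∨ a = y, fun a => if a = x then 0 else t x y + 1, fun b => t x b,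
    ⟨x, hs.1, y, hs.2.1, hs.2.2.2.1, rfl, hs.2.2.1, .inl rfl, .inr rfl⟩, strong_two hb x y,
    fun a _ b hb _ e2 h1 h2 => ?_⟩
  rw [not_or] at h2
  rcases h1 with rfl | rfl
  · simp
  · have h3 := hs.2.2.2.2 b hb e2 h2.1 h2.2
    have h4 := h.tour b hb x hs.1 e2 h2.1
    simp only [if_neg hs.2.2.2.1.symm]
    rw [cc] at h3
    linear_combination h3 - h4 - (t x a + 1) * f2_two

theorem strong_free (h : Valid S p t) {v : V} (hb : StrongBig S p v)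
    (h0 : ∀ Z, Cy S p Z → ∀ d ∈ S, p d = v → Z d = 0) :
    ∃ t1, Valid S p t1 ∧ StrongData S p t1 ∧ ∀ a b, p a ≠ v → t1 a b = t a b := by
  obtain ⟨x, hx, y, hy, -, -, -, -, e1, e2, -, -, n1, -⟩ := id hb
  obtain ⟨t1, ht1⟩ : ∃ t1 : Dt N → Dt N → F2, ∀ a b, t1 a b =
      if p a = v ∧ (a = x ∨ a = y) ∧ ¬ (b = x ∨ b = y) then 0
      else if p a = v ∧ ¬ (a = x ∨ a = y) ∧ (b = x ∨ b = y) then 1 else t a b :=
    ⟨_, fun _ _ => rfl⟩
  have k1 : ∀ a b, p a ≠ v → t1 a b = t a b := fun a b e => by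
    rw [ht1, if_neg fun h => e h.1, if_neg fun h => e h.1]
  have k2 : ∀ a, t1 a a = t a a := fun a => by
    rw [ht1, if_neg fun h => h.2.2 h.2.1, if_neg fun h => h.2.1 h.2.2]
  refine ⟨t1, ⟨⟨h.sym, h.ne, fun d hd e he e3 n2 => ?_, fun d hd => ?_⟩, fun Z Z' hZ hZ' => ?_⟩,
    ⟨v, fun a => a = x ∨ a = y, fun _ => 0, fun _ => 0,
      ⟨x, hx, y, hy, n1, e1, e2, .inl rfl, .inr rfl⟩, strong_two hb x y,
      fun a _ b _ e3 _ h1 h2 => ?_⟩, k1⟩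
  · have h1 := h.tour d hd e he e3 n2
    by_cases h2 : p d = v
    · have h3 : p e = v := e3 ▸ h2
      rw [ht1, ht1]
      by_cases h4 : d = x ∨ d = y <;> by_cases h5 : e = x ∨ e = y <;>
        simp only [h2, h3, h4, h5, not_true, not_false_iff, and_self, and_true, and_false,
          if_true, if_false, h1, zero_add, add_zero]
    · rw [k1 d e h2, k1 e d (e3 ▸ h2), h1]
  · rw [k2, k2, h.diag d hd]
  · rw [← h.zero Z Z' hZ hZ']
    exact Bf_congr fun d hd e _ _ h1 _ => k1 d e fun h2 => h1 (h0 Z hZ d hd h2)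
  · rw [ht1, if_pos ⟨e3, h1, h2⟩, add_zero]

theorem strong_circ (h : Valid S p t) {W : Finset V} {o i : V → Dt N} (hc : Circ S p W o i)
    {v : V} (hv : v ∈ W) (h0 : ∀ x y, p x = v → ¬ Succ S p t x y) :
    ∃ t1, Valid S p t1 ∧ StrongData S p t1 ∧ ∀ a ∈ S, ∀ b ∈ S, p b = p a → a ≠ b →
      ¬ StrongBig S p (p a) → t1 a b = t a b := by
  obtain ⟨t1, φ, ψ, h1, h2, h3⟩ := hc.flip h
  have ho := hc.oS v hv
  have hi := hc.iS v hv
  have eo := hc.po v hv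
  have ei := hc.pi v hv
  have ne := hc.ne v hv
  refine ⟨t1, h1, ⟨v, fun a => a = o v ∨ (a ≠ o v ∧ a ≠ i v ∧ cc t (i v) (o v) a = 0), φ, ψ,
    ?_, ?_, fun a ha b hb e1 e2 h4 h5 => h3 v hv a ha b hb e1 e2 h4 ?_⟩,
    fun a ha b hb e1 n1 h4 => h2 a b ?_⟩
  · by_contra hn
    refine h0 (o v) (i v) eo ⟨ho, hi, ei.trans eo.symm, ne, fun g hg e1 n1 n2 => ?_⟩
    have h4 : cc t (i v) (o v) g = 1 := f2_eq_one fun h4 =>
      hn ⟨o v, ho, g, hg, n1.symm, eo, e1.trans eo, .inl rfl, .inr ⟨n1, n2, h4⟩⟩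
    rw [cc_rot t g (o v) (i v), h.tour.cc_swap hg hi ho (ei.trans (e1.trans eo).symm) e1.symm n2 n1
      ne.symm, ← cc_rot t g (i v) (o v), h4]
    decide
  · by_contra hn
    refine h0 (i v) (o v) ei ⟨hi, ho, eo.trans ei.symm, ne.symm, fun g hg e1 n1 n2 => ?_⟩
    by_contra h4
    exact hn ⟨i v, hi, g, hg, n1.symm, ei, e1.trans ei,
      fun h5 => h5.elim (fun h6 => ne h6.symm) fun h6 => h6.2.1 rfl,
      fun h5 => h5.elim n2 fun h6 => h4 h6.2.2⟩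
  · by_cases h6 : b = i v
    · exact .inl h6
    · have h7 : b ≠ o v := fun h7 => h5 (.inl h7)
      exact .inr ⟨h7, h6, f2_eq_one fun h8 => h5 (.inr ⟨h7, h6, h8⟩)⟩
  · by_contra hn
    simp only [not_or, not_not, OnC, e1, not_and] at hn
    obtain ⟨hW, h5, h6, -⟩ := hn
    exact h4 ⟨a, ha, b, hb, _, hc.oS _ hW, _, hc.iS _ hW, rfl, e1, hc.po _ hW, hc.pi _ hW, n1,
      (h5 hW).1, (h5 hW).2, (h6 hW).1, (h6 hW).2, hc.ne _ hW⟩

theorem strong_data (h : Valid S p t) {v : V} (hb : StrongBig S p v) :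
    ∃ t1, Valid S p t1 ∧ StrongData S p t1 ∧ ∀ x y, Succ S p t x y → Succ S p t1 x y := by
  by_cases h1 : ∃ x y, Succ S p t x y ∧ StrongBig S p (p x)
  · obtain ⟨x, y, hs, hx⟩ := h1
    exact ⟨t, h, strong_succ h hs hx, fun _ _ => id⟩
  have h2 : ∀ x y, Succ S p t x y → ¬ StrongBig S p (p x) := fun x y a b => h1 ⟨x, y, a, b⟩
  by_cases h0 : ∀ Z, Cy S p Z → ∀ d ∈ S, p d = v → Z d = 0
  · obtain ⟨t1, k1, k2, k3⟩ := strong_free h hb h0
    exact ⟨t1, k1, k2, fun x y hs => strong_keep hs fun a _ b _ e _ _ =>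
      k3 a b fun e' => h2 x y hs ((e.symm.trans e') ▸ hb)⟩
  · simp only [not_forall] at h0
    obtain ⟨Z, hZ, d, hd, rfl, h3⟩ := h0
    obtain ⟨W, o, i, hc, hW⟩ := exists_circ h.toPre hZ hd h3
    obtain ⟨t1, k1, k2, k3⟩ := strong_circ h hc hW fun x y e hs => h2 x y hs (e ▸ hb)
    exact ⟨t1, k1, k2, fun x y hs => strong_keep hs fun a ha b hb' e e' n1 =>
      k3 a ha b hb' (e'.trans e.symm) n1 (e ▸ h2 x y hs)⟩

theorem strong_merge {t2 : Dt N → Dt N → F2} (h : Spl S p t p' t' n 0) (hv : Valid (ad S n) p' t')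
    (ha : ∃ a ∈ S, p' a = p' n) (hb : ∃ b ∈ S, p' b = p' n.swap) (h1 : Valid (ad S n) p' t2)
    (h2 : Cyc (ad S n) p' t2) (h3 : ∀ x y, Succ (ad S n) p' t' x y → Succ (ad S n) p' t2 x y) :
    ∃ t3, Valid S p t3 ∧ Cyc S p t3 ∧ ∀ x y, Succ S p t x y → Succ S p t3 x y := by
  obtain ⟨t3, k⟩ := exists_merge t2 h.hn h.hn' h.ne h.hp
  refine ⟨t3, k.valid_down h1, k.cyc_down h1.tour h2, fun x y hs => ?_⟩
  obtain ⟨u1, u2⟩ := h.succ_up hv.tour ha hb hs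
  rcases (h.hp x hs.1 y hs.2.1).1 hs.2.2.1.symm with e | e | e
  · exact k.succ_same h1.tour (h3 _ _ (u1 e)) hs.1 hs.2.1
  · exact k.succ_mix h1.tour (h3 _ _ (u2 e.1 e.2).1) (h3 _ _ (u2 e.1 e.2).2)
  · obtain ⟨u3, u4⟩ := (h.symm.succ_up (ad_swap (S := S) (n := n) ▸ hv.tour) hb ha hs).2 e.1 e.2
    rw [ad_swap] at u3 u4
    refine k.symm.succ_mix ?_ ?_ ?_ <;> rw [ad_swap]
    exacts [h1.tour, h3 _ _ u3, h3 _ _ u4]

/-- Strong induction on `mu S p`. If no vertex has four darts take `t' = t`. Otherwise find a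
valid `t1` with all successor pairs of `t` and a splitting for `exists_split`: a successor pair
`A = {x, y}` at a vertex with four darts; if there is none, at such a vertex `v` either no cycle
uses a dart at `v` (redefine `t` at `v`; `Bf_congr`), or `exists_circ`, `Circ.flip`,
`A a := a = o v ∨ (a ≠ o v ∧ a ≠ i v ∧ cc t (i v) (o v) a = 0)` (both colours occur, else
`i v`, `o v` is a successor pair in one order). Induct, `exists_merge`, `valid_down`, `cyc_down`,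
`succ_up`, `succ_same`, `succ_mix`, `Spl.symm`, `ad_swap`. -/
theorem Valid.exists_cyc [Infinite V] [Infinite N] (h : Valid S p t) :
    ∃ t', Valid S p t' ∧ Cyc S p t' ∧ ∀ x y, Succ S p t x y → Succ S p t' x y := by
  induction hm : mu S p using Nat.strong_induction_on generalizing S p t with
  | _ m ih =>
    by_cases hb : ∃ v, StrongBig S p v
    · obtain ⟨v, hb⟩ := hb
      obtain ⟨t1, k1, ⟨v, A, φ, ψ, a1, a2, a3⟩, k2⟩ := strong_data h hb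
      obtain ⟨n, p', t', s1, s2, s3, s4, s5⟩ := exists_split k1 v A φ ψ a1 a2 a3
      obtain ⟨t2, r1, r2, r3⟩ := ih _ (hm ▸ s3) s2 rfl
      obtain ⟨t3, q1, q2, q3⟩ := strong_merge s1 s2 s4 s5 r1 r2 r3
      exact ⟨t3, q1, q2, fun x y hs => q3 x y (k2 x y hs)⟩
    · exact ⟨t, h, fun x hx y hy z hz w hw e1 e2 e3 n1 n2 n3 n4 n5 n6 => absurd
        ⟨p x, x, hx, y, hy, z, hz, w, hw, rfl, e1, e2, e3, n1, n2, n3, n4, n5, n6⟩ hb,
        fun _ _ => id⟩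

end Pool.Agent.P.MP_2b4a47_lc.HT
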