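import Pool.Agent.P.MP_2b4a47_lc.PlDefs

/-! The linear system over `ZMod 2` that characterises plane embeddability. -/

namespace Pool.Agent.P.MP_2b4a47_lc.HT

open Finset

abbrev F2 := ZMod 2

variable {V : Type} [DecidableEq V]

/-- `a b` is an edge of the complex generated by `L`. -/
def Adj (L : List (List V)) (a b : V) : Prop := a ≠ b ∧ ∃ l ∈ L, a ∈ l ∧ b ∈ l

/-- `a b c` is a triangle of the complex generated by `L`. -/
def Tri (L : List (List V)) (a b c : V) : Prop :=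
  a ≠ b ∧ a ≠ c ∧ b ≠ c ∧ ∃ l ∈ L, a ∈ l ∧ b ∈ l ∧ c ∈ l

/-- One of the four terms of the crossing equation. -/
def Nx (al be τ : V → V → V → F2) (u v w z : V) : F2 :=
  al u v w + be w z u + if u = w then τ u v z else 0

/-- The parity of the number of sides of `a b c` below `p`. -/
def Ins (al : V → V → V → F2) (a b c p : V) : F2 :=
  al a b p + al b a p + (al b c p + al c b p) + (al c a p + al a c p)

structure Sys (L : List (List V)) (al be τ o : V → V → V → F2) : Prop where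
  cross : ∀ u v w z, Adj L u v → Adj L w z →
    Nx al be τ u v w z + Nx al be τ v u w z + Nx al be τ u v z w + Nx al be τ v u z w = 0
  tour : ∀ v a b, Adj L v a → Adj L v b → a ≠ b → τ v a b + τ v b a = 1
  diag : ∀ v a, Adj L v a → τ v a a + τ a v v = 1
  succ : ∀ a b c d, Tri L a b c → Adj L a d → d ≠ b → d ≠ c → τ a b c + τ a c d + τ a d b = o a b c
  rot : ∀ a b c, Tri L a b c → o a b c = o b c a
  swap : ∀ a b c, Tri L a b c → o a b c + o a c b = 1
  out : ∀ a b c p, Tri L a b c → p ∈ L.flatten → p ≠ a → p ≠ b → p ≠ c → Ins al a b c p = 0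
  corner : ∀ a b c, Tri L a b c → Ins al a b c a + τ a b c + o a b c = 1

variable {L : List (List V)} {al be τ o : V → V → V → F2}

omit [DecidableEq V] in
theorem Adj.symm {a b : V} (h : Adj L a b) : Adj L b a :=
  ⟨h.1.symm, h.2.imp fun _ hl => ⟨hl.1, hl.2.2, hl.2.1⟩⟩

omit [DecidableEq V] in
theorem Adj.mem {a b : V} (h : Adj L a b) : a ∈ L.flatten :=
  let ⟨l, hl, ha, _⟩ := h.2
  List.mem_flatten.2 ⟨l, hl, ha⟩

omit [DecidableEq V] in
theorem Tri.rot {a b c : V} (h : Tri L a b c) : Tri L b c a :=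
  ⟨h.2.2.1, h.1.symm, h.2.1.symm, h.2.2.2.imp fun _ hl => ⟨hl.1, hl.2.2.1, hl.2.2.2, hl.2.1⟩⟩

omit [DecidableEq V] in
theorem Tri.swap {a b c : V} (h : Tri L a b c) : Tri L a c b :=
  ⟨h.2.1, h.1, h.2.2.1.symm, h.2.2.2.imp fun _ hl => ⟨hl.1, hl.2.1, hl.2.2.2, hl.2.2.1⟩⟩

omit [DecidableEq V] in
theorem Tri.adj {a b c : V} (h : Tri L a b c) : Adj L a b :=
  ⟨h.1, h.2.2.2.imp fun _ hl => ⟨hl.1, hl.2.1, hl.2.2.1⟩⟩

theorem f2_self (x : F2) : x + x = 0 := by revert x; decide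

/-- A dart lies in at most one positively oriented triangle. -/
theorem Sys.uniq (h : Sys L al be τ o) {a b c c' : V} (h1 : Tri L a b c) (h2 : Tri L a b c')
    (o1 : o a b c = 0) (o2 : o a b c' = 0) : c = c' := by
  by_contra hc
  have e1 := h.succ a b c c' h1 h2.swap.adj h2.2.2.1.symm (Ne.symm hc)
  have e2 := h.succ a b c' c h2 h1.swap.adj h1.2.2.1.symm hc
  have e3 := h.tour a b c h1.adj h1.swap.adj h1.2.2.1
  have e4 := h.tour a b c' h2.adj h2.swap.adj h2.2.2.1
  have e5 := h.tour a c c' h1.swap.adj h2.swap.adj hc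
  rw [o1] at e1
  rw [o2] at e2
  have : (1 : F2) + 1 + 1 = 0 := by linear_combination e1 + e2 - e3 - e4 - e5
  exact absurd this (by decide)

/-- The positively oriented triangles contain no closed surface. -/
theorem Sys.noClosed (h : Sys L al be τ o) (F : V → V → V → Prop)
    (hF : ∀ a b c, F a b c → Tri L a b c ∧ o a b c = 0) (hr : ∀ a b c, F a b c → F b c a)
    (ht : ∀ a b c, F a b c → ∃ d, F b a d) (a b c : V) : ¬ F a b c := by
  classical
  intro h0
  let U := L.flatten.toFinset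
  let S : Finset (V × V × V) := (U ×ˢ U ×ˢ U).filter fun t => F t.1 t.2.1 t.2.2
  have hS : ∀ x y z, (x, y, z) ∈ S ↔ F x y z := fun x y z =>
    ⟨fun ht => (mem_filter.1 ht).2, fun ht => mem_filter.2 ⟨mem_product.2
      ⟨List.mem_toFinset.2 (hF _ _ _ ht).1.adj.mem, mem_product.2
        ⟨List.mem_toFinset.2 (hF _ _ _ ht).1.rot.adj.mem,
          List.mem_toFinset.2 (hF _ _ _ ht).1.rot.rot.adj.mem⟩⟩, ht⟩⟩
  have hu : ∀ x y z z', F x y z → F x y z' → z = z' := fun x y z z' h1 h2 =>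
    h.uniq (hF _ _ _ h1).1 (hF _ _ _ h2).1 (hF _ _ _ h1).2 (hF _ _ _ h2).2
  let φ : V → F2 := fun v => if v = b then 0 else τ a b v
  let g : V → V → F2 := fun u v =>
    al u v a + al v u a + ((if u = a then φ v else 0) + if v = a then φ u else 0)
  have hg : ∀ u v, g u v + g v u = 0 := fun u v => by
    have : g v u = g u v := by simp only [g]; ring
    rw [this, f2_self]
  choose! nx hnx using ht
  have s1 : ∑ t ∈ S, g t.1 t.2.1 = 0 := by
    refine sum_involution (fun t _ => (t.2.1, t.1, nx t.1 t.2.1 t.2.2)) (fun t _ => hg _ _) ?_ ?_ ?_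
    · rintro ⟨x, y, z⟩ ht - e
      exact (hF _ _ _ ((hS _ _ _).1 ht)).1.1 (congrArg Prod.fst e).symm
    · rintro ⟨x, y, z⟩ ht
      exact (hS _ _ _).2 (hnx _ _ _ ((hS _ _ _).1 ht))
    · rintro ⟨x, y, z⟩ ht
      have h1 := (hS _ _ _).1 ht
      rw [hu _ _ _ _ (hnx _ _ _ (hnx _ _ _ h1)) h1]
  have sr : ∀ k : V × V × V → F2, ∑ t ∈ S, k (t.2.1, t.2.2, t.1) = ∑ t ∈ S, k t := fun k =>
    sum_nbij' (fun t => (t.2.1, t.2.2, t.1)) (fun t => (t.2.2, t.1, t.2.1))
      (fun t ht => (hS _ _ _).2 (hr _ _ _ ((hS _ _ _).1 ht)))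
      (fun t ht => (hS _ _ _).2 (hr _ _ _ (hr _ _ _ ((hS _ _ _).1 ht))))
      (fun _ _ => rfl) (fun _ _ => rfl) fun _ _ => rfl
  have s2 : ∑ t ∈ S, g t.2.1 t.2.2 = 0 := (sr fun t => g t.1 t.2.1).trans s1
  have s3 : ∑ t ∈ S, g t.2.2 t.1 = 0 := (sr fun t => g t.2.1 t.2.2).trans s2
  have k1 : ∀ v w, F a v w → g a v + g v w + g w a = if v = b then 1 else 0 := by
    intro v w hv
    obtain ⟨t1, o1⟩ := hF _ _ _ hv
    obtain ⟨t0, -⟩ := hF _ _ _ h0
    have e1 := h.corner a v w t1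
    have e2 : φ v + φ w + τ a v w + 1 = if v = b then 1 else 0 := by
      by_cases hvb : v = b
      · subst hvb
        simp only [φ, if_true, if_neg t1.2.2.1.symm]
        linear_combination f2_self (τ a v w)
      · by_cases hwb : w = b
        · subst hwb
          simp only [φ, if_true, if_neg hvb]
          linear_combination h.tour a v w t1.adj t1.swap.adj hvb + f2_self 1
        · simp only [φ, if_neg hvb, if_neg hwb]
          linear_combination h.succ a v w b t1 t0.adj (Ne.symm hvb) (Ne.symm hwb) + o1 +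
            h.tour a w b t1.swap.adj t0.adj hwb - f2_self (τ a w b) + f2_self 1
    simp only [g, if_true, if_neg t1.1.symm, if_neg t1.2.1.symm]
    rw [← e2]
    simp only [Ins] at e1
    linear_combination e1 - o1 - f2_self (τ a v w)
  obtain ⟨n1, n2, n3, -⟩ := (hF _ _ _ h0).1
  have k2 : ∀ t ∈ S, g t.1 t.2.1 + g t.2.1 t.2.2 + g t.2.2 t.1 =
      if t ∈ Pl.tri a b c then 1 else 0 := by
    rintro ⟨x, y, z⟩ ht
    have h1 := (hS _ _ _).1 ht
    obtain ⟨t1, -⟩ := hF _ _ _ h1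
    have m1 := t1.1
    have m2 := t1.2.1
    have m3 := t1.2.2.1
    simp only [Pl.mem_tri, Prod.mk.injEq]
    by_cases hx : x = a
    · subst hx
      rw [k1 _ _ h1]
      refine if_congr ⟨?_, by grind⟩ rfl rfl
      rintro rfl
      exact .inl ⟨rfl, rfl, hu _ _ _ _ h1 h0⟩
    by_cases hy : y = a
    · subst hy
      rw [add_rotate, k1 _ _ (hr _ _ _ h1)]
      refine if_congr ⟨?_, by grind⟩ rfl rfl
      rintro rfl
      exact .inr (.inr ⟨hu _ _ _ _ (hr _ _ _ h1) h0, rfl, rfl⟩)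
    by_cases hz : z = a
    · subst hz
      rw [← add_rotate, k1 _ _ (hr _ _ _ (hr _ _ _ h1))]
      refine if_congr ⟨?_, by grind⟩ rfl rfl
      rintro rfl
      exact .inr (.inl ⟨rfl, hu _ _ _ _ (hr _ _ _ (hr _ _ _ h1)) h0, rfl⟩)
    have e := h.out x y z a t1 (hF _ _ _ h0).1.adj.mem (Ne.symm hx) (Ne.symm hy) (Ne.symm hz)
    rw [if_neg (by grind)]
    simp only [g, if_neg hx, if_neg hy, if_neg hz, Ins] at e ⊢
    linear_combination e
  have s4 := sum_congr rfl k2
  rw [sum_add_distrib, sum_add_distrib, s1, s2, s3, sum_ite_mem, inter_eq_right.2 (by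
    intro t ht
    rcases Pl.mem_tri.1 ht with rfl | rfl | rfl
    exacts [(hS _ _ _).2 h0, (hS _ _ _).2 (hr _ _ _ h0), (hS _ _ _).2 (hr _ _ _ (hr _ _ _ h0))]),
    Pl.tri, sum_insert (by simp [n1, n2]), sum_pair (by simp [n3])] at s4
  exact absurd s4 (by decide)

end Pool.Agent.P.MP_2b4a47_lc.HT
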